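import Mathlib

/-! # A Lipschitz function whose derivative is a.e. bounded by one on a ball is 1-Lipschitz there -/

open MeasureTheory Measure Metric Set

namespace Run7.h763

lemma lip_of_ae {κ : Type*} [Fintype κ] {f : (κ → ℝ) → ℝ} {K : NNReal} (hf : LipschitzWith K f)
    {c : κ → ℝ} {s : ℝ} (h : ∀ᵐ p : κ → ℝ, p ∈ ball c s → ‖fderiv ℝ f p‖ ≤ 1)
    {p q : κ → ℝ} (hp : p ∈ ball c s) (hq : q ∈ ball c s) : |f q - f p| ≤ dist q p := by
  apply le_of_forall_pos_le_add
  intro ε hε
  rw [mem_ball] at hp hq
  -- the radius of averaging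
  obtain ⟨η, hη, hηp, hηq, hηε⟩ : ∃ η > 0, dist p c + η < s ∧ dist q c + η < s ∧
      2 * (K * η) ≤ ε := by
    refine ⟨min (min ((s - dist p c) / 2) ((s - dist q c) / 2)) (ε / (2 * (K + 1))),
      ?_, ?_, ?_, ?_⟩
    · apply lt_min
      · apply lt_min <;> linarith
      · positivity
    · have := (min_le_left (min ((s - dist p c) / 2) ((s - dist q c) / 2))
        (ε / (2 * ((K : ℝ) + 1)))).trans (min_le_left _ _)
      linarith
    · have := (min_le_left (min ((s - dist p c) / 2) ((s - dist q c) / 2))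
        (ε / (2 * ((K : ℝ) + 1)))).trans (min_le_right _ _)
      linarith
    · have h1 := min_le_right (min ((s - dist p c) / 2) ((s - dist q c) / 2))
        (ε / (2 * ((K : ℝ) + 1)))
      have hK : (0:ℝ) ≤ K := K.2
      calc 2 * (K * min (min ((s - dist p c) / 2) ((s - dist q c) / 2)) (ε / (2 * ((K : ℝ) + 1))))
          ≤ 2 * (K * (ε / (2 * ((K : ℝ) + 1)))) := by gcongr
        _ ≤ 2 * ((K + 1) * (ε / (2 * ((K : ℝ) + 1)))) := by gcongr; linarith
        _ = ε := by field_simp
  set v := q - p with hv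
  have hseg : ∀ t ∈ Icc (0:ℝ) 1, ∀ w ∈ closedBall (0 : κ → ℝ) η, p + t • v + w ∈ ball c s := by
    intro t ht w hw
    rw [mem_closedBall, dist_zero_right] at hw
    rw [mem_ball, dist_eq_norm]
    have e : p + t • v + w - c = (1 - t) • (p - c) + t • (q - c) + w := by
      rw [hv]
      simp only [smul_sub, sub_smul, one_smul]
      abel
    rw [e]
    have h1 : ‖(1 - t) • (p - c) + t • (q - c) + w‖ ≤ (1 - t) * dist p c + t * dist q c + η := by
      refine (norm_add_le _ _).trans (add_le_add ((norm_add_le _ _).trans ?_) hw)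
      rw [norm_smul, norm_smul, Real.norm_eq_abs, Real.norm_eq_abs, abs_of_nonneg ht.1,
        abs_of_nonneg (by linarith [ht.2]), ← dist_eq_norm, ← dist_eq_norm]
    refine lt_of_le_of_lt h1 ?_
    have h2 : (1 - t) * dist p c ≤ (1 - t) * (s - η) - (1 - t) * (s - η - dist p c) := by
      linarith
    nlinarith [mul_nonneg (sub_nonneg.mpr ht.2) (show 0 ≤ s - η - dist p c by linarith),
      mul_nonneg ht.1 (show 0 ≤ s - η - dist q c by linarith), ht.1, ht.2]
  set B := closedBall (0 : κ → ℝ) η with hB
  set μ : Measure (κ → ℝ) := volume.restrict B with hμ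
  have hμfin : IsFiniteMeasure μ := by
    constructor
    rw [hμ, Measure.restrict_apply MeasurableSet.univ, univ_inter]
    exact measure_closedBall_lt_top
  set V : ℝ := (volume B).toReal with hV
  have hVpos : 0 < V := by
    apply ENNReal.toReal_pos
    · exact (measure_closedBall_pos _ _ hη).ne'
    · exact measure_closedBall_lt_top.ne
  have hμV : μ.real univ = V := by
    rw [hV, hμ, measureReal_def, Measure.restrict_apply MeasurableSet.univ, univ_inter]
  set G : ℝ → ℝ := fun t => ∫ w, f (p + t • v + w) ∂μ with hG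
  have hcont : ∀ t : ℝ, Continuous (fun w : κ → ℝ => f (p + t • v + w)) := fun t =>
    hf.continuous.comp (continuous_const.add continuous_id)
  have hint : ∀ t : ℝ, Integrable (fun w : κ → ℝ => f (p + t • v + w)) μ := fun t =>
    ((hcont t).continuousOn.integrableOn_compact (isCompact_closedBall _ _))
  have hderiv : ∀ t ∈ Icc (0:ℝ) 1, ∃ g', HasDerivAt G g' t ∧ |g'| ≤ ‖v‖ * V := by
    intro t ht
    have hae : ∀ᵐ w ∂μ, DifferentiableAt ℝ f (p + t • v + w) ∧
        ‖fderiv ℝ f (p + t • v + w)‖ ≤ 1 := by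
      have h1 : ∀ᵐ x : κ → ℝ, DifferentiableAt ℝ f x ∧ (x ∈ ball c s → ‖fderiv ℝ f x‖ ≤ 1) :=
        (hf.ae_differentiableAt).and h
      have h2 : ∀ᵐ w : κ → ℝ, DifferentiableAt ℝ f ((p + t • v) + w) ∧
          ((p + t • v) + w ∈ ball c s → ‖fderiv ℝ f ((p + t • v) + w)‖ ≤ 1) :=
        (measurePreserving_add_left volume (p + t • v)).quasiMeasurePreserving.ae h1
      rw [hμ, ae_restrict_iff' isClosed_closedBall.measurableSet]
      filter_upwards [h2] with w hw hwB
      exact ⟨hw.1, hw.2 (hseg t ht w hwB)⟩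
    have hmain := hasDerivAt_integral_of_dominated_loc_of_lip (μ := μ) (𝕜 := ℝ)
      (F := fun t w => f (p + t • v + w)) (F' := fun w => fderiv ℝ f (p + t • v + w) v)
      (x₀ := t) (s := univ) (bound := fun _ => K * ‖v‖) Filter.univ_mem
      (Filter.Eventually.of_forall fun t' => (hcont t').aestronglyMeasurable)
      (hint t)
      (by
        have : Measurable (fun w : κ → ℝ => fderiv ℝ f (p + t • v + w) v) :=
          (measurable_fderiv_apply_const ℝ f v).comp (measurable_const.add measurable_id)
        exact this.aestronglyMeasurable)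
      (by
        refine Filter.Eventually.of_forall fun w => ?_
        rw [lipschitzOnWith_iff_dist_le_mul]
        intro t₁ _ t₂ _
        have h1 := hf.dist_le_mul (p + t₁ • v + w) (p + t₂ • v + w)
        refine h1.trans ?_
        have h2 : dist (p + t₁ • v + w) (p + t₂ • v + w) = dist t₁ t₂ * ‖v‖ := by
          rw [dist_eq_norm, show p + t₁ • v + w - (p + t₂ • v + w) = (t₁ - t₂) • v by
            rw [sub_smul]; abel, norm_smul, Real.dist_eq, Real.norm_eq_abs]
        rw [h2, Real.coe_nnabs, abs_of_nonneg (by positivity)]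
        exact le_of_eq (by ring))
      (integrable_const _)
      (by
        filter_upwards [hae] with w hw
        have h1 : HasFDerivAt f (fderiv ℝ f (p + t • v + w)) (p + t • v + w) :=
          hw.1.hasFDerivAt
        have h2 : HasDerivAt (fun t : ℝ => p + t • v + w) v t := by
          have h3 : HasDerivAt (fun t : ℝ => t • v) ((1:ℝ) • v) t :=
            (hasDerivAt_id t).smul_const v
          rw [one_smul] at h3
          exact (h3.const_add p).add_const w
        exact h1.comp_hasDerivAt t h2)
    refine ⟨_, hmain.2, ?_⟩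
    have h3 : ‖∫ w, fderiv ℝ f (p + t • v + w) v ∂μ‖ ≤ ‖v‖ * μ.real univ := by
      apply norm_integral_le_of_norm_le_const
      filter_upwards [hae] with w hw
      refine (ContinuousLinearMap.le_opNorm _ _).trans ?_
      calc ‖fderiv ℝ f (p + t • v + w)‖ * ‖v‖ ≤ 1 * ‖v‖ := by
            gcongr; exact hw.2
        _ = ‖v‖ := one_mul _
    rw [hμV, Real.norm_eq_abs] at h3
    exact h3
  choose! G' hG'1 hG'2 using hderiv
  have hMVT : ‖G 1 - G 0‖ ≤ (‖v‖ * V) * ‖(1:ℝ) - 0‖ := by
    apply Convex.norm_image_sub_le_of_norm_hasDerivWithin_le (f := G) (f' := G')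
      (s := Icc (0:ℝ) 1) (fun t ht => (hG'1 t ht).hasDerivWithinAt)
      (fun t ht => by rw [Real.norm_eq_abs]; exact hG'2 t ht) (convex_Icc 0 1)
      (left_mem_Icc.mpr zero_le_one) (right_mem_Icc.mpr zero_le_one)
  rw [sub_zero, norm_one, mul_one, Real.norm_eq_abs] at hMVT
  -- comparison of the averages with the values
  have hval : ∀ t : ℝ, |G t - f (p + t • v) * V| ≤ K * η * V := by
    intro t
    have h1 : f (p + t • v) * V = ∫ _w, f (p + t • v) ∂μ := by
      rw [integral_const, hμV, smul_eq_mul, mul_comm]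
    rw [h1, hG]
    simp only
    rw [← integral_sub (hint t) (integrable_const _), ← Real.norm_eq_abs, ← hμV]
    apply norm_integral_le_of_norm_le_const
    rw [hμ, ae_restrict_iff' isClosed_closedBall.measurableSet]
    refine Filter.Eventually.of_forall fun w hw => ?_
    rw [mem_closedBall, dist_zero_right] at hw
    have h2 := hf.dist_le_mul (p + t • v + w) (p + t • v)
    rw [Real.dist_eq] at h2
    rw [Real.norm_eq_abs]
    refine h2.trans ?_
    have h3 : dist (p + t • v + w) (p + t • v) = ‖w‖ := by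
      rw [dist_eq_norm]; congr 1; abel
    rw [h3]
    gcongr
  have h0 := hval 0
  have h1 := hval 1
  rw [zero_smul, add_zero] at h0
  rw [one_smul, show p + v = q by rw [hv]; abel] at h1
  have h2 : |f q - f p| * V ≤ (‖v‖ + ε) * V := by
    have h3 : |f q - f p| * V = |(f q * V - G 1) + (G 1 - G 0) + (G 0 - f p * V)| := by
      rw [← abs_of_pos hVpos, ← abs_mul, abs_of_pos hVpos]
      congr 1; ring
    rw [h3]
    refine (abs_add_three _ _ _).trans ?_
    rw [abs_sub_comm] at h1
    have h4 : 2 * (K * η) * V ≤ ε * V := by gcongr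
    nlinarith
  have h3 := le_of_mul_le_mul_right h2 hVpos
  rw [dist_eq_norm]
  exact h3

end Run7.h763
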