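import Mathlib

/-! # Minimizing sets in finite-dimensional sup-norm spaces: comparison lemmas -/

open MeasureTheory Measure Metric Set

namespace Run7.h763

variable {ι : Type*} [Fintype ι]

/-- The minimality inequality. -/
def IsMin (m : ℕ) (S : Set (ι → ℝ)) : Prop :=
  ∀ (c : ι → ℝ) (r : ℝ), 0 < r → ∀ f : (ι → ℝ) → (ι → ℝ), (∃ K, LipschitzWith K f) →
    (∀ x, x ∉ closedBall c r → f x = x) → MapsTo f (closedBall c r) (closedBall c r) →
    μH[(m : ℝ)] (closedBall c r ∩ S) ≤ μH[(m : ℝ)] (f '' (closedBall c r ∩ S))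

/-- Closed, locally finite, minimizing, and equal to the support. -/
structure Good (m : ℕ) (S : Set (ι → ℝ)) : Prop where
  closed : IsClosed S
  fin : ∀ (c : ι → ℝ) (r : ℝ), μH[(m : ℝ)] (closedBall c r ∩ S) < ⊤
  min : IsMin m S
  full : ∀ x ∈ S, ∀ r : ℝ, 0 < r → 0 < μH[(m : ℝ)] (closedBall x r ∩ S)

/-- The nearest point retraction on a cube. -/
noncomputable def retr (c : ι → ℝ) (r : ℝ) (x : ι → ℝ) : ι → ℝ :=
  fun i => max (min (x i) (c i + r)) (c i - r)

lemma lip_coord (i : ι) : LipschitzWith 1 (fun x : ι → ℝ => x i) := LipschitzWith.eval i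

lemma lip_pi {α : Type*} [PseudoMetricSpace α] {K : NNReal} {f : α → ι → ℝ}
    (h : ∀ i, LipschitzWith K (fun x => f x i)) : LipschitzWith K f := by
  rw [lipschitzWith_iff_dist_le_mul]
  intro x y
  rw [dist_pi_le_iff (by positivity)]
  intro i
  exact (h i).dist_le_mul x y

lemma lipOn_pi {α : Type*} [PseudoMetricSpace α] {K : NNReal} {f : α → ι → ℝ} {s : Set α}
    (h : ∀ i, LipschitzOnWith K (fun x => f x i) s) : LipschitzOnWith K f s := by
  rw [lipschitzOnWith_iff_dist_le_mul]
  intro x hx y hy
  rw [dist_pi_le_iff (by positivity)]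
  intro i
  exact (h i).dist_le_mul x hx y hy

lemma retr_lip (c : ι → ℝ) (r : ℝ) : LipschitzWith 1 (retr c r) := by
  apply lip_pi
  intro i
  have h := ((lip_coord i).min_const (c i + r)).max_const (c i - r)
  exact h

lemma retr_mem (c : ι → ℝ) {r : ℝ} (hr : 0 ≤ r) (x : ι → ℝ) : retr c r x ∈ closedBall c r := by
  rw [mem_closedBall, dist_pi_le_iff hr]
  intro i
  rw [Real.dist_eq, abs_le]
  unfold retr
  constructor
  · have := le_max_right (min (x i) (c i + r)) (c i - r)
    linarith
  · have : max (min (x i) (c i + r)) (c i - r) ≤ c i + r := by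
      apply max_le
      · exact min_le_right _ _
      · linarith
    linarith

lemma retr_of_mem (c : ι → ℝ) {r : ℝ} (hr : 0 ≤ r) {x : ι → ℝ} (hx : x ∈ closedBall c r) :
    retr c r x = x := by
  rw [mem_closedBall, dist_pi_le_iff hr] at hx
  funext i
  have h := hx i
  rw [Real.dist_eq, abs_le] at h
  unfold retr
  rw [min_eq_left (by linarith), max_eq_left (by linarith)]

lemma retr_of_notMem (c : ι → ℝ) {r : ℝ} (hr : 0 ≤ r) {x : ι → ℝ} (hx : x ∉ ball c r) :
    dist (retr c r x) c = r := by
  apply le_antisymm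
  · exact mem_closedBall.mp (retr_mem c hr x)
  · rw [mem_ball, not_lt] at hx
    by_contra hlt
    push Not at hlt
    have hr' : 0 < r := lt_of_le_of_lt dist_nonneg hlt
    have h2 : dist x c < r := by
      rw [dist_pi_lt_iff hr'] at hlt ⊢
      intro i
      have h := hlt i
      rw [Real.dist_eq, abs_lt] at h ⊢
      unfold retr at h
      constructor
      · rcases le_total (min (x i) (c i + r)) (c i - r) with h1 | h1
        · rw [max_eq_right h1] at h
          linarith
        · rw [max_eq_left h1] at h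
          have := min_le_left (x i) (c i + r)
          linarith
      · have h3 : min (x i) (c i + r) < c i + r := by
          have := le_max_left (min (x i) (c i + r)) (c i - r)
          linarith
        rcases min_lt_iff.mp h3 with h4 | h4
        · linarith
        · exact absurd h4 (lt_irrefl _)
    linarith

/-- The comparison lemma: Lipschitz maps of `S ∩ C` which are the identity near the boundary of
the cube `C` do not decrease the measure. -/
lemma comparison {m : ℕ} {S : Set (ι → ℝ)} (hS : IsMin m S) (c : ι → ℝ) {r r' : ℝ}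
    (hr : 0 < r) (hr' : r' < r) {K : NNReal} (f : (ι → ℝ) → (ι → ℝ))
    (hf : LipschitzOnWith K f (closedBall c r ∩ S))
    (hm : MapsTo f (closedBall c r ∩ S) (closedBall c r))
    (hid : ∀ x ∈ closedBall c r ∩ S, r' < dist x c → f x = x) :
    μH[(m : ℝ)] (closedBall c r ∩ S) ≤ μH[(m : ℝ)] (f '' (closedBall c r ∩ S)) := by
  classical
  -- the function on the union of `C ∩ S` and the sphere
  set A : Set (ι → ℝ) := (closedBall c r ∩ S) ∪ sphere c r with hA
  set g : (ι → ℝ) → (ι → ℝ) := fun x => if x ∈ closedBall c r ∩ S then f x else x with hg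
  have hgs : ∀ x ∈ sphere c r, g x = x := by
    intro x hx
    simp only [hg]
    split_ifs with h
    · exact hid x h (by rw [mem_sphere] at hx; linarith)
    · rfl
  have hgf : ∀ x ∈ closedBall c r ∩ S, g x = f x := by
    intro x hx
    simp only [hg]
    rw [if_pos hx]
  -- Lipschitz constant
  have hq : 0 ≤ 2 * r / (r - r') := by apply div_nonneg <;> linarith
  set L : NNReal := K + 1 + Real.toNNReal (2 * r / (r - r')) with hL
  have hLval : (L : ℝ) = K + 1 + 2 * r / (r - r') := by
    rw [hL, NNReal.coe_add, NNReal.coe_add, Real.coe_toNNReal _ hq, NNReal.coe_one]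
  have key : ∀ x ∈ closedBall c r ∩ S, ∀ y ∈ sphere c r, dist (f x) y ≤ L * dist x y := by
    intro x hx y hy
    by_cases hxr : r' < dist x c
    · rw [hid x hx hxr, hLval]
      have : 0 ≤ dist x y := dist_nonneg
      have hK : (0:ℝ) ≤ K := K.2
      nlinarith [mul_nonneg hK this, mul_nonneg hq this]
    · push Not at hxr
      have h1 : r - r' ≤ dist x y := by
        rw [mem_sphere] at hy
        have := dist_triangle y x c
        rw [dist_comm y x] at this
        linarith
      have h2 : dist (f x) y ≤ 2 * r := by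
        have h3 := hm hx
        rw [mem_closedBall] at h3
        rw [mem_sphere] at hy
        have := dist_triangle (f x) c y
        rw [dist_comm c y] at this
        linarith
      have h3 : 2 * r ≤ 2 * r / (r - r') * dist x y := by
        rw [div_mul_eq_mul_div, le_div_iff₀ (by linarith)]
        apply mul_le_mul_of_nonneg_left h1 (by linarith)
      rw [hLval]
      have : 0 ≤ dist x y := dist_nonneg
      have hK : (0:ℝ) ≤ K := K.2
      nlinarith [mul_nonneg hK this]
  have hgL : LipschitzOnWith L g A := by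
    rw [lipschitzOnWith_iff_dist_le_mul]
    have hKL : (K : ℝ) ≤ L := by
      rw [hLval]; linarith
    have h1L : (1 : ℝ) ≤ L := by
      rw [hLval]; have := K.2; linarith [show (0:ℝ) ≤ K from K.2]
    intro x hx y hy
    rcases hx with hx | hx <;> rcases hy with hy | hy
    · rw [hgf x hx, hgf y hy]
      refine (hf.dist_le_mul x hx y hy).trans ?_
      exact mul_le_mul_of_nonneg_right hKL dist_nonneg
    · rw [hgf x hx, hgs y hy]
      exact key x hx y hy
    · rw [hgs x hx, hgf y hy, dist_comm, dist_comm x y]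
      exact key y hy x hx
    · rw [hgs x hx, hgs y hy]
      nlinarith [dist_nonneg (x := x) (y := y)]
  obtain ⟨G, hG, hGg⟩ := hgL.extend_pi
  -- the deformation
  set F : (ι → ℝ) → (ι → ℝ) := fun x => x + (retr c r (G (retr c r x)) - retr c r x) with hF
  have hFlip : ∃ K, LipschitzWith K F := by
    refine ⟨1 + (1 * (L * 1) + 1), ?_⟩
    apply LipschitzWith.id.add
    apply LipschitzWith.sub
    · exact (retr_lip c r).comp (hG.comp (retr_lip c r))
    · exact retr_lip c r
  have hFin : ∀ x ∈ closedBall c r, F x = retr c r (G x) := by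
    intro x hx
    simp only [hF]
    rw [retr_of_mem c hr.le hx]
    abel
  have hFout : ∀ x, x ∉ closedBall c r → F x = x := by
    intro x hx
    simp only [hF]
    have h1 : dist (retr c r x) c = r := by
      apply retr_of_notMem c hr.le
      intro h
      exact hx (ball_subset_closedBall h)
    have h2 : retr c r x ∈ sphere c r := mem_sphere.mpr h1
    rw [← hGg (Or.inr h2), hgs _ h2, retr_of_mem c hr.le (sphere_subset_closedBall h2)]
    abel
  have hFmaps : MapsTo F (closedBall c r) (closedBall c r) := by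
    intro x hx
    rw [hFin x hx]
    exact retr_mem c hr.le _
  have hFS : F '' (closedBall c r ∩ S) = f '' (closedBall c r ∩ S) := by
    apply image_congr
    intro x hx
    rw [hFin x hx.1, ← hGg (Or.inl hx), hgf x hx]
    exact retr_of_mem c hr.le (hm hx)
  rw [← hFS]
  exact hS c r hr F hFlip hFout hFmaps

/-- Local form of the comparison lemma. -/
lemma comparison' {m : ℕ} {S : Set (ι → ℝ)} (hS : Good m S) (c : ι → ℝ) {r r' : ℝ}
    (hr : 0 < r) (hr' : r' < r) {K : NNReal} (f : (ι → ℝ) → (ι → ℝ))
    (hf : LipschitzOnWith K f (closedBall c r ∩ S))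
    (hm : MapsTo f (closedBall c r ∩ S) (closedBall c r))
    (hid : ∀ x ∈ closedBall c r ∩ S, r' < dist x c → f x = x)
    {A : Set (ι → ℝ)} (hA : MeasurableSet A) (hAS : A ⊆ closedBall c r ∩ S)
    (hAc : μH[(m : ℝ)] (f '' ((closedBall c r ∩ S) \ A)) ≤
      μH[(m : ℝ)] ((closedBall c r ∩ S) \ A)) :
    μH[(m : ℝ)] A ≤ μH[(m : ℝ)] (f '' A) := by
  have h1 := comparison hS.min c hr hr' f hf hm hid
  have h2 : f '' (closedBall c r ∩ S) = f '' A ∪ f '' ((closedBall c r ∩ S) \ A) := by
    rw [← image_union, union_sdiff_cancel hAS]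
  rw [h2] at h1
  have h3 : μH[(m : ℝ)] (closedBall c r ∩ S) =
      μH[(m : ℝ)] A + μH[(m : ℝ)] ((closedBall c r ∩ S) \ A) := by
    rw [measure_sdiff hAS hA.nullMeasurableSet
      (ne_top_of_le_ne_top (hS.fin c r).ne (measure_mono hAS))]
    rw [add_tsub_cancel_of_le (measure_mono hAS)]
  have h4 : μH[(m : ℝ)] ((closedBall c r ∩ S) \ A) ≠ ⊤ :=
    ne_top_of_le_ne_top (hS.fin c r).ne (measure_mono sdiff_subset)
  have h5 : μH[(m : ℝ)] A + μH[(m : ℝ)] ((closedBall c r ∩ S) \ A) ≤
      μH[(m : ℝ)] (f '' A) + μH[(m : ℝ)] ((closedBall c r ∩ S) \ A) := by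
    rw [← h3]
    refine h1.trans ((measure_union_le _ _).trans ?_)
    gcongr
  exact (ENNReal.add_le_add_iff_right h4).mp h5

/-- `1`-Lipschitz maps do not increase Hausdorff measure. -/
lemma hm_image_le {X Y : Type*} [MetricSpace X] [MetricSpace Y] [MeasurableSpace X] [BorelSpace X]
    [MeasurableSpace Y] [BorelSpace Y] {f : X → Y} {s : Set X} (hf : LipschitzOnWith 1 f s)
    (m : ℕ) : μH[(m : ℝ)] (f '' s) ≤ μH[(m : ℝ)] s := by
  have := hf.hausdorffMeasure_image_le (d := (m : ℝ)) (by positivity)
  simpa using this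

end Run7.h763
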