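import Pool.Agent.Run7.h763.FFmap

/-! # The lower density bound for minimizing sets -/

open MeasureTheory Measure Metric Set

set_option linter.unusedSectionVars false

namespace Run7.h763

variable {ι : Type*} [Fintype ι] [DecidableEq ι]

/-- the cube of translations -/
def Qc (ι : Type*) (δ : ℝ) : Set (ι → ℝ) := Set.pi univ (fun _ => Icc 0 δ)

lemma vol_Qc (δ : ℝ) : volume (Qc ι δ) = ENNReal.ofReal δ ^ Fintype.card ι := by
  unfold Qc
  rw [volume_pi_pi]
  simp

lemma isClosed_Qc (δ : ℝ) : IsClosed (Qc ι δ) := isClosed_set_pi (fun _ _ => isClosed_Icc)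

/-- the constant -/
noncomputable def CP (n m : ℕ) : ℝ := (n.choose m : ℝ) * 3 ^ m

lemma CP_pos {n m : ℕ} (h : m ≤ n) : 0 < CP n m := by
  unfold CP
  have : 0 < n.choose m := Nat.choose_pos h
  positivity

section est

variable {m : ℕ} {hm : m ≤ Fintype.card ι}

lemma rp_cont_left {δ : ℝ} (hδ : 0 < δ) (x : ι → ℝ) :
    Continuous (fun τ : ι → ℝ => rp m hm δ τ x) := by
  have : LipschitzWith (Real.toNNReal (2 / δ)) (fun τ : ι → ℝ => rp m hm δ τ x) := by
    rw [lipschitzWith_iff_dist_le_mul]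
    intro τ τ'
    rw [Real.dist_eq, Real.coe_toNNReal _ (by positivity)]
    have := rp_lip (m := m) (hm := hm) hδ τ τ' x x
    rwa [dist_self, zero_add] at this
  exact this.continuous

lemma isClosed_rp {δ : ℝ} (hδ : 0 < δ) (x : ι → ℝ) (t : ℝ) :
    IsClosed {τ : ι → ℝ | τ ∈ Qc ι δ ∧ rp m hm δ τ x ≤ t} := by
  have h1 : IsClosed {τ : ι → ℝ | rp m hm δ τ x ≤ t} :=
    isClosed_le (rp_cont_left hδ x) continuous_const
  have h2 : {τ : ι → ℝ | τ ∈ Qc ι δ ∧ rp m hm δ τ x ≤ t} =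
    Qc ι δ ∩ {τ : ι → ℝ | rp m hm δ τ x ≤ t} := rfl
  rw [h2]
  exact (isClosed_Qc δ).inter h1

lemma vol_rp {δ : ℝ} (hδ : 0 < δ) (x : ι → ℝ) {t : ℝ} (ht : 0 ≤ t) :
    volume {τ : ι → ℝ | τ ∈ Qc ι δ ∧ rp m hm δ τ x ≤ t} ≤
      ENNReal.ofReal (CP (Fintype.card ι) m) * ENNReal.ofReal t ^ m *
        ENNReal.ofReal δ ^ Fintype.card ι := by
  have hsub : {τ : ι → ℝ | τ ∈ Qc ι δ ∧ rp m hm δ τ x ≤ t} ⊆
      ⋃ I ∈ Finset.powersetCard m (Finset.univ : Finset ι),
        Set.pi univ (fun i => if i ∈ I then {τ : ℝ | τ ∈ Icc 0 δ ∧ dd ((x i - τ) / δ) ≤ t}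
          else Icc 0 δ) := by
    rintro τ ⟨hτ, hrp⟩
    obtain ⟨I, hI, h⟩ := exists_rho hm (vv δ τ x)
    unfold rp at hrp
    rw [h] at hrp
    simp only [mem_iUnion]
    refine ⟨I, ?_, ?_⟩
    · rw [Finset.mem_powersetCard]; exact ⟨Finset.subset_univ _, hI⟩
    · rw [mem_univ_pi]
      intro i
      have hτi := hτ i (mem_univ i)
      split_ifs with hi
      · refine ⟨hτi, ?_⟩
        have := norm_le_pi_norm (pr I (vv δ τ x)) ⟨i, hi⟩
        simp only [pr, vv, Real.norm_eq_abs, abs_of_nonneg (dd_nonneg _)] at this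
        exact this.trans hrp
      · exact hτi
  refine (measure_mono hsub).trans ((measure_biUnion_finset_le _ _).trans ?_)
  have h1 : ∀ I ∈ Finset.powersetCard m (Finset.univ : Finset ι),
      volume (Set.pi univ (fun i => if i ∈ I then
        {τ : ℝ | τ ∈ Icc 0 δ ∧ dd ((x i - τ) / δ) ≤ t} else Icc 0 δ)) ≤
      ENNReal.ofReal (3 * t) ^ m * ENNReal.ofReal δ ^ Fintype.card ι := by
    intro I hI
    rw [Finset.mem_powersetCard] at hI
    rw [volume_pi_pi]
    have h2 : ∀ i : ι, volume (if i ∈ I then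
        {τ : ℝ | τ ∈ Icc 0 δ ∧ dd ((x i - τ) / δ) ≤ t} else Icc 0 δ) ≤
        (if i ∈ I then ENNReal.ofReal (3 * t) else 1) * ENNReal.ofReal δ := by
      intro i
      split_ifs with hi
      · rw [← ENNReal.ofReal_mul (by positivity)]
        exact vol_dd hδ (x i) ht
      · rw [Real.volume_Icc, sub_zero, one_mul]
    refine (Finset.prod_le_prod' (fun i _ => h2 i)).trans (le_of_eq ?_)
    rw [Finset.prod_mul_distrib, Finset.prod_const, Finset.card_univ]
    congr 1
    rw [Finset.prod_ite_mem, Finset.univ_inter, Finset.prod_const, hI.2]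
  refine (Finset.sum_le_sum h1).trans (le_of_eq ?_)
  rw [Finset.sum_const, Finset.card_powersetCard, Finset.card_univ, nsmul_eq_mul]
  have h3 : (0:ℝ) ≤ ((Fintype.card ι).choose m : ℝ) := by positivity
  unfold CP
  rw [ENNReal.ofReal_mul h3, ENNReal.ofReal_natCast, ENNReal.ofReal_mul (by norm_num : (0:ℝ) ≤ 3),
    mul_pow, ← ENNReal.ofReal_pow (by norm_num : (0:ℝ) ≤ 3)]
  ring

/-- The set of translations for which the dual skeleton meets `K` is small. -/
lemma exists_bad {δ : ℝ} (hδ : 0 < δ) {K : Set (ι → ℝ)} {θ : ENNReal}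
    (hK : μH[(m : ℝ)] K < θ) :
    ∃ B : Set (ι → ℝ), MeasurableSet B ∧
      (∀ τ ∈ Qc ι δ, (∃ x ∈ K, rp m hm δ τ x = 0) → τ ∈ B) ∧
      volume B ≤ ENNReal.ofReal (CP (Fintype.card ι) m) * ENNReal.ofReal (2 / δ) ^ m *
        ENNReal.ofReal δ ^ Fintype.card ι * θ := by
  classical
  rw [hausdorffMeasure_apply] at hK
  have h1 := lt_of_le_of_lt (le_iSup₂ (f := fun (r : ENNReal) (_ : 0 < r) =>
    ⨅ t : ℕ → Set (ι → ℝ), ⨅ (_ : K ⊆ ⋃ n, t n), ⨅ (_ : ∀ n, ediam (t n) ≤ r),
      ∑' n, ⨆ (_ : (t n).Nonempty), ediam (t n) ^ (m : ℝ)) 1 one_pos) hK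
  simp only [iInf_lt_iff] at h1
  obtain ⟨t, ht, htd, hsum⟩ := h1
  have hpt : ∀ n, ∃ y : ι → ℝ, (t n).Nonempty → y ∈ t n := by
    intro n
    by_cases h : (t n).Nonempty
    · exact ⟨h.some, fun _ => h.some_mem⟩
    · exact ⟨0, fun h' => absurd h' h⟩
  choose y hy using hpt
  refine ⟨⋃ n, (if (t n).Nonempty then
    {τ : ι → ℝ | τ ∈ Qc ι δ ∧ rp m hm δ τ (y n) ≤ 2 / δ * (ediam (t n)).toReal} else ∅),
    ?_, ?_, ?_⟩
  · apply MeasurableSet.iUnion
    intro n
    split_ifs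
    · apply IsClosed.measurableSet
      exact isClosed_rp hδ _ _
    · exact MeasurableSet.empty
  · rintro τ hτ ⟨x, hxK, hx0⟩
    obtain ⟨n, hn⟩ := mem_iUnion.mp (ht hxK)
    rw [mem_iUnion]
    refine ⟨n, ?_⟩
    have hne : (t n).Nonempty := ⟨x, hn⟩
    rw [if_pos hne]
    refine ⟨hτ, ?_⟩
    have h2 := rp_lip (m := m) (hm := hm) hδ τ τ x (y n)
    rw [dist_self, add_zero, hx0, zero_sub, abs_neg, abs_of_nonneg (rp_nonneg _ _)] at h2
    refine h2.trans ?_
    have h3 : dist x (y n) ≤ (ediam (t n)).toReal := by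
      have hfin : ediam (t n) ≠ ⊤ := ne_top_of_le_ne_top ENNReal.one_ne_top (htd n)
      rw [dist_edist]
      exact ENNReal.toReal_mono hfin (edist_le_ediam_of_mem hn (hy n hne))
    gcongr
  · refine (measure_iUnion_le _).trans ?_
    have h4 : ∀ n, volume (if (t n).Nonempty then
        {τ : ι → ℝ | τ ∈ Qc ι δ ∧ rp m hm δ τ (y n) ≤ 2 / δ * (ediam (t n)).toReal} else ∅) ≤
        ENNReal.ofReal (CP (Fintype.card ι) m) * ENNReal.ofReal (2 / δ) ^ m *
        ENNReal.ofReal δ ^ Fintype.card ι * (⨆ (_ : (t n).Nonempty), ediam (t n) ^ (m : ℝ)) := by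
      intro n
      split_ifs with hne
      · refine (vol_rp hδ (y n) (by positivity)).trans (le_of_eq ?_)
        have hfin : ediam (t n) ≠ ⊤ := ne_top_of_le_ne_top ENNReal.one_ne_top (htd n)
        rw [ENNReal.ofReal_mul (by positivity), ENNReal.ofReal_toReal hfin, mul_pow]
        simp only [hne, iSup_pos, ENNReal.rpow_natCast]
        ring
      · simp
    refine (ENNReal.tsum_le_tsum h4).trans ?_
    rw [ENNReal.tsum_mul_left]
    gcongr

/-- the levels of the cut-off -/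
def lev (S : Set (ι → ℝ)) (x₀ : ι → ℝ) (a δ : ℝ) (k : ℕ) : Set (ι → ℝ) :=
  ((closedBall x₀ (a + δ) ∩ S) \ closedBall x₀ a) ∩
    {x | (1 / 2 : ℝ) ^ (k + 1) < lm x₀ a δ x ∧ lm x₀ a δ x ≤ (1 / 2) ^ k}

lemma lm_cont {x₀ : ι → ℝ} {a δ : ℝ} (hδ : 0 < δ) : Continuous (lm x₀ a δ) := by
  have : LipschitzWith (Real.toNNReal (1 / δ)) (lm x₀ a δ) := by
    rw [lipschitzWith_iff_dist_le_mul]
    intro x y
    rw [Real.dist_eq, Real.coe_toNNReal _ (by positivity)]
    refine (lm_lip hδ x y).trans (le_of_eq ?_)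
    ring
  exact this.continuous

lemma lev_meas {S : Set (ι → ℝ)} (hS : IsClosed S) {x₀ : ι → ℝ} {a δ : ℝ} (hδ : 0 < δ) (k : ℕ) :
    MeasurableSet (lev S x₀ a δ k) := by
  unfold lev
  apply MeasurableSet.inter
  · exact (isClosed_closedBall.inter hS).measurableSet.diff isClosed_closedBall.measurableSet
  · apply MeasurableSet.inter
    · exact measurableSet_lt measurable_const (lm_cont hδ).measurable
    · exact measurableSet_le (lm_cont hδ).measurable measurable_const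

lemma lev_disj {S : Set (ι → ℝ)} {x₀ : ι → ℝ} {a δ : ℝ} :
    Pairwise (Function.onFun Disjoint (lev S x₀ a δ)) := by
  have key : ∀ k l : ℕ, k < l → Disjoint (lev S x₀ a δ k) (lev S x₀ a δ l) := by
    intro k l hkl
    rw [Set.disjoint_left]
    rintro x ⟨_, h1, _⟩ ⟨_, _, h2⟩
    have : (1 / 2 : ℝ) ^ l ≤ (1 / 2) ^ (k + 1) :=
      pow_le_pow_of_le_one (by norm_num) (by norm_num) hkl
    linarith
  intro k l hkl
  rcases lt_or_gt_of_ne hkl with h | h
  · exact key k l h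
  · exact (key l k h).symm

lemma lev_union {S : Set (ι → ℝ)} {x₀ : ι → ℝ} {a δ : ℝ} (hδ : 0 < δ) :
    (closedBall x₀ (a + δ) ∩ S) \ closedBall x₀ a = ⋃ k, lev S x₀ a δ k := by
  ext x
  rw [mem_iUnion]
  constructor
  · intro hx
    have h1 : 0 < lm x₀ a δ x := by
      apply lm_pos hδ
      have := hx.2
      rw [mem_closedBall, not_le] at this
      exact this
    obtain ⟨k, hk1, hk2⟩ := exists_nat_pow_near_of_lt_one h1 (lm_le_one x)
      (by norm_num : (0:ℝ) < 1 / 2) (by norm_num)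
    exact ⟨k, hx, hk1, hk2⟩
  · rintro ⟨k, hk⟩
    exact hk.1

/-- The averaging argument. -/
lemma exists_tau {S : Set (ι → ℝ)} (hS : Good m S) (hm0 : 0 < m) (x₀ : ι → ℝ) {a δ : ℝ}
    (hδ : 0 < δ)
    (h : μH[(m : ℝ)] (closedBall x₀ (a + δ) ∩ S) ≤
      ENNReal.ofReal (δ ^ m / (CP (Fintype.card ι) m * 2 ^ (m + 2)))) :
    ∃ τ : ι → ℝ, (∀ x ∈ closedBall x₀ (a + δ) ∩ S, 0 < rp m hm δ τ x) ∧
      (∑' k : ℕ, ENNReal.ofReal (3 / (1 / 2) ^ (k + 1)) ^ m *
        μH[(m : ℝ)] (lev S x₀ a δ k ∩ {x | rp m hm δ τ x ≤ (1 / 2) ^ k})) ≤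
      ENNReal.ofReal (2 * 6 ^ m * CP (Fintype.card ι) m) *
        μH[(m : ℝ)] ((closedBall x₀ (a + δ) ∩ S) \ closedBall x₀ a) := by
  have hCP := CP_pos hm
  set n := Fintype.card ι with hn
  set K := closedBall x₀ (a + δ) ∩ S with hK
  set c : ℝ := δ ^ m / (CP n m * 2 ^ (m + 2)) with hc
  have hc0 : 0 < c := by positivity
  have hK2 : μH[(m : ℝ)] K < ENNReal.ofReal (2 * c) := by
    refine lt_of_le_of_lt h ?_
    rw [ENNReal.ofReal_lt_ofReal_iff (by positivity)]
    linarith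
  obtain ⟨B, hBm, hB, hBv⟩ := exists_bad (hm := hm) hδ hK2
  have hBv' : volume B ≤ ENNReal.ofReal (δ ^ n / 2) := by
    refine hBv.trans (le_of_eq ?_)
    rw [← ENNReal.ofReal_pow (by positivity), ← ENNReal.ofReal_pow (by positivity),
      ← ENNReal.ofReal_mul hCP.le, ← ENNReal.ofReal_mul (by positivity),
      ← ENNReal.ofReal_mul (by positivity)]
    congr 1
    rw [hc, div_pow]
    field_simp
    ring
  have hQ : volume (Qc ι δ) = ENNReal.ofReal (δ ^ n) := by
    rw [vol_Qc, ENNReal.ofReal_pow hδ.le]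
  set Q' := Qc ι δ \ B with hQ'
  have hQ'm : MeasurableSet Q' := (isClosed_Qc δ).measurableSet.diff hBm
  have hQ'v : ENNReal.ofReal (δ ^ n / 2) ≤ volume Q' := by
    have h1 : volume (Qc ι δ) ≤ volume Q' + volume B := by
      refine (measure_mono ?_).trans (measure_union_le _ _)
      intro τ hτ
      by_cases hτB : τ ∈ B
      · exact Or.inr hτB
      · exact Or.inl ⟨hτ, hτB⟩
    rw [hQ] at h1
    have h2 : ENNReal.ofReal (δ ^ n) = ENNReal.ofReal (δ ^ n / 2) + ENNReal.ofReal (δ ^ n / 2) := by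
      rw [← ENNReal.ofReal_add (by positivity) (by positivity)]
      congr 1; ring
    rw [h2] at h1
    have h3 : ENNReal.ofReal (δ ^ n / 2) + ENNReal.ofReal (δ ^ n / 2) ≤
        volume Q' + ENNReal.ofReal (δ ^ n / 2) := h1.trans (by gcongr)
    exact (ENNReal.add_le_add_iff_right ENNReal.ofReal_ne_top).mp h3
  have hQ'0 : volume Q' ≠ 0 := by
    intro h0
    rw [h0, nonpos_iff_eq_zero, ENNReal.ofReal_eq_zero] at hQ'v
    have : 0 < δ ^ n / 2 := by positivity
    linarith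
  have hQ't : volume Q' ≠ ⊤ := by
    apply ne_top_of_le_ne_top (b := volume (Qc ι δ))
    · rw [hQ]; exact ENNReal.ofReal_ne_top
    · exact measure_mono sdiff_subset
  -- the measure on the shell
  set A := K \ closedBall x₀ a with hA
  have hAm : MeasurableSet A :=
    (isClosed_closedBall.inter hS.closed).measurableSet.diff isClosed_closedBall.measurableSet
  set μ : Measure (ι → ℝ) := (μH[(m : ℝ)]).restrict A with hμ
  have hμfin : IsFiniteMeasure μ := by
    constructor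
    rw [hμ, Measure.restrict_apply MeasurableSet.univ, univ_inter]
    exact lt_of_le_of_lt (measure_mono sdiff_subset) (hS.fin x₀ (a + δ))
  have hlevA : ∀ k, lev S x₀ a δ k ⊆ A := fun k x hx => hx.1
  have hrpc : Continuous (fun w : (ι → ℝ) × (ι → ℝ) => rp m hm δ w.1 w.2) := rp_cont hδ
  set E : ℕ → Set ((ι → ℝ) × (ι → ℝ)) := fun k =>
    {w | w.2 ∈ lev S x₀ a δ k ∧ rp m hm δ w.1 w.2 ≤ (1 / 2) ^ k} with hE
  have hEm : ∀ k, MeasurableSet (E k) := by
    intro k
    apply MeasurableSet.inter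
    · exact measurable_snd (lev_meas hS.closed hδ k)
    · exact measurableSet_le hrpc.measurable measurable_const
  have hslice : ∀ k (τ : ι → ℝ), μH[(m : ℝ)] (lev S x₀ a δ k ∩
      {x | rp m hm δ τ x ≤ (1 / 2) ^ k}) = μ (Prod.mk τ ⁻¹' E k) := by
    intro k τ
    have : Prod.mk τ ⁻¹' E k = lev S x₀ a δ k ∩ {x | rp m hm δ τ x ≤ (1 / 2) ^ k} := rfl
    have h1 : MeasurableSet (Prod.mk τ ⁻¹' E k) := measurable_prodMk_left (hEm k)
    rw [hμ, Measure.restrict_apply h1, this,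
      inter_eq_self_of_subset_left (inter_subset_left.trans (hlevA k))]
  set f : ℕ → (ι → ℝ) → ENNReal := fun k τ => ENNReal.ofReal (3 / (1 / 2) ^ (k + 1)) ^ m *
    μ (Prod.mk τ ⁻¹' E k) with hf
  have hfm : ∀ k, Measurable (f k) := by
    intro k
    exact (measurable_measure_prodMk_left (hEm k)).const_mul _
  obtain ⟨τ, hτ, hτle⟩ := exists_le_setLAverage (f := fun τ => ∑' k, f k τ) hQ'0 hQ't
    (Measurable.tsum hfm).aemeasurable
  refine ⟨τ, ?_, ?_⟩
  · intro x hx
    refine lt_of_le_of_ne (rp_nonneg τ x) ?_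
    intro h0
    exact hτ.2 (hB τ hτ.1 ⟨x, hx, h0.symm⟩)
  · have h1 : (∑' k : ℕ, ENNReal.ofReal (3 / (1 / 2) ^ (k + 1)) ^ m *
        μH[(m : ℝ)] (lev S x₀ a δ k ∩ {x | rp m hm δ τ x ≤ (1 / 2) ^ k})) = ∑' k, f k τ := by
      congr 1
      funext k
      rw [hslice]
    rw [h1]
    refine hτle.trans ?_
    rw [setLAverage_eq]
    -- the integral
    have h2 : ∫⁻ τ in Q', ∑' k, f k τ ≤ ENNReal.ofReal (6 ^ m * CP n m * δ ^ n) *
        μH[(m : ℝ)] A := by
      have h3 : ∫⁻ τ in Q', ∑' k, f k τ ≤ ∫⁻ τ in Qc ι δ, ∑' k, f k τ :=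
        lintegral_mono_set sdiff_subset
      refine h3.trans ?_
      rw [lintegral_tsum (fun k => (hfm k).aemeasurable)]
      have h4 : ∀ k, ∫⁻ τ in Qc ι δ, f k τ ≤ ENNReal.ofReal (6 ^ m * CP n m * δ ^ n) *
          μH[(m : ℝ)] (lev S x₀ a δ k) := by
        intro k
        simp only [hf]
        rw [lintegral_const_mul _ (measurable_measure_prodMk_left (hEm k))]
        rw [← Measure.prod_apply (hEm k), Measure.prod_apply_symm (hEm k)]
        have h5 : ∀ x, (volume.restrict (Qc ι δ)) ((fun τ => (τ, x)) ⁻¹' E k) ≤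
            (lev S x₀ a δ k).indicator (fun _ => ENNReal.ofReal (CP n m) *
              ENNReal.ofReal ((1 / 2) ^ k) ^ m * ENNReal.ofReal δ ^ n) x := by
          intro x
          by_cases hx : x ∈ lev S x₀ a δ k
          · rw [indicator_of_mem hx]
            rw [Measure.restrict_apply (measurable_prodMk_right (hEm k))]
            refine (measure_mono ?_).trans (vol_rp (hm := hm) hδ x (by positivity))
            rintro τ ⟨h6, h7⟩
            exact ⟨h7, h6.2⟩
          · rw [indicator_of_notMem hx]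
            have : (fun τ => (τ, x)) ⁻¹' E k = ∅ := by
              ext τ
              simp only [mem_preimage, mem_empty_iff_false, iff_false]
              exact fun h => hx h.1
            rw [this, measure_empty]
        have h6 : ∫⁻ x, (volume.restrict (Qc ι δ)) ((fun τ => (τ, x)) ⁻¹' E k) ∂μ ≤
            ENNReal.ofReal (CP n m) *
              ENNReal.ofReal ((1 / 2) ^ k) ^ m * ENNReal.ofReal δ ^ n *
              μH[(m : ℝ)] (lev S x₀ a δ k) := by
          refine (lintegral_mono h5).trans ?_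
          rw [lintegral_indicator (lev_meas hS.closed hδ k), setLIntegral_const]
          gcongr
          exact Measure.restrict_le_self
        refine (mul_le_mul_right h6 _).trans (le_of_eq ?_)
        rw [← mul_assoc]
        congr 1
        rw [← ENNReal.ofReal_pow (by positivity), ← ENNReal.ofReal_pow (by positivity),
          ← ENNReal.ofReal_pow (by positivity), ← ENNReal.ofReal_mul hCP.le,
          ← ENNReal.ofReal_mul (by positivity), ← ENNReal.ofReal_mul (by positivity)]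
        congr 1
        have e1 : (3 / (1 / 2 : ℝ) ^ (k + 1)) = 6 / (1 / 2) ^ k := by
          rw [pow_succ]; field_simp; norm_num
        rw [e1, div_pow]
        field_simp
      refine (ENNReal.tsum_le_tsum h4).trans ?_
      rw [ENNReal.tsum_mul_left, ← measure_iUnion lev_disj (lev_meas hS.closed hδ),
        ← lev_union hδ]
    have h7 : ENNReal.ofReal (6 ^ m * CP n m * δ ^ n) =
        ENNReal.ofReal (2 * 6 ^ m * CP n m) * ENNReal.ofReal (δ ^ n / 2) := by
      rw [← ENNReal.ofReal_mul (by positivity)]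
      congr 1; ring
    apply ENNReal.div_le_of_le_mul
    calc ∫⁻ τ in Q', ∑' k, f k τ ≤ ENNReal.ofReal (6 ^ m * CP n m * δ ^ n) *
        μH[(m : ℝ)] A := h2
      _ = ENNReal.ofReal (2 * 6 ^ m * CP n m) * μH[(m : ℝ)] A * ENNReal.ofReal (δ ^ n / 2) := by
        rw [h7]; ring
      _ ≤ _ := mul_le_mul_right hQ'v _

end est

end Run7.h763
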