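import Pool.Agent.Run7.h763.Flat

/-! # No holes, and the covering property -/

open MeasureTheory Measure Metric Set

set_option linter.unusedSectionVars false

namespace Run7.h763

variable {ι : Type*} [Fintype ι] [DecidableEq ι]

/-- radial push from `p` in the cube of radius `t` -/
noncomputable def push {κ : Type*} [Fintype κ] (p : κ → ℝ) (t : ℝ) (q : κ → ℝ) : κ → ℝ :=
  q + (max 0 (t / ‖q - p‖ - 1)) • (q - p)

section push

variable {κ : Type*} [Fintype κ] {p : κ → ℝ} {t : ℝ}

lemma push_out {q : κ → ℝ} (ht : 0 < t) (hq : t ≤ dist q p) : push p t q = q := by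
  unfold push
  have h1 : 0 < ‖q - p‖ := by rw [← dist_eq_norm]; linarith
  have h2 : t / ‖q - p‖ ≤ 1 := by
    rw [div_le_one h1, ← dist_eq_norm]; exact hq
  rw [max_eq_left (by linarith), zero_smul, add_zero]

lemma push_in {q : κ → ℝ} (hq0 : q ≠ p) (hq : dist q p ≤ t) : dist (push p t q) p = t := by
  unfold push
  have h1 : 0 < ‖q - p‖ := by rw [norm_pos_iff]; exact sub_ne_zero.mpr hq0
  have h2 : 1 ≤ t / ‖q - p‖ := by
    rw [le_div_iff₀ h1, one_mul, ← dist_eq_norm]; exact hq
  rw [max_eq_right (by linarith), dist_eq_norm]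
  have h3 : q + (t / ‖q - p‖ - 1) • (q - p) - p = (t / ‖q - p‖) • (q - p) := by
    rw [sub_smul, one_smul]; abel
  rw [h3, norm_smul, Real.norm_eq_abs, abs_of_nonneg (by linarith)]
  field_simp

lemma push_lip {δ : ℝ} (ht : 0 < t) (hδ : 0 < δ) :
    LipschitzOnWith (1 + Real.toNNReal (2 * t / δ)) (push p t) {q | δ ≤ dist q p} := by
  rw [lipschitzOnWith_iff_dist_le_mul]
  intro q hq q' hq'
  simp only [mem_ofPred_eq, dist_eq_norm] at hq hq'
  have hq0 : 0 < ‖q - p‖ := lt_of_lt_of_le hδ hq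
  have hq0' : 0 < ‖q' - p‖ := lt_of_lt_of_le hδ hq'
  have h2 : 0 ≤ 2 * t / δ := by positivity
  rw [NNReal.coe_add, Real.coe_toNNReal _ h2, NNReal.coe_one]
  unfold push
  set α := max 0 (t / ‖q - p‖ - 1) with hα
  set β := max 0 (t / ‖q' - p‖ - 1) with hβ
  have hα0 : 0 ≤ α := le_max_left _ _
  have hα1 : α ≤ t / δ := by
    apply max_le (by positivity)
    have : t / ‖q - p‖ ≤ t / δ := by gcongr
    linarith
  have hαβ : |α - β| * ‖q' - p‖ ≤ t / δ * ‖q - q'‖ := by
    have h3 : |α - β| ≤ |t / ‖q - p‖ - t / ‖q' - p‖| := by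
      have := abs_max_sub_max_le_abs (t / ‖q - p‖ - 1) (t / ‖q' - p‖ - 1) 0
      rw [max_comm (t / ‖q - p‖ - 1) 0, max_comm (t / ‖q' - p‖ - 1) 0] at this
      refine this.trans (le_of_eq ?_)
      congr 1; ring
    have h4 : |t / ‖q - p‖ - t / ‖q' - p‖| * ‖q' - p‖ = t / ‖q - p‖ * |‖q' - p‖ - ‖q - p‖| := by
      have e : t / ‖q - p‖ - t / ‖q' - p‖ = t / ‖q - p‖ * (‖q' - p‖ - ‖q - p‖) / ‖q' - p‖ := by
        field_simp
      rw [e, abs_div, abs_mul, abs_of_nonneg (show 0 ≤ t / ‖q - p‖ by positivity),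
        abs_of_nonneg hq0'.le]
      field_simp
    have h5 : |‖q' - p‖ - ‖q - p‖| ≤ ‖q - q'‖ := by
      have := abs_norm_sub_norm_le (q' - p) (q - p)
      rw [show q' - p - (q - p) = -(q - q') by abel, norm_neg] at this
      exact this
    calc |α - β| * ‖q' - p‖ ≤ |t / ‖q - p‖ - t / ‖q' - p‖| * ‖q' - p‖ := by gcongr
      _ = t / ‖q - p‖ * |‖q' - p‖ - ‖q - p‖| := h4
      _ ≤ t / δ * ‖q - q'‖ := by gcongr
  have e : q + α • (q - p) - (q' + β • (q' - p)) =
      (q - q') + α • (q - q') + (α - β) • (q' - p) := by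
    rw [smul_sub, smul_sub, smul_sub, sub_smul, smul_sub, smul_sub]
    abel
  rw [dist_eq_norm, dist_eq_norm, e]
  calc ‖(q - q') + α • (q - q') + (α - β) • (q' - p)‖
      ≤ ‖q - q'‖ + ‖α • (q - q')‖ + ‖(α - β) • (q' - p)‖ := norm_add₃_le
    _ = ‖q - q'‖ + α * ‖q - q'‖ + |α - β| * ‖q' - p‖ := by
        rw [norm_smul, norm_smul, Real.norm_eq_abs, Real.norm_eq_abs, abs_of_nonneg hα0]
    _ ≤ ‖q - q'‖ + t / δ * ‖q - q'‖ + t / δ * ‖q - q'‖ := by gcongr
    _ = (1 + 2 * t / δ) * ‖q - q'‖ := by ring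

end push

namespace Flat

variable {m : ℕ} {S : Set (ι → ℝ)} {I : Finset ι} {x₀ : ι → ℝ} {r s r' : ℝ} {lam kap : NNReal}
  {a : (I → ℝ) → ι → ℝ}

lemma hh_lip (H : Flat m S I x₀ r s r' lam kap a) {Φ : (I → ℝ) → (I → ℝ)} {K : NNReal}
    {B : Set (I → ℝ)} (hΦ : LipschitzOnWith K Φ B) :
    LipschitzOnWith (K + 2) (hh I a x₀ s kap Φ) {x | pr I x ∈ B} := by
  have hl1 : lam ≤ 1 := by rw [← H.lk]; exact le_self_add
  rw [lipschitzOnWith_iff_dist_le_mul]
  intro x hx y hy
  have hprd : dist (pr I x) (pr I y) ≤ dist x y := by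
    have := (pr_lip I).dist_le_mul x y
    simpa using this
  have hd := dist_nonneg (x := x) (y := y)
  have hK : (0:ℝ) ≤ K := K.2
  have h1 : dist (Φ (pr I x)) (Φ (pr I y)) ≤ K * dist x y :=
    (hΦ.dist_le_mul _ hx _ hy).trans (mul_le_mul_of_nonneg_left hprd hK)
  have hK2 : ((K + 2 : NNReal) : ℝ) = K + 2 := by push_cast; ring
  rw [hK2, dist_pi_le_iff (by positivity)]
  intro j
  by_cases hj : j ∈ I
  · simp only [hh, dif_pos hj]
    refine (dist_le_pi_dist _ _ _).trans (h1.trans ?_)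
    nlinarith
  · simp only [hh, dif_neg hj]
    have h2 := H.fl_lip.dist_le_mul x y
    have h3 := (dist_le_pi_dist (fl I a x₀ s kap x) (fl I a x₀ s kap y) j).trans h2
    have h4 := (H.lip j).dist_le_mul (pr I x) (pr I y)
    have h5 := (H.lip j).dist_le_mul (Φ (pr I x)) (Φ (pr I y))
    have hl1' : (lam : ℝ) ≤ 1 := by exact_mod_cast hl1
    have h4' : dist (a (pr I x) j) (a (pr I y) j) ≤ dist x y := by
      refine h4.trans ?_
      calc (lam : ℝ) * dist (pr I x) (pr I y) ≤ 1 * dist x y := by gcongr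
        _ = _ := one_mul _
    have h5' : dist (a (Φ (pr I x)) j) (a (Φ (pr I y)) j) ≤ K * dist x y := by
      refine h5.trans ?_
      calc (lam : ℝ) * dist (Φ (pr I x)) (Φ (pr I y)) ≤ 1 * (K * dist x y) := by gcongr
        _ = _ := one_mul _
    rw [NNReal.coe_one, one_mul] at h3
    rw [Real.dist_eq] at h3 h4' h5' ⊢
    have e : fl I a x₀ s kap x j - a (pr I x) j + a (Φ (pr I x)) j -
        (fl I a x₀ s kap y j - a (pr I y) j + a (Φ (pr I y)) j) =
        (fl I a x₀ s kap x j - fl I a x₀ s kap y j) + -(a (pr I x) j - a (pr I y) j) +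
        (a (Φ (pr I x)) j - a (Φ (pr I y)) j) := by ring
    rw [e]
    refine (abs_add_three _ _ _).trans ?_
    rw [abs_neg]
    nlinarith

lemma hh_flat {Φ : (I → ℝ) → (I → ℝ)} {x : ι → ℝ} (hx : dist (pr I x) (pr I x₀) ≤ s) :
    hh I a x₀ s kap Φ x = gam I a (Φ (pr I x)) := by
  funext j
  by_cases h : j ∈ I
  · simp only [hh, gam, dif_pos h]
  · have := congrFun (fl_flat (a := a) (kap := kap) hx) j
    simp only [hh, gam, dif_neg h] at this ⊢
    rw [this]; ring

lemma hh_fix {Φ : (I → ℝ) → (I → ℝ)} {x : ι → ℝ} (hx : Φ (pr I x) = pr I x) :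
    hh I a x₀ s kap Φ x = fl I a x₀ s kap x := by
  funext j
  by_cases h : j ∈ I
  · simp only [hh, dif_pos h, hx, fl, if_pos h, pr]
  · simp only [hh, dif_neg h, hx]; ring

lemma exists_pos {X : Type*} [TopologicalSpace X] {K : Set X} (hK : IsCompact K) {f : X → ℝ}
    (hf : ContinuousOn f K) (hpos : ∀ x ∈ K, 0 < f x) : ∃ δ > 0, ∀ x ∈ K, δ ≤ f x := by
  rcases K.eq_empty_or_nonempty with h | h
  · exact ⟨1, one_pos, by simp [h]⟩
  · obtain ⟨x, hx, hmin⟩ := hK.exists_isMinOn h hf
    exact ⟨f x, hpos x hx, fun y hy => hmin hy⟩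

/-- The push estimate. -/
lemma push_est (H : Flat m S I x₀ r s r' lam kap a) {g : (ι → ℝ) → (ι → ℝ)} {K : NNReal}
    (hg : LipschitzWith K g) (hgid : ∀ x ∈ (closedBall x₀ r ∩ S) \ EE S I x₀ r s, g x = x)
    (hgE : ∀ x ∈ EE S I x₀ r s, dist (pr I (g x)) (pr I x₀) ≤ s)
    {p : I → ℝ} {t : ℝ} (ht : 0 < t) (hpt : closedBall p t ⊆ closedBall (pr I x₀) s)
    (hp : ∀ x ∈ closedBall x₀ r ∩ S, pr I (g x) ≠ p)
    {A : Set (ι → ℝ)} (hA : MeasurableSet A) (hAE : A ⊆ EE S I x₀ r s)
    (hgA : ∀ x ∈ EE S I x₀ r s \ A, g x = x ∧ t ≤ dist (pr I x) p) :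
    μH[(m : ℝ)] A ≤ volume ((push p t) '' (pr I '' (g '' A))) := by
  obtain ⟨δ, hδ, hδ'⟩ := exists_pos H.isCompact_CS
    (f := fun x => dist (pr I (g x)) p)
    (((pr_lip I).continuous.comp hg.continuous).dist continuous_const).continuousOn
    (fun x hx => dist_pos.mpr (hp x hx))
  have hpl := push_lip (p := p) ht hδ
  set F : (ι → ℝ) → (ι → ℝ) := fun x => hh I a x₀ s kap (push p t) (g x) with hF
  have hFl : LipschitzOnWith (((1 + Real.toNNReal (2 * t / δ)) + 2) * K) F
      (closedBall x₀ r ∩ S) := by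
    apply (H.hh_lip hpl).comp (hg.lipschitzOnWith)
    intro x hx
    exact hδ' x hx
  have hpush_out : ∀ q : I → ℝ, s < dist q (pr I x₀) → push p t q = q := by
    intro q hq
    apply push_out ht
    by_contra hcon
    push Not at hcon
    have := hpt (mem_closedBall.mpr hcon.le)
    rw [mem_closedBall] at this
    linarith
  have hpush_in : ∀ q : I → ℝ, q ≠ p → dist q (pr I x₀) ≤ s →
      dist (push p t q) (pr I x₀) ≤ s := by
    intro q hq hqs
    rcases le_total t (dist q p) with h | h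
    · rw [push_out ht h]; exact hqs
    · have h1 := push_in hq h
      exact mem_closedBall.mp (hpt (mem_closedBall.mpr h1.le))
  -- values outside `EE`
  have hFout : ∀ x ∈ (closedBall x₀ r ∩ S) \ EE S I x₀ r s, F x = fl I a x₀ s kap x := by
    intro x hx
    have h1 : s < dist (pr I x) (pr I x₀) := by
      by_contra hcon
      push Not at hcon
      exact hx.2 ⟨hx.1, hcon⟩
    simp only [hF]
    rw [hgid x hx]
    exact hh_fix (hpush_out _ h1)
  have hFE : ∀ x ∈ EE S I x₀ r s, F x = gam I a (push p t (pr I (g x))) := by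
    intro x hx
    simp only [hF]
    exact hh_flat (hgE x hx)
  have hFA : ∀ x ∈ (closedBall x₀ r ∩ S) \ A, F x = fl I a x₀ s kap x := by
    intro x hx
    by_cases hxE : x ∈ EE S I x₀ r s
    · obtain ⟨h1, h2⟩ := hgA x ⟨hxE, hx.2⟩
      simp only [hF]
      rw [h1]
      exact hh_fix (push_out ht h2)
    · exact hFout x ⟨hx.1, hxE⟩
  have hmaps : MapsTo F (closedBall x₀ r ∩ S) (closedBall x₀ r) := by
    intro x hx
    by_cases hxE : x ∈ EE S I x₀ r s
    · rw [hFE x hxE]
      apply H.gam_mem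
      exact (hpush_in _ (hp x hx) (hgE x hxE)).trans H.sr.le
    · rw [hFout x ⟨hx, hxE⟩]
      exact H.fl_mem hx.1
  have hid : ∀ x ∈ closedBall x₀ r ∩ S, r' < dist x x₀ → F x = x := by
    intro x hx hxd
    have hxE : x ∉ EE S I x₀ r s := by
      intro h
      have h1 := (H.out x hx hxd).1
      have h2 := h.2
      simp only [mem_ofPred_eq] at h2
      linarith
    rw [hFout x ⟨hx, hxE⟩]
    exact H.fl_id hx hxd
  have hAc : μH[(m : ℝ)] (F '' ((closedBall x₀ r ∩ S) \ A)) ≤
      μH[(m : ℝ)] ((closedBall x₀ r ∩ S) \ A) := by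
    have : F '' ((closedBall x₀ r ∩ S) \ A) = fl I a x₀ s kap '' ((closedBall x₀ r ∩ S) \ A) :=
      image_congr hFA
    rw [this]
    exact hm_image_le H.fl_lip.lipschitzOnWith m
  have hmain := comparison' (m := m) (S := S) H.good x₀ H.r0 H.rr F hFl hmaps hid hA
    (hAE.trans inter_subset_left) hAc
  have hFA' : F '' A = gam I a '' ((push p t) '' (pr I '' (g '' A))) := by
    rw [← image_comp, ← image_comp, ← image_comp]
    apply image_congr
    intro x hx
    exact hFE x (hAE hx)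
  rw [hFA'] at hmain
  refine hmain.trans ?_
  rw [← H.hm_vol]
  exact hm_image_le H.gam_lip.lipschitzOnWith m

lemma volume_ball' {κ : Type*} [Fintype κ] (p : κ → ℝ) {t : ℝ} (ht : 0 < t) :
    volume (ball p t) = ENNReal.ofReal (2 * t) ^ Fintype.card κ := by
  rw [Real.volume_pi_ball p ht, ENNReal.ofReal_pow (by positivity)]

/-- A hole spreads: if no point of `S` projects to `p` then a.e. point of `S` stays away from the
cylinder over each cube centred at `p`. -/
lemma hole_null (H : Flat m S I x₀ r s r' lam kap a) {p : I → ℝ} {t : ℝ} (ht : 0 < t)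
    (hpt : closedBall p t ⊆ closedBall (pr I x₀) s)
    (hp : ∀ x ∈ closedBall x₀ r ∩ S, pr I x ≠ p) (hI : 0 < m) :
    μH[(m : ℝ)] (EE S I x₀ r s ∩ {x | pr I x ∈ ball p t}) = 0 := by
  have hmeas : MeasurableSet (EE S I x₀ r s ∩ {x | pr I x ∈ ball p t}) := by
    apply H.isClosed_EE.measurableSet.inter
    exact (isOpen_ball.preimage (pr_lip I).continuous).measurableSet
  have h := H.push_est (g := id) (K := 1) LipschitzWith.id (fun x _ => rfl) (fun x hx => hx.2) ht
    hpt hp hmeas inter_subset_left (by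
      intro x hx
      refine ⟨rfl, ?_⟩
      by_contra hcon
      push Not at hcon
      exact hx.2 ⟨hx.1, mem_ball.mpr hcon⟩)
  have hsub : (push p t) '' (pr I '' (id '' (EE S I x₀ r s ∩ {x | pr I x ∈ ball p t}))) ⊆
      sphere p t := by
    rintro _ ⟨_, ⟨_, ⟨x, hx, rfl⟩, rfl⟩, rfl⟩
    rw [mem_sphere]
    exact push_in (hp x hx.1.1) (mem_ball.mp hx.2).le
  have hnull : volume (sphere p t) = 0 := by
    have : Nonempty I := by
      have : 0 < I.card := by rw [H.card]; exact hI
      exact (Finset.card_pos.mp this).to_subtype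
    have : Nontrivial (I → ℝ) := Function.nontrivial
    exact Measure.addHaar_sphere volume p t
  exact le_antisymm ((h.trans (measure_mono hsub)).trans hnull.le) (zero_le)

/-- small cubes around points of `EE` over the open cube lie in the big cube -/
lemma nbhd (H : Flat m S I x₀ r s r' lam kap a) {x : ι → ℝ} (hx : x ∈ EE S I x₀ r s) :
    dist x x₀ < r := by
  have h2 := hx.2
  simp only [mem_ofPred_eq] at h2
  by_contra hcon
  push Not at hcon
  have h3 := (H.out x hx.1 (lt_of_lt_of_le H.rr hcon)).1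
  linarith

/-- No holes. -/
lemma no_hole (H : Flat m S I x₀ r s r' lam kap a) (hm : 0 < m) :
    ball (pr I x₀) s ⊆ pr I '' EE S I x₀ r s := by
  set K := pr I '' EE S I x₀ r s with hK
  have hKc : IsCompact K := H.isCompact_EE.image (pr_lip I).continuous
  -- the set `K ∩ ball` is open
  have hopen : ∀ k ∈ K ∩ ball (pr I x₀) s, ∃ ρ > 0, ball k ρ ⊆ K ∩ ball (pr I x₀) s := by
    rintro k ⟨hk, hkb⟩
    obtain ⟨ρ, hρ, hρs⟩ := Metric.isOpen_ball.mem_nhds hkb |> Metric.mem_nhds_iff.mp
    refine ⟨ρ / 4, by positivity, ?_⟩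
    intro q hq
    have hqb : q ∈ ball (pr I x₀) s := hρs (by
      rw [mem_ball] at hq ⊢; linarith)
    refine ⟨?_, hqb⟩
    by_contra hqK
    have h1 : closedBall q (ρ / 2) ⊆ closedBall (pr I x₀) s := by
      intro z hz
      apply ball_subset_closedBall
      apply hρs
      rw [mem_ball] at hq ⊢
      rw [mem_closedBall] at hz
      have := dist_triangle z q k
      linarith
    have hp : ∀ x ∈ closedBall x₀ r ∩ S, pr I x ≠ q := by
      intro x hx hxq
      apply hqK
      refine ⟨x, ⟨hx, ?_⟩, hxq⟩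
      simp only [mem_ofPred_eq]
      rw [hxq]
      exact (mem_ball.mp hqb).le
    have h2 := H.hole_null (t := ρ / 2) (by positivity) h1 hp hm
    obtain ⟨x, hx, hxk⟩ := hk
    -- a small cube around `x`
    have h3 := H.nbhd hx
    set η := min ((r - dist x x₀)) (ρ / 4) with hη
    have hη0 : 0 < η := by
      apply lt_min
      · linarith
      · positivity
    have h4 : closedBall x (η / 2) ∩ S ⊆ EE S I x₀ r s ∩ {x | pr I x ∈ ball q (ρ / 2)} := by
      intro y hy
      have hyx := mem_closedBall.mp hy.1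
      have h5 : dist y x₀ ≤ r := by
        have := dist_triangle y x x₀
        have := min_le_left (r - dist x x₀) (ρ / 4)
        linarith
      have h6 : dist (pr I y) k ≤ ρ / 4 := by
        have := (pr_lip I).dist_le_mul y x
        rw [NNReal.coe_one, one_mul, hxk] at this
        have := min_le_right (r - dist x x₀) (ρ / 4)
        linarith
      refine ⟨⟨⟨mem_closedBall.mpr h5, hy.2⟩, ?_⟩, ?_⟩
      · simp only [mem_ofPred_eq]
        have : pr I y ∈ ball (pr I x₀) s := hρs (by rw [mem_ball]; linarith)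
        exact (mem_ball.mp this).le
      · simp only [mem_ofPred_eq, mem_ball]
        rw [mem_ball, dist_comm] at hq
        have := dist_triangle (pr I y) k q
        linarith
    have h5 := H.good.full x hx.1.2 (η / 2) (by positivity)
    have h6 := measure_mono (μ := μH[(m : ℝ)]) h4
    rw [h2] at h6
    exact absurd h5 (not_lt.mpr h6)
  have hU : IsOpen (K ∩ ball (pr I x₀) s) := by
    rw [Metric.isOpen_iff]
    exact hopen
  have hpre : IsPreconnected (ball (pr I x₀) s) := (convex_ball _ _).isPreconnected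
  have hsub : ball (pr I x₀) s ⊆ K ∩ ball (pr I x₀) s := by
    apply hpre.subset_left_of_subset_union hU hKc.isClosed.isOpen_compl
    · rw [Set.disjoint_left]
      intro z hz hz'
      exact hz' hz.1
    · intro z hz
      by_cases hzK : z ∈ K
      · exact Or.inl ⟨hzK, hz⟩
      · exact Or.inr hzK
    · refine ⟨pr I x₀, mem_ball_self H.s0, ?_, mem_ball_self H.s0⟩
      refine ⟨x₀, ⟨⟨mem_closedBall_self H.r0.le, H.mem⟩, ?_⟩, rfl⟩
      simp only [mem_ofPred_eq, dist_self]
      exact H.s0.le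
  exact fun z hz => (hsub hz).1

/-- The covering property. -/
lemma covering (H : Flat m S I x₀ r s r' lam kap a) (hm : 0 < m) {g : (ι → ℝ) → (ι → ℝ)}
    {K : NNReal} (hg : LipschitzWith K g)
    (hgid : ∀ x ∈ (closedBall x₀ r ∩ S) \ EE S I x₀ r s, g x = x)
    (hgE : ∀ x ∈ EE S I x₀ r s, dist (pr I (g x)) (pr I x₀) ≤ s)
    {p : I → ℝ} (hp : p ∈ ball (pr I x₀) s) :
    ∃ x ∈ closedBall x₀ r ∩ S, pr I (g x) = p := by
  by_contra hcon
  push Not at hcon
  obtain ⟨ρ, hρ, hρs⟩ := Metric.isOpen_ball.mem_nhds hp |> Metric.mem_nhds_iff.mp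
  have hpt : closedBall p (ρ / 2) ⊆ closedBall (pr I x₀) s := by
    intro z hz
    apply ball_subset_closedBall
    apply hρs
    rw [mem_ball]
    rw [mem_closedBall] at hz
    linarith
  have h1 := H.push_est hg hgid hgE (t := ρ / 2) (by positivity) hpt hcon
    H.isClosed_EE.measurableSet (Subset.refl _) (by
      intro x hx
      exact absurd hx.1 hx.2)
  have h2 : (push p (ρ / 2)) '' (pr I '' (g '' EE S I x₀ r s)) ⊆
      closedBall (pr I x₀) s \ ball p (ρ / 2) := by
    rintro _ ⟨_, ⟨_, ⟨x, hx, rfl⟩, rfl⟩, rfl⟩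
    rcases le_total (ρ / 2) (dist (pr I (g x)) p) with h | h
    · rw [push_out (by positivity) h]
      refine ⟨mem_closedBall.mpr (hgE x hx), ?_⟩
      rw [mem_ball, not_lt]
      exact h
    · have h3 := push_in (hcon x hx.1) h
      refine ⟨hpt (mem_closedBall.mpr h3.le), ?_⟩
      rw [mem_ball, not_lt]
      exact h3.ge
  have h3 : volume (ball (pr I x₀) s) ≤ μH[(m : ℝ)] (EE S I x₀ r s) :=
    (measure_mono (H.no_hole hm)).trans (H.le_measure _)
  have h4 : volume (closedBall (pr I x₀) s \ ball p (ρ / 2)) < volume (ball (pr I x₀) s) := by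
    have : Nonempty I := by
      have : 0 < I.card := by rw [H.card]; exact hm
      exact (Finset.card_pos.mp this).to_subtype
    have : Nontrivial (I → ℝ) := Function.nontrivial
    rw [measure_sdiff (ball_subset_closedBall.trans hpt) isOpen_ball.measurableSet.nullMeasurableSet
      measure_ball_lt_top.ne, Measure.addHaar_closedBall_eq_addHaar_ball]
    apply ENNReal.sub_lt_self measure_ball_lt_top.ne
    · exact (measure_ball_pos _ _ H.s0).ne'
    · exact (measure_ball_pos _ _ (by positivity)).ne'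
  exact absurd (h3.trans (h1.trans (measure_mono h2))) (not_le.mpr h4)

end Flat

end Run7.h763
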