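import Pool.Agent.Run7.h763.FFest
import Pool.Agent.Run7.h763.Flat2

/-! # The lower density bound for minimizing sets: conclusion -/

open MeasureTheory Measure Metric Set

set_option linter.unusedSectionVars false

namespace Run7.h763

variable {ι : Type*} [Fintype ι] [DecidableEq ι] {m : ℕ}

lemma one_step (hm : m ≤ Fintype.card ι) {S : Set (ι → ℝ)} (hS : Good m S) (hm0 : 0 < m)
    (x₀ : ι → ℝ) {a δ : ℝ} (ha : 0 ≤ a) (hδ : 0 < δ)
    (h : μH[(m : ℝ)] (closedBall x₀ (a + δ) ∩ S) ≤
      ENNReal.ofReal (δ ^ m / (CP (Fintype.card ι) m * 2 ^ (m + 2)))) :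
    μH[(m : ℝ)] (closedBall x₀ (a + δ) ∩ S) ≤
      ENNReal.ofReal (2 * 6 ^ m * CP (Fintype.card ι) m) *
        μH[(m : ℝ)] ((closedBall x₀ (a + δ) ∩ S) \ closedBall x₀ a) := by
  obtain ⟨τ, hτ, hsum⟩ := exists_tau (hm := hm) hS hm0 x₀ hδ h
  refine le_trans ?_ hsum
  set K := closedBall x₀ (a + δ) ∩ S with hK
  have hKc : IsCompact K := (isCompact_closedBall _ _).inter_right hS.closed
  set F := FF m hm x₀ a δ τ with hF
  obtain ⟨κ, hκ, hκK⟩ := Flat.exists_pos hKc (f := rr m hm x₀ a δ τ) (rr_cont hδ).continuousOn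
    (fun x hx => lt_of_lt_of_le (hτ x hx) (le_max_left _ _))
  have hrrC : ∀ x ∈ closedBall x₀ (a + 3 * δ) ∩ S, min κ 1 ≤ rr m hm x₀ a δ τ x := by
    intro x hx
    by_cases hxK : x ∈ K
    · exact (min_le_left _ _).trans (hκK x hxK)
    · have h1 : a + δ ≤ dist x x₀ := by
        by_contra hc
        push Not at hc
        exact hxK ⟨mem_closedBall.mpr hc.le, hx.2⟩
      have h2 : lm x₀ a δ x = 1 := lm_one hδ h1
      exact (min_le_right _ _).trans (by rw [← h2]; exact le_max_right _ _)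
  have hFl := FF_lip (m := m) (hm := hm) (x₀ := x₀) (a := a) (τ := τ) hδ
    (lt_min hκ one_pos) hrrC
  have hFid : ∀ x, a + δ < dist x x₀ → F x = x := fun x hx => FF_id hδ hx.le
  have hcomp := comparison' (m := m) hS x₀ (r := a + 3 * δ) (r' := a + δ) (by positivity)
    (by linarith) F hFl (by
      intro x hx
      by_cases hxd : a + δ < dist x x₀
      · rw [hFid x hxd]; exact hx.1
      · push Not at hxd
        rw [mem_closedBall]
        have h1 := FF_near (m := m) (hm := hm) (x₀ := x₀) (a := a) (τ := τ) hδ x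
        have h2 := dist_triangle (F x) x x₀
        linarith) (fun x _ hxd => hFid x hxd) (A := K) hKc.measurableSet (by
      rintro x ⟨hx, hxS⟩
      refine ⟨?_, hxS⟩
      rw [mem_closedBall] at hx ⊢
      linarith) (by
      have : F '' ((closedBall x₀ (a + 3 * δ) ∩ S) \ K) =
          ((closedBall x₀ (a + 3 * δ) ∩ S) \ K) := by
        have h1 : F '' ((closedBall x₀ (a + 3 * δ) ∩ S) \ K) =
            id '' ((closedBall x₀ (a + 3 * δ) ∩ S) \ K) := by
          apply image_congr
          intro x hx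
          apply hFid
          by_contra hc
          push Not at hc
          exact hx.2 ⟨mem_closedBall.mpr hc, hx.1.2⟩
        rw [h1, image_id]
      rw [this])
  refine hcomp.trans ?_
  have hsub : F '' K ⊆ Sk m δ τ ∪ ⋃ k : ℕ, F '' (lev S x₀ a δ k ∩
      {x | rp m hm δ τ x ≤ (1 / 2) ^ k}) := by
    rintro _ ⟨x, hx, rfl⟩
    by_cases hxa : dist x x₀ ≤ a
    · left
      apply FF_skel (hτ x hx)
      rw [lm_zero hδ hxa]
      exact rp_nonneg _ _
    · have hxA : x ∈ (closedBall x₀ (a + δ) ∩ S) \ closedBall x₀ a :=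
        ⟨hx, by rw [mem_closedBall]; exact hxa⟩
      rw [lev_union hδ, mem_iUnion] at hxA
      obtain ⟨k, hk⟩ := hxA
      by_cases hrp : rp m hm δ τ x ≤ (1 / 2) ^ k
      · right
        rw [mem_iUnion]
        exact ⟨k, x, ⟨hk, hrp⟩, rfl⟩
      · left
        push Not at hrp
        apply FF_skel (hτ x hx)
        exact hk.2.2.trans hrp.le
  refine (measure_mono hsub).trans ((measure_union_le _ _).trans ?_)
  rw [Sk_null, zero_add]
  refine (measure_iUnion_le _).trans (ENNReal.tsum_le_tsum fun k => ?_)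
  have hκk : (0:ℝ) < (1 / 2) ^ (k + 1) := by positivity
  have hl := FF_lip (m := m) (hm := hm) (x₀ := x₀) (a := a) (τ := τ) hδ hκk
    (B := lev S x₀ a δ k ∩ {x | rp m hm δ τ x ≤ (1 / 2) ^ k}) (by
      intro x hx
      exact hx.1.2.1.le.trans (le_max_right _ _))
  have := hl.hausdorffMeasure_image_le (d := (m : ℝ)) (by positivity)
  rw [ENNReal.rpow_natCast] at this
  exact this

/-- **Lower density bound.** -/
theorem lower_density (hm0 : 0 < m) (hm : m ≤ Fintype.card ι) :
    ∃ c : ℝ, 0 < c ∧ ∀ S : Set (ι → ℝ), Good m S → ∀ x ∈ S, ∀ r : ℝ, 0 < r →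
      ENNReal.ofReal (c * r ^ m) ≤ μH[(m : ℝ)] (closedBall x r ∩ S) := by
  have hCP := CP_pos hm
  set n := Fintype.card ι with hn
  set C₃ : ℝ := 2 * 6 ^ m * CP n m with hC₃
  have hCP1 : 1 ≤ CP n m := by
    unfold CP
    have h1 : (1:ℝ) ≤ (n.choose m : ℝ) := by
      exact_mod_cast Nat.choose_pos hm
    have h2 : (1:ℝ) ≤ 3 ^ m := one_le_pow₀ (by norm_num)
    nlinarith
  have hC₃1 : 1 < C₃ := by
    rw [hC₃]
    have h2 : (1:ℝ) ≤ 6 ^ m := one_le_pow₀ (by norm_num)
    nlinarith
  set θ : ℝ := 1 - 1 / C₃ with hθ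
  have hC₃i : 1 / C₃ < 1 := by rw [div_lt_one (by linarith)]; exact hC₃1
  have hC₃i0 : 0 < 1 / C₃ := by positivity
  have hθ0 : 0 < θ := by rw [hθ]; linarith
  have hθ1 : θ < 1 := by rw [hθ]; linarith
  have hmR : (1:ℝ) ≤ m := by exact_mod_cast hm0
  set q : ℝ := 1 - (1 - θ) / m with hq
  have hq1 : q < 1 := by
    rw [hq]
    have : 0 < (1 - θ) / m := by apply div_pos <;> linarith
    linarith
  have hq0 : 0 < q := by
    rw [hq]
    have : (1 - θ) / m ≤ (1 - θ) := by
      apply div_le_self <;> linarith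
    linarith
  have hqm : θ ≤ q ^ m := by
    have h1 := one_add_mul_le_pow (a := -((1 - θ) / m)) (by
      have : (1 - θ) / m ≤ (1 - θ) := by
        apply div_le_self <;> linarith
      linarith) m
    have h2 : 1 + (m : ℝ) * (-((1 - θ) / m)) = θ := by field_simp; ring
    rw [h2] at h1
    rw [hq]
    exact h1
  set c₀ : ℝ := 1 / (CP n m * 2 ^ (m + 2)) with hc₀
  have hc₀0 : 0 < c₀ := by positivity
  refine ⟨c₀ * ((1 - q) / 2) ^ m, by
    have : 0 < (1 - q) / 2 := by linarith
    positivity, ?_⟩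
  intro S hS x hx r hr
  by_contra hcon
  push Not at hcon
  -- real valued masses
  set M : ℝ → ℝ := fun a => (μH[(m : ℝ)] (closedBall x a ∩ S)).toReal with hM
  have hMfin : ∀ a, μH[(m : ℝ)] (closedBall x a ∩ S) ≠ ⊤ := fun a => (hS.fin x a).ne
  have hM0 : ∀ a, 0 ≤ M a := fun a => ENNReal.toReal_nonneg
  have hMr : M r ≤ c₀ * ((1 - q) / 2) ^ m * r ^ m := by
    have hpos : 0 ≤ c₀ * ((1 - q) / 2) ^ m * r ^ m := by
      have : 0 < (1 - q) / 2 := by linarith
      positivity
    simp only [hM]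
    rw [← ENNReal.toReal_ofReal hpos]
    exact ENNReal.toReal_mono ENNReal.ofReal_ne_top hcon.le
  -- one step in real form
  have hstep : ∀ a δ : ℝ, 0 ≤ a → 0 < δ → M (a + δ) ≤ c₀ * δ ^ m → M a ≤ θ * M (a + δ) := by
    intro a δ ha hδ hle
    have h1 : μH[(m : ℝ)] (closedBall x (a + δ) ∩ S) ≤
        ENNReal.ofReal (δ ^ m / (CP n m * 2 ^ (m + 2))) := by
      rw [← ENNReal.ofReal_toReal (hMfin (a + δ))]
      apply ENNReal.ofReal_le_ofReal
      refine hle.trans (le_of_eq ?_)
      rw [hc₀]; ring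
    have h2 := one_step hm hS hm0 x ha hδ h1
    have h3 : (closedBall x (a + δ) ∩ S) ∩ closedBall x a = closedBall x a ∩ S := by
      ext y
      simp only [mem_inter_iff, mem_closedBall]
      constructor
      · rintro ⟨⟨_, h⟩, h'⟩; exact ⟨h', h⟩
      · rintro ⟨h', h⟩; exact ⟨⟨by linarith, h⟩, h'⟩
    have h4 := measure_inter_add_sdiff (μ := μH[(m : ℝ)]) (closedBall x (a + δ) ∩ S)
      (isClosed_closedBall (x := x) (ε := a)).measurableSet
    rw [h3] at h4
    set D := μH[(m : ℝ)] ((closedBall x (a + δ) ∩ S) \ closedBall x a) with hD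
    have hDt : D ≠ ⊤ := ne_top_of_le_ne_top (hMfin (a + δ)) (measure_mono sdiff_subset)
    have h5 : M (a + δ) = M a + D.toReal := by
      simp only [hM]
      rw [← h4, ENNReal.toReal_add (hMfin a) hDt]
    have h6 : M (a + δ) ≤ C₃ * D.toReal := by
      simp only [hM]
      have h7 : C₃ * D.toReal = (ENNReal.ofReal C₃ * D).toReal := by
        rw [ENNReal.toReal_mul, ENNReal.toReal_ofReal (by linarith)]
      rw [h7]
      apply ENNReal.toReal_mono _ h2
      exact ENNReal.mul_ne_top ENNReal.ofReal_ne_top hDt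
    have h8 : 1 / C₃ * M (a + δ) ≤ D.toReal := by
      rw [div_mul_eq_mul_div, one_mul, div_le_iff₀ (by linarith)]
      linarith
    have h9 : θ * M (a + δ) = M (a + δ) - 1 / C₃ * M (a + δ) := by rw [hθ]; ring
    rw [h9]
    linarith
  -- iteration
  have hiter : ∀ k : ℕ, M (r / 2 + r / 2 * q ^ k) ≤ θ ^ k * M r := by
    intro k
    induction k with
    | zero =>
      rw [pow_zero, pow_zero, mul_one, one_mul]
      have : r / 2 + r / 2 = r := by ring
      rw [this]
    | succ k ih =>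
      have hqk : 0 < q ^ k := by positivity
      have hδk : 0 < (1 - q) / 2 * r * q ^ k := by
        have : 0 < (1 - q) / 2 := by linarith
        positivity
      have e : r / 2 + r / 2 * q ^ (k + 1) + (1 - q) / 2 * r * q ^ k = r / 2 + r / 2 * q ^ k := by
        rw [pow_succ]; ring
      have h1 := hstep (r / 2 + r / 2 * q ^ (k + 1)) ((1 - q) / 2 * r * q ^ k) (by positivity)
        hδk (by
          rw [e]
          refine ih.trans ?_
          have h2 : θ ^ k ≤ (q ^ m) ^ k := by gcongr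
          calc θ ^ k * M r ≤ (q ^ m) ^ k * (c₀ * ((1 - q) / 2) ^ m * r ^ m) := by
                apply mul_le_mul h2 hMr (hM0 r)
                positivity
            _ = c₀ * ((1 - q) / 2 * r * q ^ k) ^ m := by
                rw [mul_pow, mul_pow, ← pow_mul, ← pow_mul, mul_comm m k]; ring)
      rw [e] at h1
      calc M (r / 2 + r / 2 * q ^ (k + 1)) ≤ θ * M (r / 2 + r / 2 * q ^ k) := h1
        _ ≤ θ * (θ ^ k * M r) := by gcongr
        _ = θ ^ (k + 1) * M r := by rw [pow_succ]; ring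
  have hhalf : ∀ k : ℕ, M (r / 2) ≤ θ ^ k * M r := by
    intro k
    refine le_trans ?_ (hiter k)
    simp only [hM]
    apply ENNReal.toReal_mono (hMfin _)
    apply measure_mono
    apply inter_subset_inter_left
    apply closedBall_subset_closedBall
    have : 0 ≤ r / 2 * q ^ k := by positivity
    linarith
  have hlim : Filter.Tendsto (fun k : ℕ => θ ^ k * M r) Filter.atTop (nhds (0 * M r)) :=
    (tendsto_pow_atTop_nhds_zero_of_lt_one hθ0.le hθ1).mul_const _
  rw [zero_mul] at hlim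
  have hzero : M (r / 2) ≤ 0 := ge_of_tendsto' hlim hhalf
  have hfull := hS.full x hx (r / 2) (by positivity)
  have : 0 < M (r / 2) := ENNReal.toReal_pos hfull.ne' (hMfin _)
  linarith

end Run7.h763
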