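import Pool.Agent.Run7.h763.FFone

/-! # The cubical projection with cut-off -/

open MeasureTheory Measure Metric Set

set_option linter.unusedSectionVars false

namespace Run7.h763

variable {ι : Type*} [Fintype ι] [DecidableEq ι]

/-- the minimum over `m`-element sets of coordinates of the maximum of the absolute values -/
noncomputable def rho (m : ℕ) (hm : m ≤ Fintype.card ι) (v : ι → ℝ) : ℝ :=
  (Finset.powersetCard m (Finset.univ : Finset ι)).inf'
    (Finset.powersetCard_nonempty.mpr (by simpa using hm)) (fun I => ‖pr I v‖)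

section rho

variable {m : ℕ} (hm : m ≤ Fintype.card ι)

lemma rho_le {v : ι → ℝ} {I : Finset ι} (hI : I.card = m) : rho m hm v ≤ ‖pr I v‖ := by
  unfold rho
  apply Finset.inf'_le (fun I => ‖pr I v‖)
  rw [Finset.mem_powersetCard]
  exact ⟨Finset.subset_univ _, hI⟩

lemma exists_rho (v : ι → ℝ) : ∃ I : Finset ι, I.card = m ∧ rho m hm v = ‖pr I v‖ := by
  obtain ⟨I, hI, h⟩ := Finset.exists_mem_eq_inf'
    (Finset.powersetCard_nonempty.mpr (by simpa using hm : m ≤ (Finset.univ : Finset ι).card))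
    (fun I => ‖pr I v‖)
  rw [Finset.mem_powersetCard] at hI
  exact ⟨I, hI.2, h⟩

lemma rho_nonneg (v : ι → ℝ) : 0 ≤ rho m hm v := by
  obtain ⟨I, _, h⟩ := exists_rho hm v
  rw [h]; exact norm_nonneg _

lemma rho_lip (v w : ι → ℝ) : |rho m hm v - rho m hm w| ≤ dist v w := by
  have key : ∀ v w : ι → ℝ, rho m hm v ≤ rho m hm w + dist v w := by
    intro v w
    obtain ⟨I, hI, h⟩ := exists_rho hm w
    have h1 := rho_le hm (v := v) hI
    have h2 : ‖pr I v‖ ≤ ‖pr I w‖ + dist v w := by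
      have h3 := (pr_lip I).dist_le_mul v w
      rw [NNReal.coe_one, one_mul, dist_eq_norm] at h3
      have h4 : ‖pr I v‖ ≤ ‖pr I w‖ + ‖pr I v - pr I w‖ := by
        have := norm_add_le (pr I w) (pr I v - pr I w)
        rwa [add_sub_cancel] at this
      linarith
    rw [h]; linarith
  rw [abs_le]
  have h1 := key v w
  have h2 := key w v
  rw [dist_comm w v] at h2
  constructor <;> linarith

end rho

/-- the vector of distances to the centres -/
noncomputable def vv (δ : ℝ) (τ x : ι → ℝ) : ι → ℝ := fun i => dd ((x i - τ i) / δ)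

lemma vv_lip {δ : ℝ} (hδ : 0 < δ) (τ τ' x x' : ι → ℝ) :
    dist (vv δ τ x) (vv δ τ' x') ≤ 2 / δ * (dist x x' + dist τ τ') := by
  rw [dist_pi_le_iff (by positivity)]
  intro i
  rw [Real.dist_eq]
  unfold vv
  refine (dd_lip _ _).trans ?_
  rw [← sub_div, abs_div, abs_of_pos hδ]
  have h1 : |x i - τ i - (x' i - τ' i)| ≤ dist x x' + dist τ τ' := by
    have e : x i - τ i - (x' i - τ' i) = (x i - x' i) + -(τ i - τ' i) := by ring
    rw [e]
    refine (abs_add_le _ _).trans ?_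
    rw [abs_neg]
    exact add_le_add (coord_le _ _ _) (coord_le _ _ _)
  calc 2 * (|x i - τ i - (x' i - τ' i)| / δ) ≤ 2 * ((dist x x' + dist τ τ') / δ) := by gcongr
    _ = _ := by ring

/-- the gauge -/
noncomputable def rp (m : ℕ) (hm : m ≤ Fintype.card ι) (δ : ℝ) (τ x : ι → ℝ) : ℝ :=
  rho m hm (vv δ τ x)

/-- cut-off -/
noncomputable def lm (x₀ : ι → ℝ) (a δ : ℝ) (x : ι → ℝ) : ℝ :=
  max 0 (min 1 ((dist x x₀ - a) / δ))

/-- the combined gauge -/
noncomputable def rr (m : ℕ) (hm : m ≤ Fintype.card ι) (x₀ : ι → ℝ) (a δ : ℝ) (τ x : ι → ℝ) : ℝ :=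
  max (rp m hm δ τ x) (lm x₀ a δ x)

/-- the cubical projection -/
noncomputable def FF (m : ℕ) (hm : m ≤ Fintype.card ι) (x₀ : ι → ℝ) (a δ : ℝ) (τ x : ι → ℝ) :
    ι → ℝ :=
  fun i => τ i + δ * sg ((x i - τ i) / δ) (rr m hm x₀ a δ τ x)

section FF

variable {m : ℕ} {hm : m ≤ Fintype.card ι} {x₀ : ι → ℝ} {a δ : ℝ} {τ : ι → ℝ}

lemma lm_nonneg (x : ι → ℝ) : 0 ≤ lm x₀ a δ x := le_max_left _ _

lemma lm_le_one (x : ι → ℝ) : lm x₀ a δ x ≤ 1 := max_le zero_le_one (min_le_left _ _)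

lemma lm_lip (hδ : 0 < δ) (x y : ι → ℝ) : |lm x₀ a δ x - lm x₀ a δ y| ≤ dist x y / δ := by
  unfold lm
  refine (abs_max_sub_max_le_max _ _ _ _).trans ?_
  rw [sub_self, abs_zero]
  apply max_le (by positivity)
  refine (abs_min_sub_min_le_max _ _ _ _).trans ?_
  rw [sub_self, abs_zero]
  apply max_le (by positivity)
  rw [← sub_div, abs_div, abs_of_pos hδ]
  have : |dist x x₀ - a - (dist y x₀ - a)| ≤ dist x y := by
    rw [show dist x x₀ - a - (dist y x₀ - a) = dist x x₀ - dist y x₀ by ring]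
    exact abs_dist_sub_le _ _ _
  gcongr

lemma lm_zero (hδ : 0 < δ) {x : ι → ℝ} (hx : dist x x₀ ≤ a) : lm x₀ a δ x = 0 := by
  unfold lm
  apply max_eq_left
  apply (min_le_right _ _).trans
  apply div_nonpos_of_nonpos_of_nonneg <;> linarith

lemma lm_one (hδ : 0 < δ) {x : ι → ℝ} (hx : a + δ ≤ dist x x₀) : lm x₀ a δ x = 1 := by
  unfold lm
  have : 1 ≤ (dist x x₀ - a) / δ := by
    rw [le_div_iff₀ hδ]; linarith
  rw [min_eq_left this]
  exact max_eq_right zero_le_one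

lemma lm_pos (hδ : 0 < δ) {x : ι → ℝ} (hx : a < dist x x₀) : 0 < lm x₀ a δ x := by
  unfold lm
  apply lt_max_of_lt_right
  apply lt_min one_pos
  apply div_pos <;> linarith

lemma rp_nonneg (τ x : ι → ℝ) : 0 ≤ rp m hm δ τ x := rho_nonneg hm _

lemma rp_le_one (τ x : ι → ℝ) : rp m hm δ τ x ≤ 1 := by
  obtain ⟨I, hI, h⟩ := exists_rho hm (vv δ τ x)
  unfold rp
  rw [h]
  rw [pi_norm_le_iff_of_nonneg zero_le_one]
  intro i
  rw [Real.norm_eq_abs]
  simp only [pr, vv]
  rw [abs_of_nonneg (dd_nonneg _)]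
  exact dd_le_one _

lemma rp_lip (hδ : 0 < δ) (τ τ' x x' : ι → ℝ) :
    |rp m hm δ τ x - rp m hm δ τ' x'| ≤ 2 / δ * (dist x x' + dist τ τ') :=
  (rho_lip hm _ _).trans (vv_lip hδ _ _ _ _)

lemma rr_le_one (x : ι → ℝ) : rr m hm x₀ a δ τ x ≤ 1 := max_le (rp_le_one _ _) (lm_le_one _)

lemma rr_nonneg (x : ι → ℝ) : 0 ≤ rr m hm x₀ a δ τ x := (rp_nonneg _ _).trans (le_max_left _ _)

lemma rr_lip (hδ : 0 < δ) (x y : ι → ℝ) :
    |rr m hm x₀ a δ τ x - rr m hm x₀ a δ τ y| ≤ 2 / δ * dist x y := by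
  unfold rr
  refine (abs_max_sub_max_le_max _ _ _ _).trans ?_
  apply max_le
  · have := rp_lip (m := m) (hm := hm) hδ τ τ x y
    rwa [dist_self, add_zero] at this
  · refine (lm_lip hδ x y).trans ?_
    have : 0 ≤ dist x y / δ := by positivity
    calc dist x y / δ ≤ 2 * (dist x y / δ) := by linarith
      _ = _ := by ring

lemma rr_cont (hδ : 0 < δ) : Continuous (rr m hm x₀ a δ τ) := by
  have : LipschitzWith (Real.toNNReal (2 / δ)) (rr m hm x₀ a δ τ) := by
    rw [lipschitzWith_iff_dist_le_mul]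
    intro x y
    rw [Real.dist_eq, Real.coe_toNNReal _ (by positivity)]
    exact rr_lip hδ x y
  exact this.continuous

lemma rp_cont (hδ : 0 < δ) : Continuous (fun w : (ι → ℝ) × (ι → ℝ) => rp m hm δ w.1 w.2) := by
  have : LipschitzWith (Real.toNNReal (4 / δ))
      (fun w : (ι → ℝ) × (ι → ℝ) => rp m hm δ w.1 w.2) := by
    rw [lipschitzWith_iff_dist_le_mul]
    intro w w'
    rw [Real.dist_eq, Real.coe_toNNReal _ (by positivity)]
    refine (rp_lip hδ _ _ _ _).trans ?_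
    have h1 : dist w.2 w'.2 ≤ dist w w' := by rw [Prod.dist_eq]; exact le_max_right _ _
    have h2 : dist w.1 w'.1 ≤ dist w w' := by rw [Prod.dist_eq]; exact le_max_left _ _
    calc 2 / δ * (dist w.2 w'.2 + dist w.1 w'.1) ≤ 2 / δ * (dist w w' + dist w w') := by gcongr
      _ = _ := by ring
  exact this.continuous

lemma FF_lip (hδ : 0 < δ) {κ : ℝ} (hκ : 0 < κ) {B : Set (ι → ℝ)}
    (hB : ∀ x ∈ B, κ ≤ rr m hm x₀ a δ τ x) :
    LipschitzOnWith (Real.toNNReal (3 / κ)) (FF m hm x₀ a δ τ) B := by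
  rw [lipschitzOnWith_iff_dist_le_mul]
  intro x hx y hy
  rw [Real.coe_toNNReal _ (by positivity), dist_pi_le_iff (by positivity)]
  intro i
  rw [Real.dist_eq]
  unfold FF
  have h1 := sg_lip hκ (hB x hx) (hB y hy) (rr_le_one x) ((x i - τ i) / δ) ((y i - τ i) / δ)
  have h2 := rr_lip (m := m) (hm := hm) (x₀ := x₀) (a := a) (τ := τ) hδ x y
  have h3 : |(x i - τ i) / δ - (y i - τ i) / δ| ≤ dist x y / δ := by
    rw [← sub_div, abs_div, abs_of_pos hδ,
      show x i - τ i - (y i - τ i) = x i - y i by ring]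
    have := coord_le x y i
    gcongr
  rw [show τ i + δ * sg ((x i - τ i) / δ) (rr m hm x₀ a δ τ x) -
    (τ i + δ * sg ((y i - τ i) / δ) (rr m hm x₀ a δ τ y)) =
    δ * (sg ((x i - τ i) / δ) (rr m hm x₀ a δ τ x) - sg ((y i - τ i) / δ) (rr m hm x₀ a δ τ y))
    by ring, abs_mul, abs_of_pos hδ]
  calc δ * |sg ((x i - τ i) / δ) (rr m hm x₀ a δ τ x) - sg ((y i - τ i) / δ) (rr m hm x₀ a δ τ y)|
      ≤ δ * ((dist x y / δ + 2 / δ * dist x y) / κ) := by
        gcongr
        refine h1.trans ?_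
        gcongr
    _ = 3 / κ * dist x y := by field_simp; ring

lemma FF_id (hδ : 0 < δ) {x : ι → ℝ} (hx : a + δ ≤ dist x x₀) : FF m hm x₀ a δ τ x = x := by
  have h1 : rr m hm x₀ a δ τ x = 1 := by
    apply le_antisymm (rr_le_one x)
    unfold rr
    rw [lm_one hδ hx]
    exact le_max_right _ _
  funext i
  unfold FF
  rw [h1, sg_one]
  field_simp
  ring

lemma FF_near (hδ : 0 < δ) (x : ι → ℝ) : dist (FF m hm x₀ a δ τ x) x ≤ δ := by
  rw [dist_pi_le_iff hδ.le]
  intro i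
  rw [Real.dist_eq]
  unfold FF
  have h1 := sg_near ((x i - τ i) / δ) (rr m hm x₀ a δ τ x)
  have e : τ i + δ * sg ((x i - τ i) / δ) (rr m hm x₀ a δ τ x) - x i =
      δ * (sg ((x i - τ i) / δ) (rr m hm x₀ a δ τ x) - (x i - τ i) / δ) := by
    field_simp; ring
  rw [e, abs_mul, abs_of_pos hδ]
  nlinarith

/-- the skeleton -/
def Sk (m : ℕ) (δ : ℝ) (τ : ι → ℝ) : Set (ι → ℝ) :=
  {y | ∃ J : Finset ι, J.card < m ∧ ∀ i, i ∉ J → ∃ z : ℤ, y i = τ i + δ * (z + 1 / 2)}

lemma FF_skel {x : ι → ℝ} (h0 : 0 < rp m hm δ τ x)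
    (h : lm x₀ a δ x ≤ rp m hm δ τ x) : FF m hm x₀ a δ τ x ∈ Sk m δ τ := by
  have hrr : rr m hm x₀ a δ τ x = rp m hm δ τ x := max_eq_left h
  set J : Finset ι := Finset.univ.filter (fun i => vv δ τ x i < rp m hm δ τ x) with hJ
  refine ⟨J, ?_, ?_⟩
  · by_contra hcon
    push Not at hcon
    obtain ⟨I, hIJ, hI⟩ := Finset.exists_subset_card_eq hcon
    have h1 := rho_le hm (v := vv δ τ x) hI
    have h2 : ‖pr I (vv δ τ x)‖ < rp m hm δ τ x := by
      rw [pi_norm_lt_iff h0]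
      intro i
      rw [Real.norm_eq_abs]
      simp only [pr]
      have h3 : vv δ τ x i < rp m hm δ τ x := by
        have := hIJ i.2
        rw [hJ, Finset.mem_filter] at this
        exact this.2
      rw [abs_of_nonneg (by unfold vv; exact dd_nonneg _)]
      exact h3
    exact absurd h1 (not_le.mpr h2)
  · intro i hi
    have h3 : rp m hm δ τ x ≤ vv δ τ x i := by
      by_contra hc
      push Not at hc
      apply hi
      rw [hJ, Finset.mem_filter]
      exact ⟨Finset.mem_univ _, hc⟩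
    unfold FF
    rw [hrr]
    unfold sg
    have h4 : rp m hm δ τ x ≤ 2 * |(x i - τ i) / δ - round ((x i - τ i) / δ)| := h3
    rcases cl_large h0 h4 with h5 | h5
    · exact ⟨round ((x i - τ i) / δ), by rw [h5]⟩
    · refine ⟨round ((x i - τ i) / δ) - 1, ?_⟩
      rw [h5]
      push_cast
      ring

lemma Sk_null (m : ℕ) (δ : ℝ) (τ : ι → ℝ) : μH[(m : ℝ)] (Sk m δ τ) = 0 := by
  have hsub : Sk m δ τ ⊆ ⋃ (J : Finset ι) (_ : J.card < m) (z : ι → ℤ),
      range (gam J (fun _ i => τ i + δ * (z i + 1 / 2))) := by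
    rintro y ⟨J, hJ, hy⟩
    choose! z hz using hy
    simp only [mem_iUnion]
    refine ⟨J, hJ, z, pr J y, ?_⟩
    funext i
    by_cases hi : i ∈ J
    · simp only [gam, dif_pos hi, pr]
    · simp only [gam, dif_neg hi]
      exact (hz i hi).symm
  refine measure_mono_null hsub ?_
  rw [measure_iUnion_null_iff]
  intro J
  rw [measure_iUnion_null_iff]
  intro hJ
  rw [measure_iUnion_null_iff]
  intro z
  have hl : LipschitzWith 1 (gam J (fun _ i => τ i + δ * (z i + 1 / 2))) := by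
    apply lip_pi
    intro j
    by_cases h : j ∈ J
    · simp only [gam, dif_pos h]
      exact LipschitzWith.eval (⟨j, h⟩ : J)
    · simp only [gam, dif_neg h]
      exact LipschitzWith.const' _
  have h1 := hl.dimH_range_le
  rw [Real.dimH_univ_pi, Fintype.card_coe] at h1
  have h2 : dimH (range (gam J (fun _ i => τ i + δ * ((z i : ℝ) + 1 / 2)))) < ((m : NNReal) : ENNReal) := by
    refine lt_of_le_of_lt h1 ?_
    exact_mod_cast hJ
  have := hausdorffMeasure_of_dimH_lt h2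
  simpa using this

end FF

end Run7.h763
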