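import Pool.Agent.Run7.h763.Flat

/-! # Cubical projection: the one-variable functions -/

open MeasureTheory Measure Metric Set

set_option linter.unusedSectionVars false

namespace Run7.h763

/-- clamped multiple -/
noncomputable def cl (ρ h : ℝ) : ℝ := max (-(1/2)) (min (1/2) (h / ρ))

lemma cl_eq {ρ h : ℝ} (hρ : 0 < ρ) : cl ρ h = h / max ρ (2 * |h|) := by
  unfold cl
  rcases le_total (2 * |h|) ρ with h1 | h1
  · rw [max_eq_left h1]
    have h2 : |h / ρ| ≤ 1 / 2 := by
      rw [abs_div, abs_of_pos hρ, div_le_iff₀ hρ]; linarith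
    rw [abs_le] at h2
    rw [min_eq_right h2.2, max_eq_right h2.1]
  · rw [max_eq_right h1]
    rcases le_total 0 h with h0 | h0
    · rw [abs_of_nonneg h0] at h1 ⊢
      have hpos : 0 < h := by linarith
      have h2 : 1 / 2 ≤ h / ρ := by
        rw [le_div_iff₀ hρ]; linarith
      rw [min_eq_left h2, max_eq_right (by norm_num)]
      field_simp
    · rw [abs_of_nonpos h0] at h1 ⊢
      have hneg : h < 0 := by linarith
      have h2 : h / ρ ≤ -(1 / 2) := by
        rw [div_le_iff₀ hρ]; linarith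
      rw [min_eq_right (by linarith), max_eq_left h2]
      have hne : h ≠ 0 := hneg.ne
      rw [mul_neg, div_neg, mul_comm, ← div_div, div_self hne]

lemma cl_abs (ρ h : ℝ) : |cl ρ h| ≤ 1 / 2 := by
  unfold cl
  rw [abs_le]
  constructor
  · exact le_max_left _ _
  · exact max_le (by norm_num) (min_le_left _ _)

lemma cl_lip_h {ρ : ℝ} (hρ : 0 < ρ) (h h' : ℝ) : |cl ρ h - cl ρ h'| ≤ |h - h'| / ρ := by
  unfold cl
  refine (abs_max_sub_max_le_max _ _ _ _).trans ?_
  rw [sub_self, abs_zero]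
  apply max_le (by positivity)
  refine (abs_min_sub_min_le_max _ _ _ _).trans ?_
  rw [sub_self, abs_zero]
  apply max_le (by positivity)
  rw [← sub_div, abs_div, abs_of_pos hρ]

lemma cl_mono {ρ : ℝ} (hρ : 0 < ρ) {h h' : ℝ} (hh : h ≤ h') : cl ρ h ≤ cl ρ h' := by
  unfold cl
  have : h / ρ ≤ h' / ρ := by gcongr
  exact max_le_max le_rfl (min_le_min le_rfl this)

lemma cl_lip_rho {κ ρ ρ' : ℝ} (hκ : 0 < κ) (hρ : κ ≤ ρ) (hρ' : κ ≤ ρ') (h : ℝ) :
    |cl ρ h - cl ρ' h| ≤ |ρ - ρ'| / κ := by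
  rw [cl_eq (lt_of_lt_of_le hκ hρ), cl_eq (lt_of_lt_of_le hκ hρ')]
  set M := max ρ (2 * |h|)
  set M' := max ρ' (2 * |h|)
  have hM : κ ≤ M := hρ.trans (le_max_left _ _)
  have hM' : κ ≤ M' := hρ'.trans (le_max_left _ _)
  have hM0 : 0 < M := lt_of_lt_of_le hκ hM
  have hM0' : 0 < M' := lt_of_lt_of_le hκ hM'
  have h1 : h / M - h / M' = (h / M) * ((M' - M) / M') := by field_simp
  rw [h1, abs_mul]
  have h2 : |h / M| ≤ 1 := by
    rw [abs_div, abs_of_pos hM0, div_le_one hM0]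
    have : 2 * |h| ≤ M := le_max_right _ _
    have := abs_nonneg h
    linarith
  have h3 : |(M' - M) / M'| ≤ |ρ - ρ'| / κ := by
    rw [abs_div, abs_of_pos hM0']
    have h4 : |M' - M| ≤ |ρ - ρ'| := by
      rw [abs_sub_comm]
      exact abs_max_sub_max_le_abs _ _ _
    gcongr
  calc |h / M| * |(M' - M) / M'| ≤ 1 * (|ρ - ρ'| / κ) := by gcongr
    _ = _ := one_mul _

lemma cl_half {ρ : ℝ} (hρ : 0 < ρ) (hρ1 : ρ ≤ 1) : cl ρ (1/2) = 1/2 := by
  unfold cl
  have h2 : (1 / 2 : ℝ) ≤ 1 / 2 / ρ := by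
    rw [le_div_iff₀ hρ]; linarith
  rw [min_eq_left h2]
  exact max_eq_right (by norm_num)

lemma cl_neg_half {ρ : ℝ} (hρ : 0 < ρ) (hρ1 : ρ ≤ 1) : cl ρ (-(1/2)) = -(1/2) := by
  unfold cl
  have h2 : -(1 / 2 : ℝ) / ρ ≤ -(1 / 2) := by
    rw [div_le_iff₀ hρ]; linarith
  rw [min_eq_right (by linarith)]
  exact max_eq_left h2

lemma cl_large {ρ h : ℝ} (hρ : 0 < ρ) (hh : ρ ≤ 2 * |h|) : cl ρ h = 1/2 ∨ cl ρ h = -(1/2) := by
  unfold cl
  rcases le_total 0 h with h0 | h0
  · left
    rw [abs_of_nonneg h0] at hh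
    have h2 : 1 / 2 ≤ h / ρ := by
      rw [le_div_iff₀ hρ]; linarith
    rw [min_eq_left h2]
    exact max_eq_right (by norm_num)
  · right
    rw [abs_of_nonpos h0] at hh
    have h2 : h / ρ ≤ -(1 / 2) := by
      rw [div_le_iff₀ hρ]; linarith
    rw [min_eq_right (by linarith)]
    exact max_eq_left h2

/-- the cell-preserving map of the line -/
noncomputable def sg (t ρ : ℝ) : ℝ := round t + cl ρ (t - round t)

lemma sg_one (t : ℝ) : sg t 1 = t := by
  unfold sg cl
  have h := abs_sub_round t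
  rw [abs_le] at h
  rw [div_one, min_eq_right h.2, max_eq_right h.1]
  ring

lemma sg_near (t ρ : ℝ) : |sg t ρ - t| ≤ 1 := by
  unfold sg
  have h1 := abs_sub_round t
  have h2 := cl_abs ρ (t - round t)
  rw [abs_le] at h1 h2 ⊢
  constructor <;> linarith

lemma sg_lip_t {ρ : ℝ} (hρ : 0 < ρ) (hρ1 : ρ ≤ 1) (t t' : ℝ) :
    |sg t ρ - sg t' ρ| ≤ |t - t'| / ρ := by
  wlog h : round t ≤ round t' generalizing t t'
  · rw [abs_sub_comm, abs_sub_comm t t']
    exact this t' t (le_of_not_ge h)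
  rcases h.eq_or_lt with heq | hlt
  · unfold sg
    rw [← heq]
    have := cl_lip_h hρ (t - round t) (t' - round t)
    rw [show (round t : ℝ) + cl ρ (t - round t) - (round t + cl ρ (t' - round t)) =
      cl ρ (t - round t) - cl ρ (t' - round t) by ring]
    rw [show t - (round t : ℝ) - (t' - round t) = t - t' by ring] at this
    exact this
  · have h1 := abs_sub_round t
    have h2 := abs_sub_round t'
    rw [abs_le] at h1 h2
    have h3 : (round t : ℝ) + 1 ≤ round t' := by exact_mod_cast hlt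
    have h4 := cl_lip_h hρ (1/2) (t - round t)
    have h5 := cl_lip_h hρ (t' - round t') (-(1/2))
    rw [cl_half hρ hρ1] at h4
    rw [cl_neg_half hρ hρ1] at h5
    have h6 := cl_mono hρ (h := t - round t) (h' := 1/2) h1.2
    have h7 := cl_mono hρ (h := -(1/2)) (h' := t' - round t') h2.1
    rw [cl_half hρ hρ1] at h6
    rw [cl_neg_half hρ hρ1] at h7
    rw [abs_of_nonneg (by linarith), abs_of_nonneg (by linarith)] at h4
    rw [abs_of_nonneg (by linarith), abs_of_nonneg (by linarith)] at h5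
    have htt : t ≤ t' := by linarith
    have h8 : (round t' : ℝ) - 1/2 - (round t + 1/2) ≤ ((round t' : ℝ) - 1/2 - (round t + 1/2)) / ρ := by
      rw [le_div_iff₀ hρ]
      nlinarith
    rw [abs_sub_comm, abs_sub_comm t t', abs_of_nonneg (show 0 ≤ t' - t by linarith)]
    unfold sg
    rw [abs_of_nonneg (by linarith)]
    have e : (t' - t) / ρ = (1/2 - (t - round t)) / ρ + (t' - round t' - -(1/2)) / ρ +
        ((round t' : ℝ) - 1/2 - (round t + 1/2)) / ρ := by
      field_simp; ring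
    rw [e]
    linarith

lemma sg_lip {κ ρ ρ' : ℝ} (hκ : 0 < κ) (hρ : κ ≤ ρ) (hρ' : κ ≤ ρ') (hρ1 : ρ ≤ 1) (t t' : ℝ) :
    |sg t ρ - sg t' ρ'| ≤ (|t - t'| + |ρ - ρ'|) / κ := by
  have h1 := sg_lip_t (lt_of_lt_of_le hκ hρ) hρ1 t t'
  have h2 : |sg t' ρ - sg t' ρ'| ≤ |ρ - ρ'| / κ := by
    unfold sg
    rw [show (round t' : ℝ) + cl ρ (t' - round t') - (round t' + cl ρ' (t' - round t')) =
      cl ρ (t' - round t') - cl ρ' (t' - round t') by ring]
    exact cl_lip_rho hκ hρ hρ' _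
  have h3 : |t - t'| / ρ ≤ |t - t'| / κ := by gcongr
  have e : sg t ρ - sg t' ρ' = (sg t ρ - sg t' ρ) + (sg t' ρ - sg t' ρ') := by ring
  rw [e, add_div]
  exact (abs_add_le _ _).trans (by linarith)

/-- twice the distance to the integers -/
noncomputable def dd (t : ℝ) : ℝ := 2 * |t - round t|

lemma dd_nonneg (t : ℝ) : 0 ≤ dd t := by unfold dd; positivity

lemma dd_le_one (t : ℝ) : dd t ≤ 1 := by
  unfold dd
  have := abs_sub_round t
  linarith

lemma dd_lip (t t' : ℝ) : |dd t - dd t'| ≤ 2 * |t - t'| := by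
  have key : ∀ t t' : ℝ, dd t ≤ dd t' + 2 * |t - t'| := by
    intro t t'
    unfold dd
    have h1 := round_le t (round t')
    have h2 : |t - round t'| ≤ |t - t'| + |t' - round t'| := abs_sub_le _ _ _
    linarith
  rw [abs_le]
  have h1 := key t t'
  have h2 := key t' t
  rw [abs_sub_comm t' t] at h2
  constructor <;> linarith

/-- one-dimensional measure estimate -/
lemma vol_dd {δ : ℝ} (hδ : 0 < δ) (s : ℝ) {t : ℝ} (ht : 0 ≤ t) :
    volume {τ : ℝ | τ ∈ Icc 0 δ ∧ dd ((s - τ) / δ) ≤ t} ≤ ENNReal.ofReal (3 * t * δ) := by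
  set z₀ : ℤ := ⌈s / δ - 3 / 2⌉ with hz₀
  have hsub : {τ : ℝ | τ ∈ Icc 0 δ ∧ dd ((s - τ) / δ) ≤ t} ⊆
      (Icc (s - δ * z₀ - t * δ / 2) (s - δ * z₀ + t * δ / 2) ∪
      Icc (s - δ * (z₀ + 1) - t * δ / 2) (s - δ * (z₀ + 1) + t * δ / 2)) ∪
      Icc (s - δ * (z₀ + 2) - t * δ / 2) (s - δ * (z₀ + 2) + t * δ / 2) := by
    rintro τ ⟨⟨h0, h1⟩, h2⟩
    set z := round ((s - τ) / δ) with hz
    have h3 := abs_sub_round ((s - τ) / δ)
    rw [← hz, abs_le] at h3
    unfold dd at h2
    rw [← hz] at h2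
    have h4 : |(s - τ) / δ - z| ≤ t / 2 := by linarith
    have h5 : |s - τ - δ * z| ≤ t * δ / 2 := by
      have e : s - τ - δ * z = δ * ((s - τ) / δ - z) := by field_simp
      rw [e, abs_mul, abs_of_pos hδ]
      nlinarith
    rw [abs_le] at h5
    have h6 : (s - τ) / δ = s / δ - τ / δ := by ring
    have h7 : τ / δ ≤ 1 := by rw [div_le_one hδ]; exact h1
    have h8 : 0 ≤ τ / δ := by positivity
    have hz1 : z₀ ≤ z := by
      rw [hz₀, Int.ceil_le]
      linarith
    have hz2 : z ≤ z₀ + 2 := by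
      have h9 := Int.le_ceil (s / δ - 3 / 2)
      rw [← hz₀] at h9
      have : (z : ℝ) ≤ z₀ + 2 := by linarith
      exact_mod_cast this
    have hcases : z = z₀ ∨ z = z₀ + 1 ∨ z = z₀ + 2 := by omega
    rcases hcases with h | h | h
    · left; left
      rw [h] at h5
      constructor <;> linarith
    · left; right
      rw [h] at h5
      push_cast at h5
      constructor <;> linarith
    · right
      rw [h] at h5
      push_cast at h5
      constructor <;> linarith
  refine (measure_mono hsub).trans ((measure_union_le _ _).trans ?_)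
  have h1 : ∀ b : ℝ, volume (Icc (b - t * δ / 2) (b + t * δ / 2)) = ENNReal.ofReal (t * δ) := by
    intro b
    rw [Real.volume_Icc]
    congr 1; ring
  have h2 : ENNReal.ofReal (3 * t * δ) = ENNReal.ofReal (t * δ) + ENNReal.ofReal (t * δ) +
      ENNReal.ofReal (t * δ) := by
    rw [← ENNReal.ofReal_add (by positivity) (by positivity),
      ← ENNReal.ofReal_add (by positivity) (by positivity)]
    congr 1; ring
  rw [h2]
  gcongr
  · refine (measure_union_le _ _).trans ?_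
    rw [h1, h1]
  · rw [h1]

end Run7.h763
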