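import Pool.Agent.Run7.h763.Base

/-! # Minimizing sets close to a Lipschitz graph over a coordinate plane -/

open MeasureTheory Measure Metric Set

set_option linter.unusedSectionVars false

namespace Run7.h763

variable {ι : Type*} [Fintype ι] [DecidableEq ι]

/-- projection to the coordinates in `I` -/
def pr (I : Finset ι) (x : ι → ℝ) : I → ℝ := fun i => x i

/-- the graph map of `a` -/
def gam (I : Finset ι) (a : (I → ℝ) → ι → ℝ) (p : I → ℝ) : ι → ℝ :=
  fun j => if h : j ∈ I then p ⟨j, h⟩ else a p j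

/-- the width function -/
noncomputable def om (I : Finset ι) (x₀ : ι → ℝ) (s : ℝ) (kap : NNReal) (x : ι → ℝ) : ℝ :=
  kap * max (dist (pr I x) (pr I x₀) - s) 0

/-- the flattening map -/
noncomputable def fl (I : Finset ι) (a : (I → ℝ) → ι → ℝ) (x₀ : ι → ℝ) (s : ℝ) (kap : NNReal)
    (x : ι → ℝ) : ι → ℝ :=
  fun j => if j ∈ I then x j else
    max (min (x j) (a (pr I x) j + om I x₀ s kap x)) (a (pr I x) j - om I x₀ s kap x)

/-- flattening followed by a map `Φ` of the coordinate plane -/
noncomputable def hh (I : Finset ι) (a : (I → ℝ) → ι → ℝ) (x₀ : ι → ℝ) (s : ℝ) (kap : NNReal)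
    (Φ : (I → ℝ) → (I → ℝ)) (x : ι → ℝ) : ι → ℝ :=
  fun j => if h : j ∈ I then Φ (pr I x) ⟨j, h⟩ else
    fl I a x₀ s kap x j - a (pr I x) j + a (Φ (pr I x)) j

/-- The data: in the shell between the cubes of radii `r'` and `r` around `x₀`, the set `S` is
close to the graph of the `lam`-Lipschitz function `a`, `lam < 1`. -/
structure Flat (m : ℕ) (S : Set (ι → ℝ)) (I : Finset ι) (x₀ : ι → ℝ) (r s r' : ℝ)
    (lam kap : NNReal) (a : (I → ℝ) → ι → ℝ) : Prop where
  good : Good m S
  card : I.card = m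
  mem : x₀ ∈ S
  lk : lam + kap = 1
  lip : ∀ j, LipschitzWith lam (fun p => a p j)
  s0 : 0 < s
  sr : s < r
  rr : r' < r
  near : ∀ j, j ∉ I → |a (pr I x₀) j - x₀ j| ≤ kap * r
  out : ∀ x ∈ closedBall x₀ r ∩ S, r' < dist x x₀ → s < dist (pr I x) (pr I x₀) ∧
    ∀ j, j ∉ I → |x j - a (pr I x) j| ≤ kap * (dist (pr I x) (pr I x₀) - s)

lemma pr_lip (I : Finset ι) : LipschitzWith 1 (pr I) := by
  apply lip_pi
  intro i
  exact lip_coord (i : ι)

lemma coord_le (x y : ι → ℝ) (i : ι) : |x i - y i| ≤ dist x y := by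
  rw [← Real.dist_eq]
  exact dist_le_pi_dist x y i

/-- the part of `S` over the closed cube of radius `s` -/
def EE (S : Set (ι → ℝ)) (I : Finset ι) (x₀ : ι → ℝ) (r s : ℝ) : Set (ι → ℝ) :=
  (closedBall x₀ r ∩ S) ∩ {x | dist (pr I x) (pr I x₀) ≤ s}

namespace Flat

variable {m : ℕ} {S : Set (ι → ℝ)} {I : Finset ι} {x₀ : ι → ℝ} {r s r' : ℝ} {lam kap : NNReal}
  {a : (I → ℝ) → ι → ℝ}

lemma r0 (H : Flat m S I x₀ r s r' lam kap a) : 0 < r := H.s0.trans H.sr

lemma lkR (H : Flat m S I x₀ r s r' lam kap a) : (lam : ℝ) + kap = 1 := by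
  have := H.lk
  exact_mod_cast this

lemma gam_lip (H : Flat m S I x₀ r s r' lam kap a) : LipschitzWith 1 (gam I a) := by
  apply lip_pi
  intro j
  by_cases h : j ∈ I
  · simp only [gam, dif_pos h]
    exact LipschitzWith.eval (⟨j, h⟩ : I)
  · simp only [gam, dif_neg h]
    refine (H.lip j).weaken ?_
    rw [← H.lk]
    exact le_self_add

lemma om_lip (I : Finset ι) (x₀ : ι → ℝ) (s : ℝ) (kap : NNReal) :
    LipschitzWith kap (om I x₀ s kap) := by
  rw [lipschitzWith_iff_dist_le_mul]
  intro x y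
  unfold om
  rw [Real.dist_eq, ← mul_sub, abs_mul, NNReal.abs_eq]
  apply mul_le_mul_of_nonneg_left _ kap.2
  refine (abs_max_sub_max_le_abs _ _ _).trans ?_
  have h1 : |dist (pr I x) (pr I x₀) - s - (dist (pr I y) (pr I x₀) - s)| ≤
      dist (pr I x) (pr I y) := by
    rw [show dist (pr I x) (pr I x₀) - s - (dist (pr I y) (pr I x₀) - s) =
      dist (pr I x) (pr I x₀) - dist (pr I y) (pr I x₀) by ring]
    exact abs_dist_sub_le _ _ _
  refine h1.trans ?_
  have := (pr_lip I).dist_le_mul x y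
  simpa using this

lemma fl_lip (H : Flat m S I x₀ r s r' lam kap a) : LipschitzWith 1 (fl I a x₀ s kap) := by
  apply lip_pi
  intro j
  by_cases h : j ∈ I
  · simp only [fl, if_pos h]
    exact lip_coord j
  · simp only [fl, if_neg h]
    have h1 : LipschitzWith lam (fun x : ι → ℝ => a (pr I x) j) := by
      have := (H.lip j).comp (pr_lip I)
      simpa [Function.comp_def] using this
    have h2 := om_lip I x₀ s kap
    have h3 : LipschitzWith 1 (fun x : ι → ℝ => a (pr I x) j + om I x₀ s kap x) := by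
      rw [← H.lk]; exact h1.add h2
    have h4 : LipschitzWith 1 (fun x : ι → ℝ => a (pr I x) j - om I x₀ s kap x) := by
      rw [← H.lk]; exact h1.sub h2
    have h5 := ((lip_coord j).min h3).max h4
    simpa using h5

lemma om_nonneg (I : Finset ι) (x₀ : ι → ℝ) (s : ℝ) (kap : NNReal) (x : ι → ℝ) :
    0 ≤ om I x₀ s kap x := by
  unfold om
  positivity

lemma om_zero {x : ι → ℝ} (hx : dist (pr I x) (pr I x₀) ≤ s) : om I x₀ s kap x = 0 := by
  unfold om
  rw [max_eq_right (by linarith), mul_zero]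

lemma fl_flat {x : ι → ℝ} (hx : dist (pr I x) (pr I x₀) ≤ s) :
    fl I a x₀ s kap x = gam I a (pr I x) := by
  funext j
  by_cases h : j ∈ I
  · simp only [fl, gam, if_pos h, dif_pos h, pr]
  · simp only [fl, gam, if_neg h, dif_neg h, om_zero hx, add_zero, sub_zero]
    exact max_eq_right (min_le_right _ _)

lemma fl_id (H : Flat m S I x₀ r s r' lam kap a) {x : ι → ℝ} (hx : x ∈ closedBall x₀ r ∩ S)
    (h : r' < dist x x₀) : fl I a x₀ s kap x = x := by
  obtain ⟨h1, h2⟩ := H.out x hx h
  have h3 : om I x₀ s kap x = kap * (dist (pr I x) (pr I x₀) - s) := by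
    unfold om
    rw [max_eq_left (by linarith)]
  funext j
  by_cases hj : j ∈ I
  · simp only [fl, if_pos hj]
  · simp only [fl, if_neg hj]
    have h4 := h2 j hj
    rw [← h3, abs_le] at h4
    rw [min_eq_left (by linarith), max_eq_left (by linarith)]

lemma a_near (H : Flat m S I x₀ r s r' lam kap a) {q : I → ℝ} {j : ι} (hj : j ∉ I)
    (hq : dist q (pr I x₀) ≤ r) : |a q j - x₀ j| ≤ r := by
  have h2 := H.near j hj
  have h3 := (H.lip j).dist_le_mul q (pr I x₀)
  rw [Real.dist_eq] at h3
  have h4 : (lam : ℝ) * dist q (pr I x₀) ≤ lam * r := mul_le_mul_of_nonneg_left hq lam.2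
  have h6 := H.lkR
  have h10 : |a q j - x₀ j| ≤ |a q j - a (pr I x₀) j| + |a (pr I x₀) j - x₀ j| := by
    have e : a q j - x₀ j = (a q j - a (pr I x₀) j) + (a (pr I x₀) j - x₀ j) := by ring
    rw [e]
    exact abs_add_le _ _
  have h11 : (lam : ℝ) * r = r - kap * r := by
    have : (lam : ℝ) = 1 - kap := by linarith
    rw [this]; ring
  linarith

lemma gam_mem (H : Flat m S I x₀ r s r' lam kap a) {q : I → ℝ} (hq : dist q (pr I x₀) ≤ r) :
    gam I a q ∈ closedBall x₀ r := by
  rw [mem_closedBall, dist_pi_le_iff H.r0.le]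
  intro j
  rw [Real.dist_eq]
  by_cases hj : j ∈ I
  · simp only [gam, dif_pos hj]
    have := coord_le q (pr I x₀) ⟨j, hj⟩
    exact this.trans hq
  · simp only [gam, dif_neg hj]
    exact H.a_near hj hq

lemma fl_mem (H : Flat m S I x₀ r s r' lam kap a) {x : ι → ℝ} (hx : x ∈ closedBall x₀ r) :
    fl I a x₀ s kap x ∈ closedBall x₀ r := by
  rw [mem_closedBall, dist_pi_le_iff H.r0.le]
  rw [mem_closedBall] at hx
  intro j
  rw [Real.dist_eq]
  have hxj := (coord_le x x₀ j).trans hx
  by_cases hj : j ∈ I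
  · simp only [fl, if_pos hj]
    exact hxj
  · simp only [fl, if_neg hj]
    have h1 : dist (pr I x) (pr I x₀) ≤ r := by
      have := (pr_lip I).dist_le_mul x x₀
      simp only [NNReal.coe_one, one_mul] at this
      exact this.trans hx
    have h2 := H.a_near hj h1
    have h3 := om_nonneg I x₀ s kap x
    rw [abs_le] at h2 hxj ⊢
    rcases le_total (x j) (a (pr I x) j + om I x₀ s kap x) with h4 | h4
    · rw [min_eq_left h4]
      rcases le_total (x j) (a (pr I x) j - om I x₀ s kap x) with h5 | h5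
      · rw [max_eq_right h5]
        constructor <;> linarith
      · rw [max_eq_left h5]
        exact hxj
    · rw [min_eq_right h4, max_eq_left (by linarith)]
      constructor <;> linarith

lemma isClosed_EE (H : Flat m S I x₀ r s r' lam kap a) : IsClosed (EE S I x₀ r s) := by
  unfold EE
  apply IsClosed.inter
  · exact isClosed_closedBall.inter H.good.closed
  · apply isClosed_le
    · exact ((pr_lip I).continuous).dist continuous_const
    · exact continuous_const

lemma isCompact_CS (H : Flat m S I x₀ r s r' lam kap a) : IsCompact (closedBall x₀ r ∩ S) :=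
  (isCompact_closedBall x₀ r).inter_right H.good.closed

lemma isCompact_EE (H : Flat m S I x₀ r s r' lam kap a) : IsCompact (EE S I x₀ r s) :=
  H.isCompact_CS.of_isClosed_subset H.isClosed_EE inter_subset_left

lemma hm_vol (H : Flat m S I x₀ r s r' lam kap a) (A : Set (I → ℝ)) :
    μH[(m : ℝ)] A = volume A := by
  have : (Fintype.card I : ℝ) = m := by
    rw [Fintype.card_coe, H.card]
  rw [← this, hausdorffMeasure_pi_real]

/-- Projection preserves the measure of subsets of `EE`. -/
lemma measure_le (H : Flat m S I x₀ r s r' lam kap a) {A : Set (ι → ℝ)} (hA : MeasurableSet A)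
    (hAE : A ⊆ EE S I x₀ r s) : μH[(m : ℝ)] A ≤ volume (pr I '' A) := by
  have h1 := comparison' (m := m) (S := S) H.good x₀ H.r0 H.rr (fl I a x₀ s kap)
    (H.fl_lip.lipschitzOnWith) (fun x hx => H.fl_mem hx.1)
    (fun x hx h => H.fl_id hx h) hA (hAE.trans inter_subset_left)
    (hm_image_le H.fl_lip.lipschitzOnWith m)
  have h2 : fl I a x₀ s kap '' A = gam I a '' (pr I '' A) := by
    rw [← image_comp]
    apply image_congr
    intro x hx
    exact fl_flat (hAE hx).2
  rw [h2] at h1
  refine h1.trans ?_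
  rw [← H.hm_vol]
  exact hm_image_le H.gam_lip.lipschitzOnWith m

lemma le_measure (H : Flat m S I x₀ r s r' lam kap a) (A : Set (ι → ℝ)) :
    volume (pr I '' A) ≤ μH[(m : ℝ)] A := by
  rw [← H.hm_vol]
  exact hm_image_le (pr_lip I).lipschitzOnWith m

end Flat

end Run7.h763
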