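import Pool.Agent.Run7.h763.Flat2

/-! # Fibres, and the box lemma -/

open MeasureTheory Measure Metric Set

set_option linter.unusedSectionVars false

namespace Run7.h763

variable {ι : Type*} [Fintype ι] [DecidableEq ι]

/-- the points of the coordinate plane with several points of `EE` above them -/
def NN (S : Set (ι → ℝ)) (I : Finset ι) (x₀ : ι → ℝ) (r s : ℝ) : Set (I → ℝ) :=
  {p | ∃ x ∈ EE S I x₀ r s, ∃ y ∈ EE S I x₀ r s, x ≠ y ∧ pr I x = p ∧ pr I y = p}

lemma lip_mul_bdd {X : Type*} [PseudoMetricSpace X] {f g : X → ℝ} {K L A B : NNReal}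
    (hf : LipschitzWith K f) (hg : LipschitzWith L g) (hA : ∀ x, |f x| ≤ A) (hB : ∀ x, |g x| ≤ B) :
    LipschitzWith (A * L + B * K) (fun x => f x * g x) := by
  rw [lipschitzWith_iff_dist_le_mul]
  intro x y
  have h1 := hf.dist_le_mul x y
  have h2 := hg.dist_le_mul x y
  rw [Real.dist_eq] at h1 h2 ⊢
  have e : f x * g x - f y * g y = f x * (g x - g y) + (f x - f y) * g y := by ring
  rw [e]
  refine (abs_add_le _ _).trans ?_
  rw [abs_mul, abs_mul]
  have h3 : |f x| * |g x - g y| ≤ A * (L * dist x y) := by
    gcongr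
    exact hA x
  have h4 : |f x - f y| * |g y| ≤ (K * dist x y) * B := by
    gcongr
    exact hB y
  push_cast
  nlinarith

lemma exists_pos_fin {κ : Type*} (F : Finset κ) (f : κ → ℝ) (h : ∀ i ∈ F, 0 < f i) :
    ∃ δ > 0, ∀ i ∈ F, δ ≤ f i := by
  classical
  induction F using Finset.induction with
  | empty => exact ⟨1, one_pos, by simp⟩
  | insert a F _ ih =>
    obtain ⟨δ, hδ, hF⟩ := ih (fun i hi => h i (Finset.mem_insert_of_mem hi))
    refine ⟨min δ (f a), lt_min hδ (h a (Finset.mem_insert_self a F)), ?_⟩
    intro i hi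
    rcases Finset.mem_insert.mp hi with rfl | hi
    · exact min_le_right _ _
    · exact (min_le_left _ _).trans (hF i hi)

namespace Flat

variable {m : ℕ} {S : Set (ι → ℝ)} {I : Finset ι} {x₀ : ι → ℝ} {r s r' : ℝ} {lam kap : NNReal}
  {a : (I → ℝ) → ι → ℝ}

lemma inter_null (H : Flat m S I x₀ r s r' lam kap a) {A B : Set (ι → ℝ)} (hA : IsClosed A)
    (hB : IsClosed B) (hAB : Disjoint A B) :
    volume (pr I '' (EE S I x₀ r s ∩ A) ∩ pr I '' (EE S I x₀ r s ∩ B)) = 0 := by
  set A' := EE S I x₀ r s ∩ A
  set B' := EE S I x₀ r s ∩ B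
  have hA' : IsCompact A' := H.isCompact_EE.inter_right hA
  have hB' : IsCompact B' := H.isCompact_EE.inter_right hB
  have hdis : Disjoint A' B' := hAB.mono inter_subset_right inter_subset_right
  have h1 : μH[(m : ℝ)] (A' ∪ B') = μH[(m : ℝ)] A' + μH[(m : ℝ)] B' :=
    measure_union hdis hB'.measurableSet
  have h2 : μH[(m : ℝ)] (A' ∪ B') ≤ volume (pr I '' A' ∪ pr I '' B') := by
    rw [← image_union]
    exact H.measure_le (hA'.measurableSet.union hB'.measurableSet)
      (union_subset inter_subset_left inter_subset_left)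
  have h3 := measure_union_add_inter (μ := volume) (pr I '' A')
    (hB'.image (pr_lip I).continuous).measurableSet
  have h4 := H.le_measure A'
  have h5 := H.le_measure B'
  have hfinE : μH[(m : ℝ)] (EE S I x₀ r s) ≠ ⊤ :=
    ne_top_of_le_ne_top (H.good.fin x₀ r).ne (measure_mono inter_subset_left)
  have hf1 : μH[(m : ℝ)] A' ≠ ⊤ := ne_top_of_le_ne_top hfinE (measure_mono inter_subset_left)
  have hf2 : μH[(m : ℝ)] B' ≠ ⊤ := ne_top_of_le_ne_top hfinE (measure_mono inter_subset_left)
  have h6 : (μH[(m : ℝ)] A' + μH[(m : ℝ)] B') + volume (pr I '' A' ∩ pr I '' B') ≤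
      (μH[(m : ℝ)] A' + μH[(m : ℝ)] B') + 0 := by
    rw [add_zero]
    calc (μH[(m : ℝ)] A' + μH[(m : ℝ)] B') + volume (pr I '' A' ∩ pr I '' B')
        ≤ volume (pr I '' A' ∪ pr I '' B') + volume (pr I '' A' ∩ pr I '' B') := by
          rw [← h1]; gcongr
      _ = volume (pr I '' A') + volume (pr I '' B') := h3
      _ ≤ _ := by gcongr
  have h7 := (ENNReal.add_le_add_iff_left (by finiteness)).mp h6
  exact le_antisymm h7 zero_le

lemma mult_null (H : Flat m S I x₀ r s r' lam kap a) : volume (NN S I x₀ r s) = 0 := by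
  have hsub : NN S I x₀ r s ⊆ ⋃ (w : ι × ℚ × ℚ),
      (if (w.2.1 : ℝ) < w.2.2 then
        pr I '' (EE S I x₀ r s ∩ {x | x w.1 ≤ w.2.1}) ∩
        pr I '' (EE S I x₀ r s ∩ {x | (w.2.2 : ℝ) ≤ x w.1}) else ∅) := by
    have key : ∀ p, ∀ x ∈ EE S I x₀ r s, ∀ y ∈ EE S I x₀ r s, ∀ j, x j < y j → pr I x = p →
        pr I y = p → p ∈ ⋃ (w : ι × ℚ × ℚ),
      (if (w.2.1 : ℝ) < w.2.2 then
        pr I '' (EE S I x₀ r s ∩ {x | x w.1 ≤ w.2.1}) ∩
        pr I '' (EE S I x₀ r s ∩ {x | (w.2.2 : ℝ) ≤ x w.1}) else ∅) := by
      intro p x hx y hy j hj hxp hyp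
      obtain ⟨q₁, hq1, hq1'⟩ := exists_rat_btwn hj
      obtain ⟨q₂, hq2, hq2'⟩ := exists_rat_btwn hq1'
      rw [mem_iUnion]
      refine ⟨(j, q₁, q₂), ?_⟩
      simp only
      rw [if_pos hq2]
      exact ⟨⟨x, ⟨hx, hq1.le⟩, hxp⟩, ⟨y, ⟨hy, hq2'.le⟩, hyp⟩⟩
    rintro p ⟨x, hx, y, hy, hne, hxp, hyp⟩
    obtain ⟨j, hj⟩ := Function.ne_iff.mp hne
    rcases lt_or_gt_of_ne hj with h | h
    · exact key p x hx y hy j h hxp hyp
    · exact key p y hy x hx j h hyp hxp
  refine measure_mono_null hsub ?_
  rw [measure_iUnion_null_iff]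
  rintro ⟨j, q₁, q₂⟩
  simp only
  split_ifs with h
  · apply H.inter_null
    · exact isClosed_le (continuous_apply j) continuous_const
    · exact isClosed_le continuous_const (continuous_apply j)
    · rw [Set.disjoint_left]
      intro z hz hz'
      simp only [mem_ofPred_eq] at hz hz'
      linarith
  · simp

lemma mem_EE_of_ball {x : ι → ℝ} (hx : x ∈ closedBall x₀ r ∩ S)
    (hb : pr I x ∈ ball (pr I x₀) s) : x ∈ EE S I x₀ r s :=
  ⟨hx, (mem_ball.mp hb).le⟩

lemma unique_of (_H : Flat m S I x₀ r s r' lam kap a) {x : ι → ℝ} (hx : x ∈ closedBall x₀ r ∩ S)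
    (hb : pr I x ∈ ball (pr I x₀) s) (hN : pr I x ∉ NN S I x₀ r s) :
    ∀ z ∈ closedBall x₀ r ∩ S, pr I z = pr I x → z = x := by
  intro z hz hzx
  by_contra hne
  apply hN
  refine ⟨z, mem_EE_of_ball hz (by rw [hzx]; exact hb), x, mem_EE_of_ball hx hb, hne, hzx, rfl⟩

/-- The box lemma. -/
lemma box (H : Flat m S I x₀ r s r' lam kap a) (hm : 0 < m) {x y : ι → ℝ}
    (hx : x ∈ closedBall x₀ r ∩ S) (hy : y ∈ closedBall x₀ r ∩ S) (i₀ : I)
    (hxy : ∀ i : I, i ≠ i₀ → x i = y i)
    (hxb : pr I x ∈ ball (pr I x₀) s) (hyb : pr I y ∈ ball (pr I x₀) s)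
    (ux : ∀ z ∈ closedBall x₀ r ∩ S, pr I z = pr I x → z = x)
    (uy : ∀ z ∈ closedBall x₀ r ∩ S, pr I z = pr I y → z = y)
    {j : ι} (hj : j ∉ I) : y j - x j ≤ |y i₀ - x i₀| := by
  by_contra hcon
  push Not at hcon
  obtain ⟨t, ht⟩ : ∃ t, t = |y i₀ - x i₀| := ⟨_, rfl⟩
  rw [← ht] at hcon
  have ht0 : 0 < t := by
    rw [ht, abs_pos]
    intro h0
    have h1 : pr I y = pr I x := by
      funext i
      by_cases hi : i = i₀
      · subst hi
        simp only [pr]; linarith
      · exact (hxy i hi).symm
    have h2 := ux y hy h1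
    rw [h2, sub_self] at hcon
    rw [ht] at hcon
    exact absurd hcon (not_lt.mpr (abs_nonneg _))
  obtain ⟨σ, hσ, hσt⟩ : ∃ σ : ℝ, (σ = 1 ∨ σ = -1) ∧ y i₀ - x i₀ = σ * t := by
    rcases abs_choice (y i₀ - x i₀) with h | h
    · exact ⟨1, Or.inl rfl, by rw [ht, h, one_mul]⟩
    · exact ⟨-1, Or.inr rfl, by rw [ht, h]; ring⟩
  have hσ2 : σ * σ = 1 := by rcases hσ with h | h <;> rw [h] <;> norm_num
  have hσa : |σ| = 1 := by rcases hσ with h | h <;> rw [h] <;> simp
  obtain ⟨δ, hδ⟩ : ∃ δ, δ = (y j - x j - t) / 8 := ⟨_, rfl⟩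
  have hδ0 : 0 < δ := by rw [hδ]; linarith
  -- uniform smallness
  have huni : ∀ x' : ι → ℝ, (∀ z ∈ closedBall x₀ r ∩ S, pr I z = pr I x' → z = x') →
      ∃ ρ > 0, ∀ z ∈ closedBall x₀ r ∩ S, dist (pr I z) (pr I x') < ρ → |z j - x' j| < δ := by
    intro x' ux'
    have hKc : IsCompact ((closedBall x₀ r ∩ S) ∩ {z | δ ≤ |z j - x' j|}) := by
      apply H.isCompact_CS.inter_right
      exact isClosed_le continuous_const (((continuous_apply j).sub continuous_const).abs)
    obtain ⟨ρ, hρ, h⟩ := exists_pos hKc (f := fun z => dist (pr I z) (pr I x'))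
      (((pr_lip I).continuous).dist continuous_const).continuousOn (by
        rintro z ⟨hz, hz2⟩
        apply dist_pos.mpr
        intro h
        have := ux' z hz h
        rw [this] at hz2
        simp only [mem_ofPred_eq, sub_self, abs_zero] at hz2
        linarith)
    refine ⟨ρ, hρ, fun z hz hd => ?_⟩
    by_contra hc
    push Not at hc
    have := h z ⟨hz, hc⟩
    linarith
  obtain ⟨ρ₁, hρ₁, hu1⟩ := huni x ux
  obtain ⟨ρ₂, hρ₂, hu2⟩ := huni y uy
  rw [mem_ball] at hxb hyb
  obtain ⟨ρ, hρ⟩ : ∃ ρ, ρ = min (min (ρ₁ / 2) (ρ₂ / 2))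
    (min δ (min ((s - dist (pr I x) (pr I x₀)) / 2) ((s - dist (pr I y) (pr I x₀)) / 2))) :=
    ⟨_, rfl⟩
  have hρ0 : 0 < ρ := by
    rw [hρ]
    refine lt_min (lt_min (by linarith) (by linarith)) (lt_min hδ0 (lt_min ?_ ?_)) <;> linarith
  have hρ1 : ρ < ρ₁ := by
    have : ρ ≤ ρ₁ / 2 := by rw [hρ]; exact (min_le_left _ _).trans (min_le_left _ _)
    linarith
  have hρ2 : ρ < ρ₂ := by
    have : ρ ≤ ρ₂ / 2 := by rw [hρ]; exact (min_le_left _ _).trans (min_le_right _ _)
    linarith
  have hρδ : ρ ≤ δ := by rw [hρ]; exact (min_le_right _ _).trans (min_le_left _ _)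
  have hρx : dist (pr I x) (pr I x₀) + ρ < s := by
    have : ρ ≤ (s - dist (pr I x) (pr I x₀)) / 2 := by
      rw [hρ]; exact (min_le_right _ _).trans ((min_le_right _ _).trans (min_le_left _ _))
    linarith
  have hρy : dist (pr I y) (pr I x₀) + ρ < s := by
    have : ρ ≤ (s - dist (pr I y) (pr I x₀)) / 2 := by
      rw [hρ]; exact (min_le_right _ _).trans ((min_le_right _ _).trans (min_le_right _ _))
    linarith
  -- coordinates of points of the tube
  have hco : ∀ q : I → ℝ, (∀ i, i ≠ i₀ → |q i - x i| ≤ ρ) →
      (-ρ ≤ σ * (q i₀ - x i₀)) → (σ * (q i₀ - x i₀) ≤ t + ρ) → dist q (pr I x₀) < s := by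
    intro q h1 h2 h3
    rw [dist_pi_lt_iff H.s0]
    intro i
    rw [Real.dist_eq]
    have hxi := coord_le (pr I x) (pr I x₀) i
    have hyi := coord_le (pr I y) (pr I x₀) i
    simp only [pr] at hxi hyi
    by_cases hi : i = i₀
    · subst hi
      simp only [pr]
      rw [abs_le] at hxi hyi
      rw [abs_lt]
      rcases hσ with h | h
      · rw [h] at h2 h3 hσt
        constructor <;> linarith
      · rw [h] at h2 h3 hσt
        constructor <;> linarith
    · have h4 := h1 i hi
      simp only [pr]
      have : |q i - x₀ i| ≤ |q i - x i| + |x i - x₀ i| := by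
        have e : q i - x₀ i = (q i - x i) + (x i - x₀ i) := by ring
        rw [e]; exact abs_add_le _ _
      linarith
  -- the tube
  set Eρ : Set (ι → ℝ) := (closedBall x₀ r ∩ S) ∩
    {z | (∀ i : I, i ≠ i₀ → |z i - x i| ≤ ρ) ∧ -ρ ≤ σ * (z i₀ - x i₀) ∧
      σ * (z i₀ - x i₀) ≤ t + ρ} with hEρ
  have hEρE : Eρ ⊆ EE S I x₀ r s := by
    rintro z ⟨hz, h1, h2, h3⟩
    refine mem_EE_of_ball hz ?_
    rw [mem_ball]
    exact hco (pr I z) h1 h2 h3
  have hEρc : IsCompact Eρ := by
    apply H.isCompact_CS.inter_right
    have e : {z : ι → ℝ | (∀ i : I, i ≠ i₀ → |z i - x i| ≤ ρ) ∧ -ρ ≤ σ * (z i₀ - x i₀) ∧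
      σ * (z i₀ - x i₀) ≤ t + ρ} = (⋂ i : I, ⋂ (_ : i ≠ i₀), {z | |z i - x i| ≤ ρ}) ∩
        ({z | -ρ ≤ σ * (z i₀ - x i₀)} ∩ {z | σ * (z i₀ - x i₀) ≤ t + ρ}) := by
      ext z
      simp only [mem_ofPred_eq, mem_inter_iff, mem_iInter]
    rw [e]
    apply IsClosed.inter
    · apply isClosed_iInter
      intro i
      apply isClosed_iInter
      intro _
      exact isClosed_le (((continuous_apply (i : ι)).sub continuous_const).abs) continuous_const
    · apply IsClosed.inter
      · exact isClosed_le continuous_const
          (continuous_const.mul ((continuous_apply (i₀ : ι)).sub continuous_const))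
      · exact isClosed_le (continuous_const.mul ((continuous_apply (i₀ : ι)).sub continuous_const))
          continuous_const
  -- the other projection
  set P : (ι → ℝ) → (I → ℝ) := fun z i => if i = i₀ then z j else z i with hP
  have hPl : LipschitzWith 1 P := by
    apply lip_pi
    intro i
    by_cases hi : i = i₀
    · simp only [hP, if_pos hi]
      exact lip_coord j
    · simp only [hP, if_neg hi]
      exact lip_coord (i : ι)
  -- the main covering claim
  have hcov : ∀ v : I → ℝ, x j + δ < v i₀ → v i₀ < y j - δ → (∀ i, i ≠ i₀ → |v i - x i| < ρ) →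
      v ∈ P '' Eρ := by
    intro v hv1 hv2 hv3
    by_contra hvn
    have hPc : IsClosed (P '' Eρ) := (hEρc.image hPl.continuous).isClosed
    obtain ⟨η₀, hη₀, hη₀'⟩ := Metric.mem_nhds_iff.mp (hPc.isOpen_compl.mem_nhds hvn)
    -- η less than all the margins
    obtain ⟨η, hη, hηη, hηm⟩ : ∃ η > 0, η ≤ η₀ ∧ ∀ i : I, i ≠ i₀ → |v i - x i| + η ≤ ρ := by
      obtain ⟨δ', hδ', h⟩ := exists_pos_fin (Finset.univ.erase i₀ : Finset I)
        (fun i : I => ρ - |v i - x i|) (by
          intro i hi
          have := hv3 i (by simpa using hi)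
          linarith)
      refine ⟨min η₀ δ', lt_min hη₀ hδ', min_le_left _ _, ?_⟩
      intro i hi
      have := h i (by simpa using hi)
      have h2 := min_le_right η₀ δ'
      linarith
    set τ := v i₀ with hτ
    -- the cutoff functions
    set Q : (ι → ℝ) → (I → ℝ) := fun z i => if i = i₀ then 0 else z i - v i with hQ
    have hQl : LipschitzWith 1 Q := by
      apply lip_pi
      intro i
      by_cases hi : i = i₀
      · simp only [hQ, if_pos hi]
        exact LipschitzWith.const' 0
      · simp only [hQ, if_neg hi]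
        have := (lip_coord (i : ι)).sub (LipschitzWith.const (v i))
        simpa using this
    set χ : (ι → ℝ) → ℝ := fun z => max 0 (1 - η⁻¹ * ‖Q z‖) with hχ
    set α : (ι → ℝ) → ℝ := fun z => max 0 (min 1 ((2 * η)⁻¹ * (τ + η - z j))) with hα
    set w : (ι → ℝ) → ℝ := fun z => σ * (z i₀ - x i₀) with hw
    set K : ℝ := t / ρ with hK
    have hK0 : 0 < K := by positivity
    set lo : (ι → ℝ) → ℝ := fun z => min (max (w z) 0) (K * max (t - w z) 0) with hlo
    set up : (ι → ℝ) → ℝ := fun z => min (max (t - w z) 0) (K * max (w z) 0) with hup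
    have hwl : LipschitzWith 1 w := by
      rw [lipschitzWith_iff_dist_le_mul]
      intro z z'
      simp only [hw]
      rw [Real.dist_eq, ← mul_sub, abs_mul, hσa, one_mul, NNReal.coe_one, one_mul]
      have := coord_le z z' i₀
      rwa [show z i₀ - x i₀ - (z' i₀ - x i₀) = z i₀ - z' i₀ by ring]
    have htwl : LipschitzWith 1 (fun z => t - w z) := by
      have := (LipschitzWith.const (α := ι → ℝ) t).sub hwl
      simpa using this
    have hmw : LipschitzWith 1 (fun z => max (w z) 0) := hwl.max_const 0
    have hmtw : LipschitzWith 1 (fun z => max (t - w z) 0) := htwl.max_const 0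
    have hKmul : ∀ f : (ι → ℝ) → ℝ, LipschitzWith 1 f →
        LipschitzWith (Real.toNNReal K) (fun z => K * f z) := by
      intro f hf
      rw [lipschitzWith_iff_dist_le_mul]
      intro z z'
      rw [Real.dist_eq, ← mul_sub, abs_mul, abs_of_pos hK0, Real.coe_toNNReal _ hK0.le]
      have := hf.dist_le_mul z z'
      rw [Real.dist_eq, NNReal.coe_one, one_mul] at this
      gcongr
    have hlol : LipschitzWith (max 1 (Real.toNNReal K)) lo := hmw.min (hKmul _ hmtw)
    have hupl : LipschitzWith (max 1 (Real.toNNReal K)) up := hmtw.min (hKmul _ hmw)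
    have hlo0 : ∀ z, 0 ≤ lo z := fun z => le_min (le_max_right _ _)
      (mul_nonneg hK0.le (le_max_right _ _))
    have hup0 : ∀ z, 0 ≤ up z := fun z => le_min (le_max_right _ _)
      (mul_nonneg hK0.le (le_max_right _ _))
    have hlot : ∀ z, lo z ≤ max (w z) 0 := fun z => min_le_left _ _
    have hupt : ∀ z, up z ≤ max (t - w z) 0 := fun z => min_le_left _ _
    have hlo_out : ∀ z, t ≤ w z → lo z = 0 := by
      intro z hz
      simp only [hlo]
      rw [max_eq_right (show t - w z ≤ 0 by linarith), mul_zero]
      exact min_eq_right (le_max_right _ _)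
    have hlo_out' : ∀ z, w z ≤ 0 → lo z = 0 := by
      intro z hz
      simp only [hlo]
      rw [max_eq_right hz]
      exact min_eq_left (mul_nonneg hK0.le (le_max_right _ _))
    have hup_out : ∀ z, t ≤ w z → up z = 0 := by
      intro z hz
      simp only [hup]
      rw [max_eq_right (show t - w z ≤ 0 by linarith)]
      exact min_eq_left (mul_nonneg hK0.le (le_max_right _ _))
    have hup_out' : ∀ z, w z ≤ 0 → up z = 0 := by
      intro z hz
      simp only [hup]
      rw [max_eq_right hz, mul_zero]
      exact min_eq_right (le_max_right _ _)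
    have hlob : ∀ z, lo z ≤ t := by
      intro z
      rcases le_total t (w z) with h | h
      · rw [hlo_out z h]; exact ht0.le
      · exact (hlot z).trans (max_le h ht0.le)
    have hupb : ∀ z, up z ≤ t := by
      intro z
      rcases le_total (w z) 0 with h | h
      · rw [hup_out' z h]; exact ht0.le
      · exact (hupt z).trans (max_le (by linarith) ht0.le)
    have hα0 : ∀ z, 0 ≤ α z := fun z => le_max_left _ _
    have hα1 : ∀ z, α z ≤ 1 := fun z => max_le zero_le_one (min_le_left _ _)
    have hχ0 : ∀ z, 0 ≤ χ z := fun z => le_max_left _ _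
    have hχ1 : ∀ z, χ z ≤ 1 := by
      intro z
      apply max_le zero_le_one
      have : 0 ≤ η⁻¹ * ‖Q z‖ := by positivity
      linarith
    have hαl : LipschitzWith (Real.toNNReal (2 * η)⁻¹) α := by
      have h1 : LipschitzWith (Real.toNNReal (2 * η)⁻¹)
          (fun z : ι → ℝ => (2 * η)⁻¹ * (τ + η - z j)) := by
        rw [lipschitzWith_iff_dist_le_mul]
        intro z z'
        have h2 : 0 < (2 * η)⁻¹ := by positivity
        rw [Real.dist_eq, ← mul_sub, abs_mul, abs_of_pos h2, Real.coe_toNNReal _ h2.le]
        have := coord_le z z' j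
        rw [show τ + η - z j - (τ + η - z' j) = -(z j - z' j) by ring, abs_neg]
        gcongr
      exact (h1.const_min 1).const_max 0
    have hχl : LipschitzWith (Real.toNNReal η⁻¹) χ := by
      have h1 : LipschitzWith (Real.toNNReal η⁻¹)
          (fun z : ι → ℝ => 1 - η⁻¹ * ‖Q z‖) := by
        rw [lipschitzWith_iff_dist_le_mul]
        intro z z'
        have h2 : 0 < η⁻¹ := by positivity
        rw [Real.dist_eq, show 1 - η⁻¹ * ‖Q z‖ - (1 - η⁻¹ * ‖Q z'‖) =
          η⁻¹ * (‖Q z'‖ - ‖Q z‖) by ring, abs_mul, abs_of_pos h2, Real.coe_toNNReal _ h2.le]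
        have h3 := abs_norm_sub_norm_le (Q z') (Q z)
        have h4 := hQl.dist_le_mul z' z
        rw [dist_eq_norm, NNReal.coe_one, one_mul, dist_comm] at h4
        gcongr
        exact h3.trans h4
      exact h1.const_max 0
    -- the displacement
    set D : (ι → ℝ) → ℝ := fun z => (1 - α z) * up z - α z * lo z with hD
    have hDl : ∃ L : NNReal, LipschitzWith L D := by
      have h1 : LipschitzWith (Real.toNNReal (2 * η)⁻¹) (fun z => 1 - α z) := by
        have := (LipschitzWith.const (α := ι → ℝ) (1:ℝ)).sub hαl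
        simpa using this
      have h2 := lip_mul_bdd (A := 1) (B := Real.toNNReal t) h1 hupl
        (fun z => by
          rw [abs_le]; simp only [NNReal.coe_one]
          constructor <;> linarith [hα0 z, hα1 z])
        (fun z => by
          rw [Real.coe_toNNReal _ ht0.le, abs_of_nonneg (hup0 z)]; exact hupb z)
      have h3 := lip_mul_bdd (A := 1) (B := Real.toNNReal t) hαl hlol
        (fun z => by
          rw [abs_le]; simp only [NNReal.coe_one]
          constructor <;> linarith [hα0 z, hα1 z])
        (fun z => by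
          rw [Real.coe_toNNReal _ ht0.le, abs_of_nonneg (hlo0 z)]; exact hlob z)
      exact ⟨_, h2.sub h3⟩
    obtain ⟨L, hDl⟩ := hDl
    have hDhi : ∀ z, D z ≤ (1 - α z) * up z := by
      intro z
      simp only [hD]
      have := mul_nonneg (hα0 z) (hlo0 z)
      linarith
    have hDlo : ∀ z, - (α z * lo z) ≤ D z := by
      intro z
      simp only [hD]
      have := mul_nonneg (sub_nonneg.mpr (hα1 z)) (hup0 z)
      linarith
    have hDb : ∀ z, |D z| ≤ t := by
      intro z
      rw [abs_le]
      constructor
      · have h1 := hDlo z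
        have h2 : α z * lo z ≤ 1 * t :=
          mul_le_mul (hα1 z) (hlob z) (hlo0 z) zero_le_one
        linarith
      · have h1 := hDhi z
        have h2 : (1 - α z) * up z ≤ 1 * t :=
          mul_le_mul (by linarith [hα0 z]) (hupb z) (hup0 z) zero_le_one
        linarith
    obtain ⟨L', hcdl⟩ : ∃ L' : NNReal, LipschitzWith L' (fun z => χ z * D z) :=
      ⟨_, lip_mul_bdd (A := 1) (B := Real.toNNReal t) hχl hDl
        (fun z => by
          rw [abs_le]; simp only [NNReal.coe_one]
          constructor <;> linarith [hχ0 z, hχ1 z])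
        (fun z => by rw [Real.coe_toNNReal _ ht0.le]; exact hDb z)⟩
    set g : (ι → ℝ) → (ι → ℝ) := fun z k => z k + (if k = (i₀ : ι) then σ * (χ z * D z) else 0)
      with hg
    have hgl : LipschitzWith (1 + L') g := by
      apply lip_pi
      intro k
      by_cases hk : k = (i₀ : ι)
      · simp only [hg, if_pos hk]
        apply (lip_coord k).add
        rw [lipschitzWith_iff_dist_le_mul]
        intro z z'
        rw [Real.dist_eq, ← mul_sub, abs_mul, hσa, one_mul, ← Real.dist_eq]
        exact hcdl.dist_le_mul z z'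
      · simp only [hg, if_neg hk, add_zero]
        exact (lip_coord k).weaken (by simp)
    have hgi : ∀ z (i : I), i ≠ i₀ → g z i = z i := by
      intro z i hi
      have : (i : ι) ≠ (i₀ : ι) := fun h => hi (Subtype.ext h)
      simp only [hg, if_neg this, add_zero]
    have hwg : ∀ z, σ * (g z i₀ - x i₀) = w z + χ z * D z := by
      intro z
      simp only [hg, if_true, hw]
      have : σ * (z i₀ + σ * (χ z * D z) - x i₀) = σ * (z i₀ - x i₀) + (σ * σ) * (χ z * D z) := by
        ring
      rw [this, hσ2, one_mul]
    -- if the displacement is nonzero we are in the tube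
    have htube : ∀ z ∈ closedBall x₀ r ∩ S, χ z * D z ≠ 0 →
        (∀ i : I, i ≠ i₀ → |z i - x i| ≤ ρ) ∧ 0 < w z ∧ w z < t := by
      intro z hz hne
      have hχne : χ z ≠ 0 := fun h => hne (by rw [h, zero_mul])
      have hDne : D z ≠ 0 := fun h => hne (by rw [h, mul_zero])
      refine ⟨?_, ?_, ?_⟩
      · intro i hi
        have h1 : 0 < 1 - η⁻¹ * ‖Q z‖ := by
          by_contra hc
          push Not at hc
          apply hχne
          simp only [hχ]
          exact max_eq_left hc
        have h2 : ‖Q z‖ < η := by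
          have h3 : η⁻¹ * ‖Q z‖ < 1 := by linarith
          rwa [inv_mul_lt_iff₀ hη, mul_one] at h3
        have h3 : |z i - v i| ≤ ‖Q z‖ := by
          have := norm_le_pi_norm (Q z) i
          simp only [hQ, if_neg hi] at this
          rwa [Real.norm_eq_abs] at this
        have h4 := hηm i hi
        have h5 : |z i - x i| ≤ |z i - v i| + |v i - x i| := by
          have e : z i - x i = (z i - v i) + (v i - x i) := by ring
          rw [e]; exact abs_add_le _ _
        linarith
      · by_contra hc
        push Not at hc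
        apply hDne
        simp only [hD]
        rw [hup_out' z hc, hlo_out' z hc]; ring
      · by_contra hc
        push Not at hc
        apply hDne
        simp only [hD]
        rw [hup_out z hc, hlo_out z hc]; ring
    have hgid : ∀ z ∈ (closedBall x₀ r ∩ S) \ EE S I x₀ r s, g z = z := by
      rintro z ⟨hz, hzE⟩
      by_cases hne : χ z * D z = 0
      · funext k
        simp only [hg, hne, mul_zero, ite_self, add_zero]
      · exfalso
        obtain ⟨h1, h2, h3⟩ := htube z hz hne
        apply hzE
        apply hEρE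
        exact ⟨hz, h1, by simp only [hw] at h2; linarith, by simp only [hw] at h3; linarith⟩
    have hgE : ∀ z ∈ EE S I x₀ r s, dist (pr I (g z)) (pr I x₀) ≤ s := by
      intro z hz
      by_cases hne : χ z * D z = 0
      · have : g z = z := by
          funext k
          simp only [hg, hne, mul_zero, ite_self, add_zero]
        rw [this]; exact hz.2
      · obtain ⟨h1, h2, h3⟩ := htube z hz.1 hne
        apply le_of_lt
        apply hco
        · intro i hi
          simp only [pr]
          rw [hgi z i hi]
          exact h1 i hi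
        · simp only [pr]
          rw [hwg z]
          have h4 := hDlo z
          have h5 : α z * lo z ≤ 1 * w z :=
            mul_le_mul (hα1 z) ((hlot z).trans (max_le le_rfl h2.le)) (hlo0 z) zero_le_one
          have h6 : - w z ≤ D z := by linarith
          have h7 : χ z * (- w z) ≤ χ z * D z := mul_le_mul_of_nonneg_left h6 (hχ0 z)
          have h8 : χ z * w z ≤ 1 * w z := mul_le_mul_of_nonneg_right (hχ1 z) h2.le
          linarith
        · simp only [pr]
          rw [hwg z]
          have h4 := hDhi z
          have h5 : (1 - α z) * up z ≤ 1 * (t - w z) :=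
            mul_le_mul (by linarith [hα0 z]) ((hupt z).trans (max_le le_rfl (by linarith)))
              (hup0 z) zero_le_one
          have h6 : D z ≤ t - w z := by linarith
          have h7 : χ z * D z ≤ χ z * (t - w z) := mul_le_mul_of_nonneg_left h6 (hχ0 z)
          have h8 : χ z * (t - w z) ≤ 1 * (t - w z) :=
            mul_le_mul_of_nonneg_right (hχ1 z) (by linarith)
          linarith
    -- the missing point
    set p : I → ℝ := fun i => if i = i₀ then x i₀ + σ * (t / 2) else v i with hp
    have hpb : p ∈ ball (pr I x₀) s := by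
      rw [mem_ball]
      apply hco
      · intro i hi
        simp only [hp, if_neg hi]
        exact (hv3 i hi).le
      · simp only [hp, if_true]
        have : σ * (x i₀ + σ * (t / 2) - x i₀) = (σ * σ) * (t / 2) := by ring
        rw [this, hσ2]; linarith
      · simp only [hp, if_true]
        have : σ * (x i₀ + σ * (t / 2) - x i₀) = (σ * σ) * (t / 2) := by ring
        rw [this, hσ2]; linarith
    obtain ⟨z, hz, hzp⟩ := H.covering hm hgl hgid hgE hpb
    have hzi : ∀ i : I, i ≠ i₀ → z i = v i := by
      intro i hi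
      have := congrFun hzp i
      simp only [pr, hp, if_neg hi] at this
      rw [hgi z i hi] at this
      exact this
    have hz0 : w z + χ z * D z = t / 2 := by
      rw [← hwg z]
      have := congrFun hzp i₀
      simp only [pr, hp, if_true] at this
      rw [this]
      have : σ * (x i₀ + σ * (t / 2) - x i₀) = (σ * σ) * (t / 2) := by ring
      rw [this, hσ2, one_mul]
    have hχz : χ z = 1 := by
      have : Q z = 0 := by
        funext i
        by_cases hi : i = i₀
        · simp only [hQ, if_pos hi, Pi.zero_apply]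
        · simp only [hQ, if_neg hi, Pi.zero_apply]
          rw [hzi i hi, sub_self]
      simp only [hχ, this, norm_zero, mul_zero, sub_zero]
      exact max_eq_right zero_le_one
    rw [hχz, one_mul] at hz0
    have hw1 : 0 < w z := by
      by_contra hc
      push Not at hc
      have : D z = 0 := by
        simp only [hD]
        rw [hup_out' z hc, hlo_out' z hc]; ring
      rw [this] at hz0
      linarith
    have hw2 : w z < t := by
      by_contra hc
      push Not at hc
      have : D z = 0 := by
        simp only [hD]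
        rw [hup_out z hc, hlo_out z hc]; ring
      rw [this] at hz0
      linarith
    have hzρ : z ∈ Eρ := by
      refine ⟨hz, ?_, ?_, ?_⟩
      · intro i hi
        rw [hzi i hi]
        exact (hv3 i hi).le
      · simp only [hw] at hw1; linarith
      · simp only [hw] at hw2; linarith
    have hPz : η ≤ |z j - τ| := by
      by_contra hc
      push Not at hc
      have h1 : P z ∈ ball v η₀ := by
        rw [mem_ball, dist_pi_lt_iff hη₀]
        intro i
        rw [Real.dist_eq]
        by_cases hi : i = i₀
        · simp only [hP, if_pos hi]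
          rw [hi]
          exact lt_of_lt_of_le hc hηη
        · simp only [hP, if_neg hi]
          rw [hzi i hi, sub_self, abs_zero]
          exact hη₀
      exact hη₀' h1 ⟨z, hzρ, rfl⟩
    rcases le_abs.mp hPz with hup' | hlo'
    · -- upper part
      have hαz : α z = 0 := by
        simp only [hα]
        apply max_eq_left
        apply (min_le_right _ _).trans
        apply mul_nonpos_of_nonneg_of_nonpos (by positivity) (by linarith)
      have hwρ : ρ < w z := by
        by_contra hc
        push Not at hc
        have h1 : dist (pr I z) (pr I x) ≤ ρ := by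
          rw [dist_pi_le_iff hρ0.le]
          intro i
          rw [Real.dist_eq]
          by_cases hi : i = i₀
          · subst hi
            simp only [pr]
            have h2 : |z i - x i| = |w z| := by
              simp only [hw]; rw [abs_mul, hσa, one_mul]
            rw [h2, abs_of_pos hw1]; exact hc
          · simp only [pr]
            rw [hzi i hi]
            exact (hv3 i hi).le
        have h2 := hu1 z hz (lt_of_le_of_lt h1 hρ1)
        rw [abs_lt] at h2
        linarith
      have h1 : up z = t - w z := by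
        simp only [hup]
        rw [max_eq_left (by linarith), max_eq_left hw1.le]
        apply min_eq_left
        have : t < K * w z := by
          calc t = K * ρ := by simp only [hK]; field_simp
            _ < K * w z := by gcongr
        linarith
      have h2 : D z = t - w z := by
        simp only [hD, hαz, h1]; ring
      rw [h2] at hz0
      linarith
    · -- lower part
      have hαz : α z = 1 := by
        simp only [hα]
        have h1 : 1 ≤ (2 * η)⁻¹ * (τ + η - z j) := by
          rw [le_inv_mul_iff₀ (by positivity)]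
          linarith
        rw [min_eq_left h1]
        exact max_eq_right zero_le_one
      have hwρ : w z < t - ρ := by
        by_contra hc
        push Not at hc
        have h1 : dist (pr I z) (pr I y) ≤ ρ := by
          rw [dist_pi_le_iff hρ0.le]
          intro i
          rw [Real.dist_eq]
          by_cases hi : i = i₀
          · subst hi
            simp only [pr]
            have h2 : |z i - y i| = |w z - t| := by
              have h3 : w z - t = σ * (z i - y i) := by
                simp only [hw]
                have : σ * (z i - y i) = σ * (z i - x i) - σ * (y i - x i) := by ring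
                rw [this, hσt]
                have : σ * (σ * t) = (σ * σ) * t := by ring
                rw [this, hσ2, one_mul]
              rw [h3, abs_mul, hσa, one_mul]
            rw [h2, abs_le]
            constructor <;> linarith
          · simp only [pr]
            rw [hzi i hi, ← hxy i hi]
            exact (hv3 i hi).le
        have h2 := hu2 z hz (lt_of_le_of_lt h1 hρ2)
        rw [abs_lt] at h2
        linarith
      have h1 : lo z = w z := by
        simp only [hlo]
        rw [max_eq_left hw1.le, max_eq_left (by linarith)]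
        apply min_eq_left
        have : t ≤ K * (t - w z) := by
          calc t = K * ρ := by simp only [hK]; field_simp
            _ ≤ K * (t - w z) := by gcongr; linarith
        linarith
      have h2 : D z = - w z := by
        simp only [hD, hαz, h1]; ring
      rw [h2] at hz0
      linarith
  -- volumes
  set R : ENNReal := ∏ i ∈ (Finset.univ.erase i₀ : Finset I), ENNReal.ofReal (2 * ρ) with hR
  have hR0 : R ≠ 0 := by
    rw [hR, Finset.prod_ne_zero_iff]
    intro i _
    have : 0 < ENNReal.ofReal (2 * ρ) := by rw [ENNReal.ofReal_pos]; positivity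
    exact this.ne'
  have hRt : R ≠ ⊤ := by
    rw [hR]
    exact (ENNReal.prod_lt_top (fun i _ => ENNReal.ofReal_lt_top)).ne
  have hvolbox : ENNReal.ofReal (y j - x j - 2 * δ) * R ≤ μH[(m : ℝ)] Eρ := by
    have h1 : (Set.pi univ (fun i : I => if i = i₀ then Ioo (x j + δ) (y j - δ) else
        Ioo (x i - ρ) (x i + ρ))) ⊆ P '' Eρ := by
      intro v hv
      rw [mem_univ_pi] at hv
      apply hcov v
      · have := hv i₀; rw [if_pos rfl] at this; exact this.1
      · have := hv i₀; rw [if_pos rfl] at this; exact this.2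
      · intro i hi
        have := hv i; rw [if_neg hi] at this
        rw [abs_lt]
        constructor <;> linarith [this.1, this.2]
    have h2 : volume (Set.pi univ (fun i : I => if i = i₀ then Ioo (x j + δ) (y j - δ) else
        Ioo (x i - ρ) (x i + ρ))) = ENNReal.ofReal (y j - x j - 2 * δ) * R := by
      rw [volume_pi_pi, ← Finset.mul_prod_erase Finset.univ _ (Finset.mem_univ i₀), if_pos rfl,
        Real.volume_Ioo, hR]
      congr 1
      · congr 1; ring
      · apply Finset.prod_congr rfl
        intro i hi
        rw [if_neg (Finset.ne_of_mem_erase hi), Real.volume_Ioo]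
        congr 1; ring
    rw [← h2]
    refine (measure_mono h1).trans ?_
    rw [← H.hm_vol]
    exact hm_image_le hPl.lipschitzOnWith m
  have hvoltube : μH[(m : ℝ)] Eρ ≤ ENNReal.ofReal (t + 2 * ρ) * R := by
    refine (H.measure_le hEρc.measurableSet hEρE).trans ?_
    have h1 : pr I '' Eρ ⊆ (Set.pi univ (fun i : I => if i = i₀ then
        Icc (min (x i₀) (y i₀) - ρ) (max (x i₀) (y i₀) + ρ) else Icc (x i - ρ) (x i + ρ))) := by
      rintro _ ⟨z, ⟨hz, h1, h2, h3⟩, rfl⟩
      rw [mem_univ_pi]
      intro i
      by_cases hi : i = i₀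
      · rw [if_pos hi]
        subst hi
        simp only [pr, mem_Icc]
        rcases hσ with h | h
        · rw [h] at h2 h3 hσt
          rw [min_eq_left (by linarith), max_eq_right (by linarith)]
          constructor <;> linarith
        · rw [h] at h2 h3 hσt
          rw [min_eq_right (by linarith), max_eq_left (by linarith)]
          constructor <;> linarith
      · rw [if_neg hi]
        have := h1 i hi
        rw [abs_le] at this
        simp only [pr, mem_Icc]
        constructor <;> linarith
    refine (measure_mono h1).trans (le_of_eq ?_)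
    rw [volume_pi_pi, ← Finset.mul_prod_erase Finset.univ _ (Finset.mem_univ i₀), if_pos rfl,
        Real.volume_Icc, hR]
    congr 1
    · congr 1
      have : max (x i₀) (y i₀) - min (x i₀) (y i₀) = t := by
        rw [max_sub_min_eq_abs, ht, abs_sub_comm]
      linarith
    · apply Finset.prod_congr rfl
      intro i hi
      rw [if_neg (Finset.ne_of_mem_erase hi), Real.volume_Icc]
      congr 1; ring
  have hfinal := hvolbox.trans hvoltube
  rw [ENNReal.mul_le_mul_iff_left hR0 hRt] at hfinal
  rw [ENNReal.ofReal_le_ofReal_iff (by linarith)] at hfinal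
  linarith

end Flat

end Run7.h763
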