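import Pool.Agent.Run7.h763.Flat3

/-! # Path lifting and the Lipschitz estimate -/

open MeasureTheory Measure Metric Set

set_option linter.unusedSectionVars false

namespace Run7.h763

variable {ι : Type*} [Fintype ι] [DecidableEq ι]

namespace Flat

variable {m : ℕ} {S : Set (ι → ℝ)} {I : Finset ι} {x₀ : ι → ℝ} {r s r' : ℝ} {lam kap : NNReal}
  {a : (I → ℝ) → ι → ℝ}

/-- points of `S` near a given one whose projection avoids a null set -/
lemma exists_near (H : Flat m S I x₀ r s r' lam kap a) {y : ι → ℝ}
    (hy : y ∈ closedBall x₀ r ∩ S) (hyb : pr I y ∈ ball (pr I x₀) s)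
    {B : Set (I → ℝ)} (hB : volume B = 0) {η : ℝ} (hη : 0 < η) :
    ∃ u ∈ closedBall x₀ r ∩ S, dist u y ≤ η ∧ pr I u ∉ B := by
  by_contra hcon
  push Not at hcon
  have hyE := mem_EE_of_ball hy hyb
  have h1 := H.nbhd hyE
  rw [mem_ball] at hyb
  obtain ⟨η', hη', h2, h3, h4⟩ : ∃ η' > 0, η' ≤ η ∧ dist y x₀ + η' ≤ r ∧
      dist (pr I y) (pr I x₀) + η' ≤ s := by
    refine ⟨min η (min (r - dist y x₀) (s - dist (pr I y) (pr I x₀))), ?_, min_le_left _ _, ?_, ?_⟩
    · exact lt_min hη (lt_min (by linarith) (by linarith))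
    · have := (min_le_right η (min (r - dist y x₀) (s - dist (pr I y) (pr I x₀)))).trans
        (min_le_left _ _)
      linarith
    · have := (min_le_right η (min (r - dist y x₀) (s - dist (pr I y) (pr I x₀)))).trans
        (min_le_right _ _)
      linarith
  have hsub : closedBall y η' ∩ S ⊆ EE S I x₀ r s := by
    rintro u ⟨hu, huS⟩
    rw [mem_closedBall] at hu
    refine ⟨⟨?_, huS⟩, ?_⟩
    · rw [mem_closedBall]
      have := dist_triangle u y x₀
      linarith
    · simp only [mem_ofPred_eq]
      have h5 := (pr_lip I).dist_le_mul u y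
      rw [NNReal.coe_one, one_mul] at h5
      have := dist_triangle (pr I u) (pr I y) (pr I x₀)
      linarith
  have hmeas : MeasurableSet (closedBall y η' ∩ S) :=
    (isClosed_closedBall.inter H.good.closed).measurableSet
  have h5 := H.measure_le hmeas hsub
  have h6 : pr I '' (closedBall y η' ∩ S) ⊆ B := by
    rintro _ ⟨u, hu, rfl⟩
    apply hcon u (hsub hu).1
    exact (mem_closedBall.mp hu.1).trans h2
  have h7 := H.good.full y hy.2 η' hη'
  have h8 := h5.trans ((measure_mono h6).trans hB.le)
  exact absurd h7 (not_lt.mpr h8)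

/-- Path lifting in a coordinate direction. -/
lemma lift (H : Flat m S I x₀ r s r' lam kap a) (hm : 0 < m) {y : ι → ℝ}
    (hy : y ∈ closedBall x₀ r ∩ S) (hyb : pr I y ∈ ball (pr I x₀) s) (i₀ : I) (b : ℝ)
    (hq : Function.update (pr I y) i₀ b ∈ ball (pr I x₀) s) :
    ∃ z ∈ closedBall x₀ r ∩ S, pr I z = Function.update (pr I y) i₀ b ∧
      ∀ j, j ∉ I → |z j - y j| ≤ |b - y i₀| := by
  obtain ⟨e, he⟩ : ∃ e, e = b - y i₀ := ⟨_, rfl⟩
  set R : Set ((ι → ℝ) × (ι → ℝ)) := ((closedBall x₀ r ∩ S) ×ˢ (closedBall x₀ r ∩ S)) ∩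
    {w | pr I w.2 = pr I w.1 + Pi.single i₀ e ∧ ∀ j, j ∉ I → |w.2 j - w.1 j| ≤ |e|} with hR
  have hRc : IsCompact R := by
    apply (H.isCompact_CS.prod H.isCompact_CS).inter_right
    have e : {w : (ι → ℝ) × (ι → ℝ) | pr I w.2 = pr I w.1 + Pi.single i₀ e ∧
        ∀ j, j ∉ I → |w.2 j - w.1 j| ≤ |e|} =
        {w | pr I w.2 = pr I w.1 + Pi.single i₀ e} ∩
          ⋂ (j : ι) (_ : j ∉ I), {w | |w.2 j - w.1 j| ≤ |e|} := by
      ext w
      simp only [mem_ofPred_eq, mem_inter_iff, mem_iInter]
    rw [e]
    apply IsClosed.inter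
    · exact isClosed_eq ((pr_lip I).continuous.comp continuous_snd)
        (((pr_lip I).continuous.comp continuous_fst).add continuous_const)
    · apply isClosed_iInter; intro j
      apply isClosed_iInter; intro _
      exact isClosed_le ((((continuous_apply j).comp continuous_snd).sub
        ((continuous_apply j).comp continuous_fst)).abs) continuous_const
  have hfc : IsClosed (Prod.fst '' R) := (hRc.image continuous_fst).isClosed
  have hupd : Function.update (pr I y) i₀ b = pr I y + Pi.single i₀ e := by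
    funext i
    by_cases hi : i = i₀
    · subst hi
      simp only [Function.update_self, Pi.add_apply, Pi.single_eq_same, pr]
      linarith
    · simp only [Function.update_of_ne hi, Pi.add_apply, Pi.single_eq_of_ne hi, add_zero]
  rw [hupd] at hq
  have hmem : y ∈ Prod.fst '' R := by
    rw [← hfc.closure_eq, Metric.mem_closure_iff]
    intro η hη
    obtain ⟨ρ, hρ, hρ1, hρ2, hρ3⟩ : ∃ ρ > 0, ρ < η ∧
        dist (pr I y) (pr I x₀) + ρ < s ∧
        dist (pr I y + Pi.single i₀ e) (pr I x₀) + ρ < s := by
      rw [mem_ball] at hyb hq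
      refine ⟨min η (min (s - dist (pr I y) (pr I x₀))
        (s - dist (pr I y + Pi.single i₀ e) (pr I x₀))) / 2, ?_, ?_, ?_, ?_⟩
      · have : 0 < min η (min (s - dist (pr I y) (pr I x₀))
          (s - dist (pr I y + Pi.single i₀ e) (pr I x₀))) :=
          lt_min hη (lt_min (by linarith) (by linarith))
        linarith
      · have := min_le_left η (min (s - dist (pr I y) (pr I x₀))
          (s - dist (pr I y + Pi.single i₀ e) (pr I x₀)))
        have h0 : 0 < min η (min (s - dist (pr I y) (pr I x₀))
          (s - dist (pr I y + Pi.single i₀ e) (pr I x₀))) :=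
          lt_min hη (lt_min (by linarith) (by linarith))
        linarith
      · have := (min_le_right η (min (s - dist (pr I y) (pr I x₀))
          (s - dist (pr I y + Pi.single i₀ e) (pr I x₀)))).trans (min_le_left _ _)
        linarith
      · have := (min_le_right η (min (s - dist (pr I y) (pr I x₀))
          (s - dist (pr I y + Pi.single i₀ e) (pr I x₀)))).trans (min_le_right _ _)
        linarith
    have hnull : volume (NN S I x₀ r s ∪ (fun p => p + Pi.single i₀ e) ⁻¹' NN S I x₀ r s) = 0 := by
      apply measure_union_null H.mult_null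
      rw [measure_preimage_add_right]
      exact H.mult_null
    obtain ⟨u, hu, huy, huN⟩ := H.exists_near hy hyb hnull hρ
    have h5 := (pr_lip I).dist_le_mul u y
    rw [NNReal.coe_one, one_mul] at h5
    have hub : pr I u ∈ ball (pr I x₀) s := by
      rw [mem_ball]
      have := dist_triangle (pr I u) (pr I y) (pr I x₀)
      linarith
    have hub' : pr I u + Pi.single i₀ e ∈ ball (pr I x₀) s := by
      rw [mem_ball]
      have h6 := dist_triangle (pr I u + Pi.single i₀ e) (pr I y + Pi.single i₀ e) (pr I x₀)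
      have h7 : dist (pr I u + Pi.single i₀ e) (pr I y + Pi.single i₀ e) =
          dist (pr I u) (pr I y) := dist_add_right _ _ _
      linarith
    obtain ⟨z, hz, hzp⟩ := H.no_hole hm hub'
    have huN1 : pr I u ∉ NN S I x₀ r s := fun h => huN (Or.inl h)
    have huN2 : pr I z ∉ NN S I x₀ r s := by
      rw [hzp]
      exact fun h => huN (Or.inr h)
    have hzb : pr I z ∈ ball (pr I x₀) s := by rw [hzp]; exact hub'
    have uu := H.unique_of hu hub huN1
    have uz := H.unique_of hz.1 hzb huN2
    have hne : ∀ i : I, i ≠ i₀ → u i = z i := by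
      intro i hi
      have := congrFun hzp i
      simp only [Pi.add_apply, Pi.single_eq_of_ne hi, add_zero, pr] at this
      exact this.symm
    have hei : z i₀ - u i₀ = e := by
      have := congrFun hzp i₀
      simp only [Pi.add_apply, Pi.single_eq_same, pr] at this
      linarith
    refine ⟨u, ⟨(u, z), ⟨⟨hu, hz.1⟩, hzp, ?_⟩, rfl⟩, ?_⟩
    · intro j hj
      have h1 := H.box hm hu hz.1 i₀ hne hub hzb uu uz hj
      have h2 := H.box hm hz.1 hu i₀ (fun i hi => (hne i hi).symm) hzb hub uz uu hj
      rw [hei] at h1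
      rw [show u i₀ - z i₀ = - e by linarith, abs_neg] at h2
      simp only
      rw [abs_le]
      constructor <;> linarith
    · rw [dist_comm]; linarith
  obtain ⟨⟨y', z⟩, ⟨⟨hy', hz⟩, h1, h2⟩, hyy⟩ := hmem
  simp only at hyy h1 h2 hy' hz
  subst hyy
  refine ⟨z, hz, ?_, ?_⟩
  · rw [hupd]; exact h1
  · rw [← he]; exact h2

/-- Chains of path liftings. -/
lemma chain (H : Flat m S I x₀ r s r' lam kap a) (hm : 0 < m) {y : ι → ℝ}
    (hy : y ∈ closedBall x₀ r ∩ S) (hyb : pr I y ∈ ball (pr I x₀) s) {q : I → ℝ}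
    (hq : q ∈ ball (pr I x₀) s) (T : Finset I) :
    ∃ z ∈ closedBall x₀ r ∩ S, (∀ i : I, z i = if i ∈ T then q i else y i) ∧
      ∀ j, j ∉ I → |z j - y j| ≤ ∑ i ∈ T, |q i - y i| := by
  classical
  have hball : ∀ T : Finset I, (fun i : I => if i ∈ T then q i else y i) ∈ ball (pr I x₀) s := by
    intro T
    rw [mem_ball, dist_pi_lt_iff H.s0] at hq hyb ⊢
    intro i
    split_ifs
    · exact hq i
    · exact hyb i
  induction T using Finset.induction with
  | empty => exact ⟨y, hy, by simp, by simp⟩
  | insert i₀ T hi ih =>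
    obtain ⟨z, hz, h1, h2⟩ := ih
    have hprz : pr I z = fun i : I => if i ∈ T then q i else y i := funext h1
    have hupd : Function.update (pr I z) i₀ (q i₀) =
        fun i : I => if i ∈ insert i₀ T then q i else y i := by
      funext i
      by_cases hii : i = i₀
      · subst hii
        simp
      · rw [Function.update_of_ne hii, hprz]
        simp [hii]
    obtain ⟨z', hz', h1', h2'⟩ := H.lift hm hz (by rw [hprz]; exact hball T) i₀ (q i₀)
      (by rw [hupd]; exact hball _)
    refine ⟨z', hz', ?_, ?_⟩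
    · intro i
      have := congrFun h1' i
      rw [hupd] at this
      exact this
    · intro j hj
      rw [Finset.sum_insert hi]
      have h3 := h2' j hj
      have h4 := h2 j hj
      have h5 : z i₀ = y i₀ := by
        rw [h1 i₀, if_neg hi]
      rw [h5] at h3
      have e : z' j - y j = (z' j - z j) + (z j - y j) := by ring
      rw [e]
      exact (abs_add_le _ _).trans (add_le_add h3 h4)

/-- The Lipschitz estimate with the `l^1` norm of the projection. -/
lemma lip1 (H : Flat m S I x₀ r s r' lam kap a) (hm : 0 < m) {x y : ι → ℝ}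
    (hx : x ∈ closedBall x₀ r ∩ S) (hy : y ∈ closedBall x₀ r ∩ S)
    (hxb : pr I x ∈ ball (pr I x₀) s) (hyb : pr I y ∈ ball (pr I x₀) s) {j : ι} (hj : j ∉ I) :
    |y j - x j| ≤ ∑ i : I, |y i - x i| := by
  apply le_of_forall_pos_le_add
  intro η hη
  obtain ⟨ρ, hρ, hρ1, hρ2⟩ : ∃ ρ > 0, ρ * (1 + Fintype.card I) ≤ η ∧
      dist (pr I y) (pr I x₀) + ρ < s := by
    rw [mem_ball] at hyb
    have hc : (0:ℝ) < 1 + Fintype.card I := by positivity
    refine ⟨min (η / (1 + Fintype.card I)) ((s - dist (pr I y) (pr I x₀)) / 2),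
      lt_min (by positivity) (by linarith), ?_, ?_⟩
    · have := min_le_left (η / (1 + Fintype.card I)) ((s - dist (pr I y) (pr I x₀)) / 2)
      calc _ ≤ η / (1 + Fintype.card I) * (1 + Fintype.card I) := by gcongr
        _ = η := by field_simp
    · have := min_le_right (η / (1 + Fintype.card I)) ((s - dist (pr I y) (pr I x₀)) / 2)
      linarith
  obtain ⟨u, hu, huy, huN⟩ := H.exists_near hy hyb H.mult_null hρ
  have h5 := (pr_lip I).dist_le_mul u y
  rw [NNReal.coe_one, one_mul] at h5
  have hub : pr I u ∈ ball (pr I x₀) s := by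
    rw [mem_ball]
    have := dist_triangle (pr I u) (pr I y) (pr I x₀)
    linarith
  obtain ⟨z, hz, hz1, hz2⟩ := H.chain hm hx hxb hub Finset.univ
  have hzu : z = u := by
    apply H.unique_of hu hub huN z hz
    funext i
    have := hz1 i
    rw [if_pos (Finset.mem_univ i)] at this
    exact this
  rw [hzu] at hz2
  have h6 := hz2 j hj
  have h7 : |y j - x j| ≤ |u j - x j| + ρ := by
    have := coord_le u y j
    have e : y j - x j = (u j - x j) + -(u j - y j) := by ring
    rw [e]
    refine (abs_add_le _ _).trans ?_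
    rw [abs_neg]; linarith
  have h8 : ∑ i : I, |pr I u i - x i| ≤ ∑ i : I, (|y i - x i| + ρ) := by
    apply Finset.sum_le_sum
    intro i _
    have := coord_le u y i
    simp only [pr]
    have e : u i - x i = (y i - x i) + (u i - y i) := by ring
    rw [e]
    refine (abs_add_le _ _).trans ?_
    linarith
  rw [Finset.sum_add_distrib, Finset.sum_const, Finset.card_univ, nsmul_eq_mul] at h8
  linarith

/-- The projection is injective on the part of `S` over the open cube. -/
lemma inj (H : Flat m S I x₀ r s r' lam kap a) (hm : 0 < m) {x y : ι → ℝ}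
    (hx : x ∈ closedBall x₀ r ∩ S) (hy : y ∈ closedBall x₀ r ∩ S)
    (hxb : pr I x ∈ ball (pr I x₀) s) (hyb : pr I y ∈ ball (pr I x₀) s)
    (h : pr I x = pr I y) : x = y := by
  funext j
  by_cases hj : j ∈ I
  · exact congrFun h ⟨j, hj⟩
  · have h1 := H.lip1 hm hx hy hxb hyb hj
    have h2 : ∑ i : I, |y i - x i| = 0 := by
      apply Finset.sum_eq_zero
      intro i _
      have := congrFun h i
      simp only [pr] at this
      rw [this, sub_self, abs_zero]
    rw [h2] at h1
    have := abs_nonpos_iff.mp h1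
    linarith

end Flat

end Run7.h763
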