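import Pool.Agent.Run7.h763.Upg
import Pool.Agent.Run7.h763.FFfin

/-! # The shell theorem, tangent cones, entire sets -/

open MeasureTheory Measure Metric Set Filter Topology

set_option linter.unusedSectionVars false

namespace Run7.h763

variable {ι : Type*} [Fintype ι] [DecidableEq ι] {m : ℕ}

/-- The support of a closed locally finite minimizing set is `Good`. -/
theorem good_support {S : Set (ι → ℝ)} (hc : IsClosed S)
    (hfin : ∀ (c : ι → ℝ) (r : ℝ), μH[(m : ℝ)] (closedBall c r ∩ S) < ⊤) (hmin : IsMin m S) :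
    Good m ((μH[(m : ℝ)]).restrict S).support ∧
      ((μH[(m : ℝ)]).restrict S).support ⊆ S ∧
      μH[(m : ℝ)] (S \ ((μH[(m : ℝ)]).restrict S).support) = 0 := by
  set μ : Measure (ι → ℝ) := μH[(m : ℝ)] with hμ
  set T := (μ.restrict S).support with hT
  have hTS : T ⊆ S := by
    have := (support_restrict_subset (μ := μ) (s := S)).trans inter_subset_left
    rwa [hc.closure_eq] at this
  have hTc : IsClosed T := isClosed_support
  have hnull : μ (S \ T) = 0 := by
    have h1 : (μ.restrict S) Tᶜ = 0 := measure_compl_support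
    rw [Measure.restrict_apply hTc.isOpen_compl.measurableSet] at h1
    rw [Set.sdiff_eq, inter_comm]
    exact h1
  have hle : ∀ A : Set (ι → ℝ), μ (A ∩ S) ≤ μ (A ∩ T) := by
    intro A
    have h1 : A ∩ S ⊆ (A ∩ T) ∪ (S \ T) := by
      intro x hx
      by_cases hxT : x ∈ T
      · exact Or.inl ⟨hx.1, hxT⟩
      · exact Or.inr ⟨hx.2, hxT⟩
    refine (measure_mono h1).trans ((measure_union_le _ _).trans ?_)
    rw [hnull, add_zero]
  refine ⟨⟨hTc, ?_, ?_, ?_⟩, hTS, hnull⟩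
  · intro c r
    exact lt_of_le_of_lt (measure_mono (inter_subset_inter_right _ hTS)) (hfin c r)
  · intro c r hr f hf hfo hfm
    have h1 := hmin c r hr f hf hfo hfm
    have h2 : μ (closedBall c r ∩ T) ≤ μ (closedBall c r ∩ S) :=
      measure_mono (inter_subset_inter_right _ hTS)
    refine h2.trans (h1.trans ?_)
    obtain ⟨K, hK⟩ := hf
    have h3 : f '' (closedBall c r ∩ S) ⊆ f '' (closedBall c r ∩ T) ∪ f '' (S \ T) := by
      rw [← image_union]
      apply image_mono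
      intro x hx
      by_cases hxT : x ∈ T
      · exact Or.inl ⟨hx.1, hxT⟩
      · exact Or.inr ⟨hx.2, hxT⟩
    have h4 : μ (f '' (S \ T)) = 0 := by
      have := (hK.lipschitzOnWith (s := S \ T)).hausdorffMeasure_image_le (d := (m : ℝ))
        (by positivity)
      rw [← hμ, hnull, mul_zero] at this
      exact le_antisymm this zero_le
    refine (measure_mono h3).trans ((measure_union_le _ _).trans ?_)
    rw [h4, add_zero]
  · intro x hx r hr
    have h1 : 0 < (μ.restrict S) (closedBall x r) :=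
      (mem_support_iff_forall x).mp hx _ (closedBall_mem_nhds x hr)
    rw [Measure.restrict_apply isClosed_closedBall.measurableSet] at h1
    exact lt_of_lt_of_le h1 (hle _)

/-- **The shell theorem.** -/
theorem shell {S : Set (ι → ℝ)} (hS : Good m S) (hm : 0 < m) {I : Finset ι} (hI : I.card = m)
    {x₀ : ι → ℝ} (hx₀ : x₀ ∈ S) {r s r' : ℝ} (hs : 0 < s) (hsr : s < r) (hr' : r' < r)
    (hout : ∀ x ∈ closedBall x₀ r ∩ S, r' < dist x x₀ → s < dist (pr I x) (pr I x₀) ∧
      ∀ j, j ∉ I → |x j - x₀ j| ≤ dist (pr I x) (pr I x₀) - s) :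
    (∀ q ∈ ball (pr I x₀) s, ∃ y ∈ S, dist y x₀ < r ∧ pr I y = q) ∧
    (∀ x ∈ closedBall x₀ r ∩ S, ∀ y ∈ closedBall x₀ r ∩ S, pr I x ∈ ball (pr I x₀) s →
      pr I y ∈ ball (pr I x₀) s → ∀ j, |y j - x j| ≤ dist (pr I y) (pr I x)) := by
  have H : Flat m S I x₀ r s r' 0 1 (fun _ => x₀) := by
    refine ⟨hS, hI, hx₀, by simp, fun j => LipschitzWith.const _, hs, hsr, hr', ?_, ?_⟩
    · intro j _
      simp only [sub_self, abs_zero, NNReal.coe_one, one_mul]
      linarith
    · intro x hx hxd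
      obtain ⟨h1, h2⟩ := hout x hx hxd
      refine ⟨h1, fun j hj => ?_⟩
      rw [NNReal.coe_one, one_mul]
      exact h2 j hj
  refine ⟨?_, ?_⟩
  · intro q hq
    obtain ⟨y, hy, hyq⟩ := H.no_hole hm hq
    exact ⟨y, hy.1.2, H.nbhd hy, hyq⟩
  · intro x hx y hy hxb hyb j
    exact H.lip_one hm hx hy hxb hyb j

lemma dist_eq_pr {I : Finset ι} {x y : ι → ℝ} {l c : ℝ} (hl0 : 0 ≤ l)
    (h : ∀ j, j ∉ I → |x j - y j| ≤ l * dist (pr I x) (pr I y) + c)
    (hc : c < (1 - l) * dist x y) : dist (pr I x) (pr I y) = dist x y := by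
  apply le_antisymm
  · have := (pr_lip I).dist_le_mul x y
    rwa [NNReal.coe_one, one_mul] at this
  · by_contra hcon
    push Not at hcon
    have hd : 0 < dist x y := lt_of_le_of_lt dist_nonneg hcon
    have : dist x y < dist x y := by
      rw [dist_pi_lt_iff hd]
      intro j
      rw [Real.dist_eq]
      by_cases hj : j ∈ I
      · exact lt_of_le_of_lt (coord_le (pr I x) (pr I y) ⟨j, hj⟩) hcon
      · refine lt_of_le_of_lt (h j hj) ?_
        have : l * dist (pr I x) (pr I y) ≤ l * dist x y := by gcongr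
        linarith
    exact lt_irrefl _ this

/-- **Entire minimizing sets in a strict cone.** -/
theorem entire {S : Set (ι → ℝ)} (hS : Good m S) (hm : 0 < m) {I : Finset ι} (hI : I.card = m)
    (hne : S.Nonempty) {l C : ℝ} (hl0 : 0 ≤ l) (hl : l < 1)
    (h : ∀ y ∈ S, ∀ j, j ∉ I → |y j| ≤ l * ‖pr I y‖ + C) :
    (∀ q : I → ℝ, ∃ y ∈ S, pr I y = q) ∧
    (∀ x ∈ S, ∀ y ∈ S, ∀ j, |y j - x j| ≤ dist (pr I y) (pr I x)) := by
  obtain ⟨x₀, hx₀⟩ := hne
  -- constant relative to `x₀`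
  obtain ⟨C', hC'0, hC'⟩ : ∃ C' ≥ 0, ∀ y ∈ S, ∀ j, j ∉ I →
      |y j - x₀ j| ≤ l * dist (pr I y) (pr I x₀) + C' := by
    refine ⟨max 0 (C + l * ‖pr I x₀‖ + ‖x₀‖), le_max_left _ _, ?_⟩
    intro y hy j hj
    have h1 := h y hy j hj
    have h2 : ‖pr I y‖ ≤ dist (pr I y) (pr I x₀) + ‖pr I x₀‖ := by
      rw [dist_eq_norm]
      have := norm_add_le (pr I y - pr I x₀) (pr I x₀)
      rwa [sub_add_cancel] at this
    have h3 : |x₀ j| ≤ ‖x₀‖ := by
      rw [← Real.norm_eq_abs]; exact norm_le_pi_norm x₀ j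
    have h4 : |y j - x₀ j| ≤ |y j| + |x₀ j| := abs_sub _ _
    have h5 := le_max_right 0 (C + l * ‖pr I x₀‖ + ‖x₀‖)
    have h6 : l * ‖pr I y‖ ≤ l * (dist (pr I y) (pr I x₀) + ‖pr I x₀‖) := by gcongr
    linarith
  -- large cubes
  have key : ∀ R : ℝ, 0 < R → 4 * C' < (1 - l) * R →
      (∀ q ∈ ball (pr I x₀) ((1 - l) * R / 4), ∃ y ∈ S, dist y x₀ < R ∧ pr I y = q) ∧
      (∀ x ∈ closedBall x₀ R ∩ S, ∀ y ∈ closedBall x₀ R ∩ S,
        pr I x ∈ ball (pr I x₀) ((1 - l) * R / 4) →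
        pr I y ∈ ball (pr I x₀) ((1 - l) * R / 4) → ∀ j, |y j - x j| ≤ dist (pr I y) (pr I x)) := by
    intro R hR hRC
    have hlR : 0 < (1 - l) * R := by
      apply mul_pos <;> linarith
    have hlR' : (1 - l) * R ≤ R := by nlinarith
    apply shell hS hm hI hx₀ (r' := R / 2) (by linarith) (by linarith) (by linarith)
    intro x hx hxd
    have h1 := hC' x hx.2
    have h2 : dist (pr I x) (pr I x₀) = dist x x₀ := by
      apply dist_eq_pr hl0 h1
      have : (1 - l) * (R / 2) < (1 - l) * dist x x₀ := by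
        apply mul_lt_mul_of_pos_left hxd; linarith
      linarith
    rw [h2]
    refine ⟨by linarith, fun j hj => ?_⟩
    have h3 := h1 j hj
    rw [h2] at h3
    have h4 : (1 - l) * (R / 2) < (1 - l) * dist x x₀ := by
      apply mul_lt_mul_of_pos_left hxd; linarith
    linarith
  have hexR : ∀ A : ℝ, ∃ R : ℝ, 0 < R ∧ 4 * C' < (1 - l) * R ∧ A < (1 - l) * R / 4 ∧ A ≤ R := by
    intro A
    refine ⟨(4 * C' + 4 * |A| + 1) / (1 - l), ?_, ?_, ?_, ?_⟩
    · apply div_pos <;> [positivity; linarith]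
    · rw [mul_div_cancel₀ _ (by linarith : (1 - l) ≠ 0)]
      have := abs_nonneg A
      linarith
    · rw [mul_div_cancel₀ _ (by linarith : (1 - l) ≠ 0)]
      have := le_abs_self A
      linarith
    · rw [le_div_iff₀ (by linarith)]
      have h1 := le_abs_self A
      have h2 := abs_nonneg A
      nlinarith
  refine ⟨?_, ?_⟩
  · intro q
    obtain ⟨R, hR, hRC, hRA, _⟩ := hexR (dist q (pr I x₀))
    obtain ⟨y, hy, _, hyq⟩ := (key R hR hRC).1 q (mem_ball.mpr hRA)
    exact ⟨y, hy, hyq⟩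
  · intro x hx y hy j
    obtain ⟨R, hR, hRC, hRA, hRA'⟩ := hexR (max (dist x x₀) (dist y x₀))
    have hpx := (pr_lip I).dist_le_mul x x₀
    have hpy := (pr_lip I).dist_le_mul y x₀
    rw [NNReal.coe_one, one_mul] at hpx hpy
    have h1 := le_max_left (dist x x₀) (dist y x₀)
    have h2 := le_max_right (dist x x₀) (dist y x₀)
    exact (key R hR hRC).2 x ⟨mem_closedBall.mpr (by linarith), hx⟩ y
      ⟨mem_closedBall.mpr (by linarith), hy⟩ (mem_ball.mpr (by linarith))
      (mem_ball.mpr (by linarith)) j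

/-- approximate tangent planes in the sense of small density of the complement of cones -/
def ApproxTan (m : ℕ) (S : Set (ι → ℝ)) (x : ι → ℝ) (T : Submodule ℝ (ι → ℝ)) : Prop :=
  ∀ s : ℝ, 0 < s → s < 1 → Tendsto (fun r : ℝ =>
    μH[(m : ℝ)] (S ∩ closedBall x r ∩ {y | s * dist y x ≤ infDist (y - x) (T : Set (ι → ℝ))}) /
      ENNReal.ofReal (r ^ m)) (𝓝[>] 0) (𝓝 0)

/-- approximate tangent planes are tangent planes -/
theorem tangent {S : Set (ι → ℝ)} (hS : Good m S) (hm : 0 < m) (hmn : m ≤ Fintype.card ι)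
    {x : ι → ℝ} {T : Submodule ℝ (ι → ℝ)} (hT : ApproxTan m S x T) {s₀ : ℝ}
    (hs₀ : 0 < s₀) (hs₁ : s₀ < 1) :
    ∃ R > 0, ∀ y ∈ S, dist y x < R → infDist (y - x) (T : Set (ι → ℝ)) ≤ s₀ * dist y x := by
  obtain ⟨c, hc, hdens⟩ := lower_density (ι := ι) hm hmn
  have h1 := hT (s₀ / 4) (by positivity) (by linarith)
  set ϑ : ℝ := c * (s₀ / 8) ^ m / 2 with hϑ
  have hϑ0 : 0 < ϑ := by positivity
  have h2 : ∀ᶠ r : ℝ in 𝓝[>] 0, μH[(m : ℝ)] (S ∩ closedBall x r ∩
      {y | s₀ / 4 * dist y x ≤ infDist (y - x) (T : Set (ι → ℝ))}) / ENNReal.ofReal (r ^ m) <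
      ENNReal.ofReal ϑ := h1.eventually_lt_const (by
        rw [ENNReal.ofReal_pos]; exact hϑ0)
  rw [eventually_nhdsWithin_iff, Metric.eventually_nhds_iff] at h2
  obtain ⟨R₁, hR₁, h3⟩ := h2
  refine ⟨R₁ / 2, by positivity, ?_⟩
  intro y hy hyd
  by_contra hcon
  push Not at hcon
  have hd0 : 0 < dist y x := by
    rcases (dist_nonneg (x := y) (y := x)).eq_or_lt with h | h
    · exfalso
      have hyx : y = x := dist_eq_zero.mp h.symm
      rw [hyx, sub_self, dist_self, mul_zero] at hcon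
      rw [infDist_zero_of_mem T.zero_mem] at hcon
      exact lt_irrefl _ hcon
    · exact h
  set d := dist y x with hd
  have h4 := h3 (y := 2 * d) (by
    rw [Real.dist_eq, sub_zero, abs_of_pos (by positivity)]; linarith) (by
    simp only [mem_Ioi]; positivity)
  have hsub : closedBall y (s₀ * d / 4) ∩ S ⊆ S ∩ closedBall x (2 * d) ∩
      {y | s₀ / 4 * dist y x ≤ infDist (y - x) (T : Set (ι → ℝ))} := by
    rintro z ⟨hz, hzS⟩
    rw [mem_closedBall] at hz
    have h5 : dist z x ≤ 2 * d := by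
      have := dist_triangle z y x
      have : s₀ * d ≤ 1 * d := by gcongr
      linarith
    refine ⟨⟨hzS, mem_closedBall.mpr h5⟩, ?_⟩
    simp only [mem_ofPred_eq]
    have h6 : infDist (y - x) (T : Set (ι → ℝ)) ≤ infDist (z - x) (T : Set (ι → ℝ)) +
        dist (y - x) (z - x) := infDist_le_infDist_add_dist
    have h7 : dist (y - x) (z - x) = dist z y := by
      rw [dist_sub_right, dist_comm]
    rw [h7] at h6
    have h8 : s₀ / 4 * dist z x ≤ s₀ / 4 * (2 * d) := by gcongr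
    nlinarith
  have h5 := hdens S hS y hy (s₀ * d / 4) (by positivity)
  have h6 := h5.trans (measure_mono hsub)
  rw [ENNReal.div_lt_iff (Or.inl (by
    rw [Ne, ENNReal.ofReal_eq_zero, not_le]; positivity)) (Or.inl ENNReal.ofReal_ne_top),
    ← ENNReal.ofReal_mul hϑ0.le] at h4
  have h7 := lt_of_le_of_lt h6 h4
  rw [ENNReal.ofReal_lt_ofReal_iff (by positivity)] at h7
  have h8 : ϑ * (2 * d) ^ m = c * (s₀ * d / 4) ^ m / 2 := by
    rw [hϑ]
    have : (s₀ / 8) ^ m * (2 * d) ^ m = (s₀ * d / 4) ^ m := by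
      rw [← mul_pow]; congr 1; ring
    rw [← this]; ring
  rw [h8] at h7
  have : 0 < c * (s₀ * d / 4) ^ m := by positivity
  linarith

/-- A plane on which the coordinates of `I` dominate strictly lies in a strict cone. -/
lemma cone_of_strict {I : Finset ι} {T : Submodule ℝ (ι → ℝ)}
    (hT : ∀ v ∈ T, v ≠ 0 → ∃ i ∈ I, ∀ j, j ∉ I → |v j| < |v i|) :
    ∃ l : ℝ, 0 ≤ l ∧ l < 1 ∧ ∀ v ∈ T, ∀ j, j ∉ I → |v j| ≤ l * ‖pr I v‖ := by
  have hTc : IsClosed (T : Set (ι → ℝ)) := T.closed_of_finiteDimensional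
  have hK : IsCompact ((T : Set (ι → ℝ)) ∩ sphere 0 1) :=
    (isCompact_sphere 0 1).inter_left hTc
  have h1 : ∀ j, ∃ δ > 0, j ∉ I → ∀ v ∈ (T : Set (ι → ℝ)) ∩ sphere 0 1,
      δ ≤ ‖pr I v‖ - |v j| := by
    intro j
    by_cases hj : j ∈ I
    · exact ⟨1, one_pos, fun h => absurd hj h⟩
    · obtain ⟨δ, hδ, h⟩ := Flat.exists_pos hK (f := fun v => ‖pr I v‖ - |v j|)
        ((((pr_lip I).continuous).norm.sub (continuous_apply j).abs)).continuousOn (by
          rintro v ⟨hvT, hv1⟩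
          have hv0 : v ≠ 0 := by
            intro h
            rw [h, mem_sphere, dist_self] at hv1
            exact one_ne_zero hv1.symm
          obtain ⟨i, hi, hij⟩ := hT v hvT hv0
          have h2 := hij j hj
          have h3 : |v i| ≤ ‖pr I v‖ := by
            rw [← Real.norm_eq_abs]; exact norm_le_pi_norm (pr I v) ⟨i, hi⟩
          linarith)
      exact ⟨δ, hδ, fun _ => h⟩
  choose δ hδ h2 using h1
  obtain ⟨δ', hδ', h3⟩ := exists_pos_fin (Finset.univ : Finset ι) δ (fun i _ => hδ i)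
  set d := min δ' 1 with hd
  have hd0 : 0 < d := lt_min hδ' one_pos
  have hd1 : d ≤ 1 := min_le_right _ _
  refine ⟨1 - d, by linarith, by linarith, ?_⟩
  intro v hv j hj
  by_cases hv0 : v = 0
  · rw [hv0]
    simp only [Pi.zero_apply, abs_zero]
    apply mul_nonneg (by linarith) (norm_nonneg _)
  · have hn : 0 < ‖v‖ := norm_pos_iff.mpr hv0
    have h4 : ‖v‖⁻¹ • v ∈ (T : Set (ι → ℝ)) ∩ sphere 0 1 := by
      refine ⟨T.smul_mem _ hv, ?_⟩
      rw [mem_sphere, dist_zero_right, norm_smul, norm_inv, norm_norm]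
      field_simp
    have h5 := h2 j hj _ h4
    have h6 : pr I (‖v‖⁻¹ • v) = ‖v‖⁻¹ • pr I v := rfl
    rw [h6, norm_smul, norm_inv, norm_norm, Pi.smul_apply, smul_eq_mul, abs_mul, abs_inv,
      abs_norm] at h5
    have h7 : d ≤ δ j := (min_le_left _ _).trans (h3 j (Finset.mem_univ j))
    have h8 : ‖pr I v‖ ≤ ‖v‖ := by
      have := (pr_lip I).dist_le_mul v 0
      rw [NNReal.coe_one, one_mul, dist_zero_right] at this
      have h0 : pr I (0 : ι → ℝ) = 0 := rfl
      rw [h0, dist_zero_right] at this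
      exact this
    have h9 : d * ‖v‖ ≤ ‖pr I v‖ - |v j| := by
      have h10 : d ≤ ‖v‖⁻¹ * ‖pr I v‖ - ‖v‖⁻¹ * |v j| := h7.trans h5
      have h11 : d * ‖v‖ ≤ (‖v‖⁻¹ * ‖pr I v‖ - ‖v‖⁻¹ * |v j|) * ‖v‖ := by gcongr
      have h12 : (‖v‖⁻¹ * ‖pr I v‖ - ‖v‖⁻¹ * |v j|) * ‖v‖ = ‖pr I v‖ - |v j| := by
        field_simp
      linarith
    have h10 : d * ‖pr I v‖ ≤ d * ‖v‖ := by gcongr
    nlinarith

/-- **Local structure at points with a strictly coordinate approximate tangent plane.** -/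
theorem localGraph {S : Set (ι → ℝ)} (hS : Good m S) (hm : 0 < m) {I : Finset ι}
    (hI : I.card = m) {x : ι → ℝ} (hx : x ∈ S) {T : Submodule ℝ (ι → ℝ)}
    (hT : ApproxTan m S x T)
    (hTI : ∀ v ∈ T, v ≠ 0 → ∃ i ∈ I, ∀ j, j ∉ I → |v j| < |v i|) :
    ∃ r > 0, ∃ s > 0,
      (∀ q ∈ ball (pr I x) s, ∃ y ∈ S, dist y x < r ∧ pr I y = q) ∧
      (∀ y ∈ closedBall x r ∩ S, ∀ z ∈ closedBall x r ∩ S, pr I y ∈ ball (pr I x) s →
        pr I z ∈ ball (pr I x) s → ∀ j, |z j - y j| ≤ dist (pr I z) (pr I y)) := by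
  have hmn : m ≤ Fintype.card ι := by rw [← hI]; exact Finset.card_le_univ I
  obtain ⟨l, hl0, hl1, hcone⟩ := cone_of_strict hTI
  obtain ⟨R, hR, htan⟩ := tangent hS hm hmn hT (s₀ := (1 - l) / 4) (by linarith) (by linarith)
  have hlR : 0 < (1 - l) * (R / 2) := by apply mul_pos <;> linarith
  have hlR' : (1 - l) * (R / 2) ≤ R / 2 := by nlinarith
  refine ⟨R / 2, by positivity, (1 - l) * (R / 2) / 4, by linarith, ?_⟩
  apply shell hS hm hI hx (r' := R / 4) (by linarith) (by linarith) (by linarith)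
  intro y hy hyd
  have hyR : dist y x < R := by
    have := mem_closedBall.mp hy.1
    linarith
  have h1 := htan y hy.2 hyR
  obtain ⟨w, hw, hwd⟩ := (T.closed_of_finiteDimensional).exists_infDist_eq_dist
    ⟨0, T.zero_mem⟩ (y - x)
  rw [hwd] at h1
  set d := dist y x with hd
  have h2 : ∀ j, j ∉ I → |y j - x j| ≤ l * dist (pr I y) (pr I x) + (1 - l) / 2 * d := by
    intro j hj
    have h3 := hcone w hw j hj
    have h4 := coord_le (y - x) w j
    have h5 : ‖pr I w‖ ≤ dist (pr I y) (pr I x) + (1 - l) / 4 * d := by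
      have h6 := (pr_lip I).dist_le_mul w (y - x)
      rw [NNReal.coe_one, one_mul, dist_comm w] at h6
      have h7 : pr I (y - x) = pr I y - pr I x := rfl
      rw [h7] at h6
      have h8 : ‖pr I w‖ ≤ ‖pr I y - pr I x‖ + dist (pr I w) (pr I y - pr I x) := by
        rw [dist_eq_norm]
        have := norm_add_le (pr I y - pr I x) (pr I w - (pr I y - pr I x))
        rwa [add_sub_cancel] at this
      rw [← dist_eq_norm] at h8
      linarith
    have h6 : |y j - x j| ≤ |w j| + |(y - x) j - w j| := by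
      have e : y j - x j = w j + ((y - x) j - w j) := by
        simp only [Pi.sub_apply]; ring
      rw [e]; exact abs_add_le _ _
    have h7 : l * ‖pr I w‖ ≤ l * (dist (pr I y) (pr I x) + (1 - l) / 4 * d) := by gcongr
    have h8 : l * ((1 - l) / 4 * d) ≤ 1 * ((1 - l) / 4 * d) := by
      apply mul_le_mul_of_nonneg_right hl1.le
      apply mul_nonneg (by linarith) dist_nonneg
    linarith
  have hd0 : 0 < d := by linarith
  have h3 : dist (pr I y) (pr I x) = d := by
    apply dist_eq_pr hl0 h2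
    have : 0 < (1 - l) * d := by apply mul_pos <;> linarith
    linarith
  rw [h3]
  refine ⟨by linarith, fun j hj => ?_⟩
  have h4 := h2 j hj
  rw [h3] at h4
  have h5 : (1 - l) * (R / 4) < (1 - l) * d := by
    apply mul_lt_mul_of_pos_left hyd; linarith
  linarith

end Run7.h763
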