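import Pool.Agent.Run7.h763.Flat4
import Pool.Agent.Run7.h763.Avg

/-! # The sharp Lipschitz constant -/

open MeasureTheory Measure Metric Set

set_option linter.unusedSectionVars false

namespace Run7.h763

lemma vol_small {κ : Type*} [Fintype κ] [DecidableEq κ] [Nonempty κ] (A : (κ → ℝ) →L[ℝ] ℝ)
    {η σ d : ℝ} (hσ : 0 < σ) (hσ1 : σ ≤ 1 / 2) (hd : 0 < d) (hA : 1 + η < ‖A‖ * (1 - 2 * σ))
    {P : Set (κ → ℝ)} (h1 : ∀ p ∈ P, ∀ q ∈ P, dist p q ≤ d)
    (h2 : ∀ p ∈ P, ∀ q ∈ P, |A (p - q)| ≤ (1 + η) * d) :
    volume P ≤ ENNReal.ofReal ((1 - σ ^ Fintype.card κ) * d ^ Fintype.card κ) := by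
  rcases P.eq_empty_or_nonempty with hP | ⟨p₀, hp₀⟩
  · rw [hP, measure_empty]; exact zero_le
  -- the centre
  set c : κ → ℝ := fun i => sInf ((fun p : κ → ℝ => p i) '' P) + d / 2 with hc
  have hbdd : ∀ i, BddBelow ((fun p : κ → ℝ => p i) '' P) := by
    intro i
    refine ⟨p₀ i - d, ?_⟩
    rintro _ ⟨p, hp, rfl⟩
    have := (dist_le_pi_dist p₀ p i).trans (h1 p₀ hp₀ p hp)
    rw [Real.dist_eq, abs_le] at this
    simp only
    linarith
  have hPc : P ⊆ closedBall c (d / 2) := by
    intro p hp
    rw [mem_closedBall, dist_pi_le_iff (by positivity)]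
    intro i
    rw [Real.dist_eq, abs_le]
    have h3 : sInf ((fun p : κ → ℝ => p i) '' P) ≤ p i := csInf_le (hbdd i) ⟨p, hp, rfl⟩
    have h4 : p i - d ≤ sInf ((fun p : κ → ℝ => p i) '' P) := by
      apply le_csInf (Set.Nonempty.image _ ⟨p₀, hp₀⟩)
      rintro _ ⟨q, hq, rfl⟩
      have := (dist_le_pi_dist p q i).trans (h1 p hp q hq)
      rw [Real.dist_eq, abs_le] at this
      simp only
      linarith
    simp only [hc]
    constructor <;> linarith
  -- the extremal direction
  set e : κ → κ → ℝ := fun i j => if i = j then 1 else 0 with he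
  have hAsum : ∀ v : κ → ℝ, A v = ∑ i, v i * A (e i) := by
    intro v
    have := LinearMap.pi_apply_eq_sum_univ (A : (κ → ℝ) →ₗ[ℝ] ℝ) v
    simpa using this
  set w : κ → ℝ := fun i => if 0 ≤ A (e i) then 1 else -1 with hw
  have hw1 : ‖w‖ ≤ 1 := by
    rw [pi_norm_le_iff_of_nonneg zero_le_one]
    intro i
    simp only [hw]
    split_ifs <;> simp
  have hAw : A w = ∑ i, |A (e i)| := by
    rw [hAsum]
    apply Finset.sum_congr rfl
    intro i _
    simp only [hw]
    split_ifs with h
    · rw [one_mul, abs_of_nonneg h]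
    · rw [neg_one_mul, abs_of_neg (lt_of_not_ge h)]
  have hAnorm : ‖A‖ ≤ A w := by
    rw [hAw]
    apply ContinuousLinearMap.opNorm_le_bound _ (Finset.sum_nonneg fun _ _ => abs_nonneg _)
    intro v
    rw [hAsum, Real.norm_eq_abs]
    refine (Finset.abs_sum_le_sum_abs _ _).trans ?_
    rw [Finset.sum_mul]
    apply Finset.sum_le_sum
    intro i _
    rw [abs_mul, mul_comm]
    gcongr
    exact norm_le_pi_norm v i
  have hcb : ∀ τ : ℝ, |τ| = 1 →
      ball (c + (τ * ((1 - σ) * d / 2)) • w) (σ * d / 2) ⊆ closedBall c (d / 2) := by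
    intro τ hτ p hp
    rw [mem_ball] at hp
    rw [mem_closedBall]
    have h3 : dist (c + (τ * ((1 - σ) * d / 2)) • w) c ≤ (1 - σ) * d / 2 := by
      rw [dist_eq_norm, add_sub_cancel_left, norm_smul, Real.norm_eq_abs, abs_mul, hτ, one_mul,
        abs_of_nonneg (by apply div_nonneg (mul_nonneg (by linarith) hd.le); norm_num)]
      calc (1 - σ) * d / 2 * ‖w‖ ≤ (1 - σ) * d / 2 * 1 := by
            apply mul_le_mul_of_nonneg_left hw1
            apply div_nonneg (mul_nonneg (by linarith) hd.le); norm_num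
        _ = _ := mul_one _
    have := dist_triangle p (c + (τ * ((1 - σ) * d / 2)) • w) c
    linarith
  -- `P` misses one of the two cubes
  have hmiss : ∃ τ : ℝ, |τ| = 1 ∧ Disjoint P (ball (c + (τ * ((1 - σ) * d / 2)) • w) (σ * d / 2)) := by
    by_contra hcon
    push Not at hcon
    have hp := hcon 1 (by simp)
    have hq := hcon (-1) (by simp)
    rw [Set.not_disjoint_iff] at hp hq
    obtain ⟨p, hpP, hp⟩ := hp
    obtain ⟨q, hqP, hq⟩ := hq
    have h3 := h2 p hpP q hqP
    rw [mem_ball, dist_eq_norm] at hp hq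
    rw [one_mul] at hp
    have e1 : p - q = (p - (c + ((1 - σ) * d / 2) • w)) -
        (q - (c + (-1 * ((1 - σ) * d / 2)) • w)) + ((1 - σ) * d) • w := by
      have : ((1 - σ) * d) • w = ((1 - σ) * d / 2) • w - (-1 * ((1 - σ) * d / 2)) • w := by
        rw [← sub_smul]; congr 1; ring
      rw [this]
      abel
    rw [e1, map_add, map_sub, map_smul, smul_eq_mul] at h3
    have h4 : |A (p - (c + ((1 - σ) * d / 2) • w))| ≤ ‖A‖ * (σ * d / 2) :=
      (A.le_opNorm _).trans (by gcongr)
    have h5 : |A (q - (c + (-1 * ((1 - σ) * d / 2)) • w))| ≤ ‖A‖ * (σ * d / 2) :=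
      (A.le_opNorm _).trans (by gcongr)
    rw [abs_le] at h3 h4 h5
    have h6 : (1 - σ) * d * ‖A‖ ≤ (1 - σ) * d * A w := by
      apply mul_le_mul_of_nonneg_left hAnorm
      exact mul_nonneg (by linarith) hd.le
    have h7 : (1 + η) * d < ‖A‖ * (1 - 2 * σ) * d := by gcongr
    nlinarith
  obtain ⟨τ, hτ, hdis⟩ := hmiss
  have hsub : P ⊆ closedBall c (d / 2) \ ball (c + (τ * ((1 - σ) * d / 2)) • w) (σ * d / 2) := by
    intro p hp
    exact ⟨hPc hp, fun h => Set.disjoint_left.mp hdis hp h⟩
  refine (measure_mono hsub).trans (le_of_eq ?_)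
  rw [measure_sdiff (hcb τ hτ) isOpen_ball.measurableSet.nullMeasurableSet
    measure_ball_lt_top.ne, Real.volume_pi_closedBall _ (by positivity),
    Real.volume_pi_ball _ (by positivity), ← ENNReal.ofReal_sub _ (by positivity)]
  congr 1
  have e2 : 2 * (d / 2) = d := by ring
  have e3 : 2 * (σ * d / 2) = σ * d := by ring
  rw [e2, e3, mul_pow]
  ring

variable {ι : Type*} [Fintype ι] [DecidableEq ι]

namespace Flat

variable {m : ℕ} {S : Set (ι → ℝ)} {I : Finset ι} {x₀ : ι → ℝ} {r s r' : ℝ} {lam kap : NNReal}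
  {a : (I → ℝ) → ι → ℝ}

/-- a Lipschitz parametrisation -/
lemma exists_param (H : Flat m S I x₀ r s r' lam kap a) (hm : 0 < m) :
    ∃ (K : NNReal) (γ : (I → ℝ) → ι → ℝ), LipschitzWith K γ ∧
      ∀ p ∈ ball (pr I x₀) s, γ p ∈ EE S I x₀ r s ∧ pr I (γ p) = p := by
  have h := H.no_hole hm
  have h' : ∀ p, ∃ x : ι → ℝ, p ∈ ball (pr I x₀) s → (x ∈ EE S I x₀ r s ∧ pr I x = p) := by
    intro p
    by_cases hp : p ∈ ball (pr I x₀) s
    · obtain ⟨x, hx, hxp⟩ := h hp
      exact ⟨x, fun _ => ⟨hx, hxp⟩⟩
    · exact ⟨0, fun h => absurd h hp⟩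
  choose g hg using h'
  have hgl : LipschitzOnWith (Fintype.card I + 1) g (ball (pr I x₀) s) := by
    apply lipOn_pi
    intro j
    rw [lipschitzOnWith_iff_dist_le_mul]
    intro p hp q hq
    obtain ⟨hgp, hgp'⟩ := hg p hp
    obtain ⟨hgq, hgq'⟩ := hg q hq
    have hcast : ((Fintype.card I + 1 : NNReal) : ℝ) = Fintype.card I + 1 := by push_cast; ring
    rw [hcast, Real.dist_eq]
    have hd := dist_nonneg (x := p) (y := q)
    by_cases hj : j ∈ I
    · have e1 : g p j = p ⟨j, hj⟩ := congrFun hgp' ⟨j, hj⟩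
      have e2 : g q j = q ⟨j, hj⟩ := congrFun hgq' ⟨j, hj⟩
      rw [e1, e2]
      have := coord_le p q ⟨j, hj⟩
      have h0 : (0:ℝ) ≤ Fintype.card I := by positivity
      nlinarith
    · have h1 := H.lip1 hm hgq.1 hgp.1 (by rw [hgq']; exact hq) (by rw [hgp']; exact hp) hj
      have h2 : ∑ i : I, |g p i - g q i| ≤ ∑ _i : I, dist p q := by
        apply Finset.sum_le_sum
        intro i _
        have e1 : g p i = p i := congrFun hgp' i
        have e2 : g q i = q i := congrFun hgq' i
        rw [e1, e2]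
        exact coord_le p q i
      rw [Finset.sum_const, Finset.card_univ, nsmul_eq_mul] at h2
      linarith
  obtain ⟨γ, hγ, hγg⟩ := hgl.extend_pi
  refine ⟨_, γ, hγ, fun p hp => ?_⟩
  rw [← hγg hp]
  exact hg p hp

/-- **Sharp Lipschitz estimate.** -/
theorem lip_one (H : Flat m S I x₀ r s r' lam kap a) (hm : 0 < m) {x y : ι → ℝ}
    (hx : x ∈ closedBall x₀ r ∩ S) (hy : y ∈ closedBall x₀ r ∩ S)
    (hxb : pr I x ∈ ball (pr I x₀) s) (hyb : pr I y ∈ ball (pr I x₀) s) (j : ι) :
    |y j - x j| ≤ dist (pr I y) (pr I x) := by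
  have hne : Nonempty I := by
    have : 0 < I.card := by rw [H.card]; exact hm
    exact (Finset.card_pos.mp this).to_subtype
  have hcard : Fintype.card I = m := by rw [Fintype.card_coe, H.card]
  obtain ⟨K, γ, hγ, hγE⟩ := H.exists_param hm
  set f : (I → ℝ) → ℝ := fun p => γ p j with hf
  have hfl : LipschitzWith K f := by
    have := (lip_coord j).comp hγ
    simpa [Function.comp_def] using this
  -- the main claim
  have hmain : ∀ᵐ p : I → ℝ, p ∈ ball (pr I x₀) s → ‖fderiv ℝ f p‖ ≤ 1 := by
    set D₀ : Set (I → ℝ) := {p | p ∈ ball (pr I x₀) s ∧ DifferentiableAt ℝ f p ∧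
      1 < ‖fderiv ℝ f p‖} with hD₀
    have hD₀m : MeasurableSet D₀ := by
      apply isOpen_ball.measurableSet.inter
      apply (measurableSet_of_differentiableAt ℝ f).inter
      exact measurableSet_lt measurable_const (measurable_fderiv ℝ f).norm
    have hnull : volume D₀ = 0 := by
      rcases D₀.eq_empty_or_nonempty with hemp | hnon
      · rw [hemp, measure_empty]
      obtain ⟨t, A, htc, hcov, happ, hAy⟩ :=
        exists_closed_cover_approximatesLinearOn_of_hasFDerivWithinAt f D₀ (fderiv ℝ f)
          (fun p hp => hp.2.1.hasFDerivAt.hasFDerivWithinAt)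
          (fun A => if 1 < ‖A‖ then Real.toNNReal ((‖A‖ - 1) / 4) else 1) (by
            intro A
            split_ifs with h
            · intro h0
              rw [Real.toNNReal_eq_zero] at h0
              linarith
            · exact one_ne_zero)
      have hcov' : D₀ ⊆ ⋃ n, (D₀ ∩ t n) := by
        intro p hp
        obtain ⟨n, hn⟩ := mem_iUnion.mp (hcov hp)
        exact mem_iUnion.mpr ⟨n, hp, hn⟩
      refine measure_mono_null hcov' ?_
      rw [measure_iUnion_null_iff]
      intro n
      set D := D₀ ∩ t n with hD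
      have hDm : MeasurableSet D := hD₀m.inter (htc n).measurableSet
      obtain ⟨y₁, hy₁, hAn⟩ := hAy hnon n
      have hA1 : 1 < ‖A n‖ := by rw [hAn]; exact hy₁.2.2
      have happn := happ n
      rw [if_pos hA1] at happn
      set η : ℝ := (‖A n‖ - 1) / 4 with hη
      have hη0 : 0 < η := by rw [hη]; linarith
      set σ : ℝ := (‖A n‖ - 1) / (4 * ‖A n‖) with hσ
      have hσ0 : 0 < σ := by apply div_pos <;> linarith
      have hσ1 : σ ≤ 1 / 2 := by
        rw [hσ, div_le_iff₀ (by linarith)]
        linarith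
      have hσA : 1 + η < ‖A n‖ * (1 - 2 * σ) := by
        have : ‖A n‖ * (2 * σ) = (‖A n‖ - 1) / 2 := by
          rw [hσ]; field_simp; ring
        have e : ‖A n‖ * (1 - 2 * σ) = ‖A n‖ - ‖A n‖ * (2 * σ) := by ring
        rw [e, this, hη]
        linarith
      have hσm : σ ^ m < 1 := pow_lt_one₀ hσ0.le (by linarith) hm.ne'
      have hσm0 : 0 < σ ^ m := by positivity
      -- the comparison measure
      set μ' : Measure (ι → ℝ) := ENNReal.ofReal (1 - σ ^ m)⁻¹ •
        (Measure.map γ (volume.restrict D)) with hμ'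
      have hγm : Measurable γ := hγ.continuous.measurable
      have hle : μ' ≤ μH[(m : ℝ)] := by
        apply le_hausdorffMeasure (m : ℝ) μ' 1 one_pos
        intro E hE
        have hEt : ediam E ≠ ⊤ := ne_top_of_le_ne_top ENNReal.one_ne_top hE
        have hEt' : ediam (closure E) ≠ ⊤ := by rw [ediam_closure]; exact hEt
        have h1 : μ' E ≤ μ' (closure E) := measure_mono subset_closure
        refine h1.trans ?_
        rw [hμ', Measure.smul_apply, Measure.map_apply hγm isClosed_closure.measurableSet,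
          Measure.restrict_apply (hγm isClosed_closure.measurableSet), smul_eq_mul,
          ENNReal.rpow_natCast]
        set P := γ ⁻¹' closure E ∩ D with hP
        have hPd : ∀ p ∈ P, ∀ q ∈ P, dist p q ≤ (ediam E).toReal ∧
            |A n (p - q)| ≤ (1 + η) * (ediam E).toReal := by
          intro p hp q hq
          have h2 : dist (γ p) (γ q) ≤ (ediam E).toReal := by
            rw [dist_edist, ← ediam_closure E]
            exact ENNReal.toReal_mono hEt' (edist_le_ediam_of_mem hp.1 hq.1)
          have h3 : dist p q ≤ dist (γ p) (γ q) := by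
            have h4 := (pr_lip I).dist_le_mul (γ p) (γ q)
            rw [(hγE p hp.2.1.1).2, (hγE q hq.2.1.1).2, NNReal.coe_one, one_mul] at h4
            exact h4
          refine ⟨h3.trans h2, ?_⟩
          have h5 := happn p hp.2 q hq.2
          rw [Real.coe_toNNReal _ hη0.le, Real.norm_eq_abs, ← dist_eq_norm] at h5
          have h6 : |f p - f q| ≤ dist (γ p) (γ q) := coord_le (γ p) (γ q) j
          have h7 : |A n (p - q)| ≤ |f p - f q| + |f p - f q - A n (p - q)| := by
            have e : A n (p - q) = (f p - f q) + -(f p - f q - A n (p - q)) := by ring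
            rw [e]
            refine (abs_add_le _ _).trans ?_
            rw [abs_neg]
            apply le_of_eq
            congr 2
            ring
          have h8 : η * dist p q ≤ η * (ediam E).toReal := by
            have := h3.trans h2
            gcongr
          linarith
        rcases (ENNReal.toReal_nonneg (a := ediam E)).eq_or_lt with hd0 | hd0
        · -- diameter zero
          have hsub : P.Subsingleton := by
            intro p hp q hq
            have := (hPd p hp q hq).1
            rw [← hd0] at this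
            exact dist_le_zero.mp this
          have : Nontrivial (I → ℝ) := Function.nontrivial
          have : NullMeasurableSet P := (hsub.measurableSet).nullMeasurableSet
          rw [hsub.measure_zero, mul_zero]
          exact zero_le
        · have h8 := vol_small (A n) hσ0 hσ1 hd0 hσA (fun p hp q hq => (hPd p hp q hq).1)
            (fun p hp q hq => (hPd p hp q hq).2)
          rw [hcard] at h8
          calc ENNReal.ofReal (1 - σ ^ m)⁻¹ * volume P
              ≤ ENNReal.ofReal (1 - σ ^ m)⁻¹ *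
                ENNReal.ofReal ((1 - σ ^ m) * (ediam E).toReal ^ m) := by gcongr
            _ = ediam E ^ m := by
                rw [← ENNReal.ofReal_mul (by
                  apply inv_nonneg.mpr; linarith), ← mul_assoc, inv_mul_cancel₀ (by linarith),
                  one_mul, ENNReal.ofReal_pow hd0.le, ENNReal.ofReal_toReal hEt]
      -- apply to the part over `D`
      set Y : Set (ι → ℝ) := EE S I x₀ r s ∩ pr I ⁻¹' D with hY
      have hYm : MeasurableSet Y :=
        H.isClosed_EE.measurableSet.inter ((pr_lip I).continuous.measurable hDm)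
      have h9 : μH[(m : ℝ)] Y ≤ volume D := by
        refine (H.measure_le hYm inter_subset_left).trans (measure_mono ?_)
        rintro _ ⟨x, hx, rfl⟩
        exact hx.2
      have h10 : μ' Y = ENNReal.ofReal (1 - σ ^ m)⁻¹ * volume D := by
        rw [hμ', Measure.smul_apply, Measure.map_apply hγm hYm,
          Measure.restrict_apply (hγm hYm), smul_eq_mul]
        congr 2
        apply inter_eq_self_of_subset_right
        intro p hp
        obtain ⟨h11, h12⟩ := hγE p hp.1.1
        exact ⟨h11, by rw [mem_preimage, h12]; exact hp⟩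
      have h11 : ENNReal.ofReal (1 - σ ^ m)⁻¹ * volume D ≤ volume D := by
        rw [← h10]
        exact (hle Y).trans h9
      by_contra hDne
      have hDt : volume D ≠ ⊤ := by
        apply ne_top_of_le_ne_top (measure_ball_lt_top (μ := volume) (x := pr I x₀) (r := s)).ne
        exact measure_mono fun p hp => hp.1.1
      have h12 : 1 < ENNReal.ofReal (1 - σ ^ m)⁻¹ := by
        rw [ENNReal.one_lt_ofReal]
        exact (one_lt_inv₀ (by linarith)).mpr (by linarith)
      have h13 : 1 * volume D < ENNReal.ofReal (1 - σ ^ m)⁻¹ * volume D := by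
        rw [ENNReal.mul_lt_mul_iff_left hDne hDt]
        exact h12
      rw [one_mul] at h13
      exact absurd h11 (not_le.mpr h13)
    have hae : ∀ᵐ p : I → ℝ, p ∉ D₀ := measure_eq_zero_iff_ae_notMem.mp hnull
    filter_upwards [hae, hfl.ae_differentiableAt] with p hp hdiff hpb
    by_contra hc
    push Not at hc
    exact hp ⟨hpb, hdiff, hc⟩
  have hfin := lip_of_ae hfl hmain hxb hyb
  have hgx : γ (pr I x) = x := by
    obtain ⟨h1, h2⟩ := hγE (pr I x) hxb
    exact H.inj hm h1.1 hx (by rw [h2]; exact hxb) hxb h2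
  have hgy : γ (pr I y) = y := by
    obtain ⟨h1, h2⟩ := hγE (pr I y) hyb
    exact H.inj hm h1.1 hy (by rw [h2]; exact hyb) hyb h2
  simp only [hf, hgx, hgy] at hfin
  exact hfin

end Flat

end Run7.h763
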